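import Pool.Agent.H61DIS.Pair

/-!
# A cubic vertex without cubic neighbours
-/

open Finset Classical

namespace H61DIS

noncomputable section

variable {V : Type*} {G : SimpleGraph V} {S : Finset V} {x : ℝ}

/-- Upper bounds for powers. -/
theorem Hyp.ub (H : Hyp G x S) (k : ℕ) {q : ℝ} (hq : (81949 / 100000 : ℝ) ^ k ≤ q) :
    x ^ k ≤ q :=
  (pow_le_pow_left₀ H.hx0.le (D88.num_lt H.hx0 H.hx).le k).trans hq

theorem Hyp.lb (H : Hyp G x S) (k : ℕ) {q : ℝ} (hq : q ≤ (81948 / 100000 : ℝ) ^ k) :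
    q ≤ x ^ k :=
  hq.trans (pow_le_pow_left₀ (by norm_num) (D88.num_gt H.hx0 H.hx).le k)

section

variable {v a b c : V}

/-- The hypotheses of this file. -/
structure K7 (G : SimpleGraph V) (x : ℝ) (S : Finset V) (v a b c : V) : Prop where
  H : Hyp G x S
  E : N3 G S v a b c
  hab : ¬ G.Adj a b
  hac : ¬ G.Adj a c
  hbc : ¬ G.Adj b c

theorem K7.s12 (K : K7 G x S v a b c) : K7 G x S v b a c :=
  ⟨K.H, K.E.s12, fun hh => K.hab hh.symm, K.hbc, K.hac⟩

theorem K7.s23 (K : K7 G x S v a b c) : K7 G x S v a c b :=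
  ⟨K.H, K.E.s23, K.hac, K.hab, fun hh => K.hbc hh.symm⟩

theorem K7.Bv (K : K7 G x S v a b c) : B G x S {v} ∅ ≤ x ^ 4 :=
  K.H.single K.E.hv (by rw [K.E.dg_eq])

/-- `v` is a common neighbour. -/
theorem K7.cn_pos (K : K7 G x S v a b c) : 1 ≤ cn G S a b := by
  unfold cn
  apply Finset.card_pos.mpr
  refine ⟨v, ?_⟩
  rw [Finset.mem_inter, mem_nb, mem_nb]
  exact ⟨⟨K.E.hv, K.E.va.symm⟩, ⟨K.E.hv, K.E.vb.symm⟩⟩

/-- Low cap for `a` by means of `b`. -/
theorem K7.lowa (K : K7 G x S v a b c) {k : ℕ} (hk : k ≤ dg G S a + 1)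
    (hd : dg G S b ≤ 3 + cn G S a b) : B G x S {a} ∅ ≤ 2 * x ^ (k + 4) :=
  K.H.singlel K.E.aS hk K.E.bS K.E.ab.symm K.hab hd

theorem K7.pairab (K : K7 G x S v a b c) {k : ℕ}
    (hk : k + cn G S a b ≤ dg G S a + dg G S b + 2) : B G x S {a, b} ∅ ≤ x ^ k :=
  K.H.pair K.E.aS K.E.bS K.E.ab K.hab hk

/-- Both `a` and `b` chosen, `c` of degree at most four. -/
theorem K7.pairabl (K : K7 G x S v a b c) {k : ℕ} (hc : dg G S c ≤ 4)
    (hk : k + cn G S a b ≤ dg G S a + dg G S b + 2) : B G x S {a, b} ∅ ≤ 2 * x ^ (k + 4) := by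
  apply K.H.pairl K.E.aS K.E.bS K.E.ab K.hab hk
  refine ⟨c, ?_, ?_⟩
  · rw [mem_rem]
    refine ⟨K.E.cS, ?_, by simp, ?_⟩
    · simp only [Finset.mem_insert, Finset.mem_singleton, not_or]
      exact ⟨K.E.ac.symm, K.E.bc.symm⟩
    · intro t ht
      simp only [Finset.mem_insert, Finset.mem_singleton] at ht
      rcases ht with rfl | rfl
      · exact K.hac
      · exact K.hbc
  · have h1 := dg_rem_cn (G := G) (S := S) (u := a) (w := c) (T := {a, b}) (R := ∅) (by simp)
    have h2 := K.s23.cn_pos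
    omega

/-- Three common neighbours of `a` and `b`. -/
theorem K7.three (K : K7 G x S v a b c) (ha : 3 ≤ dg G S a)
    (h3 : dg G S a ≤ 1 + cn G S a b) : h G x S ≤ 2 * x ^ 4 := by
  have h1 : (Rs G S v a b c).card ≤ 1 := by
    have := Rs_card_left (G := G) (S := S) (v := v) (u := a) (b := b) (c := c)
    omega
  have h2 := K.E.pivot_none K.H.hx0.le h1
  have h4 := K.Bv
  have h5 := K.H.single K.E.aS (by omega : 4 ≤ dg G S a + 1)
  linarith

/-- Two common neighbours of `a` and `b`, `a` of degree four and low, and `b`, `c` have few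
common neighbours. -/
theorem K7.two (K : K7 G x S v a b c) (ha : dg G S a = 4) (hb : dg G S b ≤ 5)
    (h2 : 2 ≤ cn G S a b) (hbc : 6 + cn G S b c ≤ dg G S b + dg G S c) :
    h G x S ≤ 2 * x ^ 4 := by
  have hr : (Rs G S v a b c).card ≤ 2 := by
    have := Rs_card_left (G := G) (S := S) (v := v) (u := a) (b := b) (c := c)
    omega
  have h4 := K.Bv
  have x4 := K.H.lb 4 (by norm_num : (45097 / 100000 : ℝ) ≤ (81948 / 100000 : ℝ) ^ 4)
  by_cases hr1 : (Rs G S v a b c).card ≤ 1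
  · have h5 := K.E.pivot_none K.H.hx0.le hr1
    have h6 := K.H.single K.E.aS (by omega : 4 ≤ dg G S a + 1)
    linarith
  have h5 := K.E.pivot_two K.H.hx0.le hr
  have h6 := K.H.pivot_cap K.E K.hab K.hac K.hbc (by omega) (k := 11) (by omega)
  have h7 := K.lowa (by omega : 5 ≤ dg G S a + 1) (by omega)
  have e9 : 2 * x ^ (5 + 4) = 1 / 3 := by
    rw [show 5 + 4 = 9 by norm_num, K.H.hx]; norm_num
  have x11 := K.H.ub 11 (by norm_num : (81949 / 100000 : ℝ) ^ 11 ≤ 11194 / 100000)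
  rw [e9] at h7
  linarith

/-- Degrees 4, 4, 4. -/
theorem K7.d444 (K : K7 G x S v a b c) (ha : dg G S a = 4) (hb : dg G S b = 4)
    (hc : dg G S c = 4) : h G x S ≤ 2 * x ^ 4 := by
  by_cases h1 : 3 ≤ cn G S a b
  · exact K.three (by omega) (by omega)
  by_cases h2 : 3 ≤ cn G S a c
  · exact K.s23.three (by omega) (by omega)
  by_cases h3 : 3 ≤ cn G S b c
  · exact K.s12.s23.three (by omega) (by omega)
  by_cases h4 : 2 ≤ cn G S a b
  · exact K.two ha (by omega) h4 (by omega)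
  by_cases h5 : 2 ≤ cn G S a c
  · exact K.s23.two ha (by omega) h5 (by rw [cn_comm]; omega)
  by_cases h6 : 2 ≤ cn G S b c
  · exact K.s12.s23.two hb (by omega) h6 (by rw [cn_comm]; omega)
  -- all pairs have one common neighbour
  have g1 := K.pairabl (k := 9) (by omega) (by omega)
  have g2 := K.s23.pairabl (k := 9) (by omega) (by omega)
  have g3 := K.s12.s23.pairabl (k := 9) (by omega) (by omega)
  have gv := K.Bv
  have e13 : 2 * x ^ (9 + 4) = x ^ 4 / 3 := by
    rw [pow_add, K.H.hx]; ring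
  -- four branches
  have hcov : h G x S ≤ B G x S {v} ∅ + (B G x S {a, b} ∅ + B G x S {a, c} ∅ +
      B G x S {b, c} ∅) := by
    have hsub : (dis G S) ⊆ (dis G S).filter (fun D => {v} ⊆ D ∧ Disjoint D ∅) ∪
        ((dis G S).filter (fun D => {a, b} ⊆ D ∧ Disjoint D ∅) ∪
        ((dis G S).filter (fun D => {a, c} ⊆ D ∧ Disjoint D ∅) ∪
        (dis G S).filter (fun D => {b, c} ⊆ D ∧ Disjoint D ∅))) := by
      intro D hD
      rw [Finset.mem_union, Finset.mem_union, Finset.mem_union, Finset.mem_filter,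
        Finset.mem_filter, Finset.mem_filter, Finset.mem_filter]
      by_cases hvD : v ∈ D
      · left; exact ⟨hD, by simpa using hvD, by simp⟩
      · right
        have hins : ∀ p q, p ∈ D → q ∈ D → ({p, q} : Finset V) ⊆ D := by
          intro p q hp hq y hy
          simp only [Finset.mem_insert, Finset.mem_singleton] at hy
          rcases hy with rfl | rfl <;> assumption
        rcases K.E.pair hD hvD with h1 | h1 | h1
        · left; exact ⟨hD, hins _ _ h1.1 h1.2.1, by simp⟩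
        · right; left; exact ⟨hD, hins _ _ h1.1 h1.2.1, by simp⟩
        · right; right; exact ⟨hD, hins _ _ h1.1 h1.2.1, by simp⟩
    have hc1 := (Finset.card_le_card hsub).trans ((Finset.card_union_le _ _).trans
      (Nat.add_le_add_left ((Finset.card_union_le _ _).trans
        (Nat.add_le_add_left (Finset.card_union_le _ _) _)) _))
    have hc2 : ((dis G S).card : ℝ) ≤ (cnt G S {v} ∅ : ℝ) + ((cnt G S {a, b} ∅ : ℝ) +
        ((cnt G S {a, c} ∅ : ℝ) + (cnt G S {b, c} ∅ : ℝ))) := by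
      exact_mod_cast hc1
    have hxp : (0 : ℝ) ≤ x ^ S.card := pow_nonneg K.H.hx0.le _
    unfold h B
    nlinarith
  rw [e13] at g1 g2 g3
  linarith

/-- Degrees 4, 4, 5. -/
theorem K7.d445 (K : K7 G x S v a b c) (ha : dg G S a = 4) (hb : dg G S b = 4)
    (hc : dg G S c = 5) : h G x S ≤ 2 * x ^ 4 := by
  have x4 := K.H.lb 4 (by norm_num : (45097 / 100000 : ℝ) ≤ (81948 / 100000 : ℝ) ^ 4)
  by_cases h1 : cn G S a b ≤ 1
  · have g1 := K.s23.s12.E.pivot_gen K.H.hx0.le
    have g2 := K.pairab (k := 9) (by omega)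
    have hp := K.s23.cn_pos
    have g3 := K.s23.s12.lowa (k := 6) (by omega) (by rw [cn_comm]; omega)
    have x10 := K.H.ub 10 (by norm_num : (81949 / 100000 : ℝ) ^ 10 ≤ 1366 / 10000)
    have gv := K.Bv
    have h9 := K.H.hx
    have x4u := K.H.ub 4 (by norm_num : (81949 / 100000 : ℝ) ^ 4 ≤ 451 / 1000)
    norm_num at g3
    linarith
  by_cases h2 : 3 ≤ cn G S a b
  · exact K.three (by omega) (by omega)
  by_cases h3 : 3 ≤ cn G S b c
  · exact K.s12.s23.three (by omega) (by omega)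
  exact K.two ha (by omega) (by omega) (by omega)

/-- Degrees 4, 5, 5. -/
theorem K7.d455 (K : K7 G x S v a b c) (ha : dg G S a = 4) (hb : dg G S b = 5)
    (hc : dg G S c = 5) : h G x S ≤ 2 * x ^ 4 := by
  have x4 := K.H.lb 4 (by norm_num : (45097 / 100000 : ℝ) ≤ (81948 / 100000 : ℝ) ^ 4)
  have x10 := K.H.ub 10 (by norm_num : (81949 / 100000 : ℝ) ^ 10 ≤ 1366 / 10000)
  have gv := K.Bv
  have gb := K.s12.lowa (k := 6) (by omega) (by rw [cn_comm]; have := K.cn_pos; omega)
  have gc := K.s23.s12.lowa (k := 6) (by omega) (by rw [cn_comm]; have := K.s23.cn_pos; omega)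
  norm_num at gb gc
  by_cases h1 : 2 ≤ cn G S a b
  · have ga := K.lowa (k := 5) (by omega) (by omega)
    have e9 : 2 * x ^ (5 + 4) = 1 / 3 := by
      rw [show 5 + 4 = 9 by norm_num, K.H.hx]; norm_num
    rw [e9] at ga
    have hh := K.E.half K.H.hx0.le
    linarith
  · have g1 := K.s23.s12.E.pivot_gen K.H.hx0.le
    have g2 := K.pairab (k := 10) (by omega)
    linarith

/-- Degrees 5, 5, 5. -/
theorem K7.d555 (K : K7 G x S v a b c) (ha : dg G S a = 5) (hb : dg G S b = 5)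
    (hc : dg G S c = 5) : h G x S ≤ 2 * x ^ 4 := by
  have x4 := K.H.lb 4 (by norm_num : (45097 / 100000 : ℝ) ≤ (81948 / 100000 : ℝ) ^ 4)
  have x10 := K.H.ub 10 (by norm_num : (81949 / 100000 : ℝ) ^ 10 ≤ 1366 / 10000)
  have x11 := K.H.ub 11 (by norm_num : (81949 / 100000 : ℝ) ^ 11 ≤ 11194 / 100000)
  have x6 := K.H.ub 6 (by norm_num : (81949 / 100000 : ℝ) ^ 6 ≤ 3029 / 10000)
  have gv := K.Bv
  have gc := K.H.single K.E.cS (k := 6) (by omega)
  by_cases h1 : 2 ≤ cn G S a b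
  · have ga := K.lowa (k := 6) (by omega) (by omega)
    have gb := K.s12.lowa (k := 6) (by omega) (by rw [cn_comm]; omega)
    norm_num at ga gb
    have := K.E.half K.H.hx0.le
    linarith
  · have g1 := K.s23.s12.E.pivot_gen K.H.hx0.le
    have g2 := K.pairab (k := 11) (by omega)
    linarith

/-- `c` has degree at least six. -/
theorem K7.d6 (K : K7 G x S v a b c) (ha : 4 ≤ dg G S a) (hb : 4 ≤ dg G S b)
    (hab : dg G S a ≤ dg G S b) (hc : 6 ≤ dg G S c) : h G x S ≤ 2 * x ^ 4 := by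
  have x4 := K.H.lb 4 (by norm_num : (45097 / 100000 : ℝ) ≤ (81948 / 100000 : ℝ) ^ 4)
  have x4u := K.H.ub 4 (by norm_num : (81949 / 100000 : ℝ) ^ 4 ≤ 451 / 1000)
  have x10 := K.H.ub 10 (by norm_num : (81949 / 100000 : ℝ) ^ 10 ≤ 1366 / 10000)
  have x11 := K.H.ub 11 (by norm_num : (81949 / 100000 : ℝ) ^ 11 ≤ 11194 / 100000)
  have x5 := K.H.ub 5 (by norm_num : (81949 / 100000 : ℝ) ^ 5 ≤ 3696 / 10000)
  have x6 := K.H.ub 6 (by norm_num : (81949 / 100000 : ℝ) ^ 6 ≤ 3029 / 10000)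
  have x7 := K.H.ub 7 (by norm_num : (81949 / 100000 : ℝ) ^ 7 ≤ 24822 / 100000)
  have e9 : 2 * x ^ (5 + 4) = 1 / 3 := by
    rw [show 5 + 4 = 9 by norm_num, K.H.hx]; norm_num
  have gv := K.Bv
  have gc := K.H.single K.E.cS (k := 7) (by omega)
  have hh := K.E.half K.H.hx0.le
  have hp := K.cn_pos
  by_cases h6 : 6 ≤ dg G S b
  · have ga := K.H.single K.E.aS (k := 5) (by omega)
    have gb := K.H.single K.E.bS (k := 7) (by omega)
    linarith
  by_cases h5 : dg G S b = 5
  · by_cases h4 : dg G S a = 4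
    · have ga := K.H.single K.E.aS (k := 5) (by omega)
      have gb := K.s12.lowa (k := 6) (by omega) (by rw [cn_comm]; omega)
      norm_num at gb
      linarith
    · have ga := K.H.single K.E.aS (k := 6) (by omega)
      have gb := K.H.single K.E.bS (k := 6) (by omega)
      linarith
  · have ga := K.lowa (k := 5) (by omega) (by omega)
    have gb := K.s12.lowa (k := 5) (by omega) (by rw [cn_comm]; omega)
    have gc' := K.s23.s12.lowa (k := 7) (by omega) (by
      rw [cn_comm]; have := K.s23.cn_pos; omega)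
    norm_num at gc'
    rw [e9] at ga gb
    linarith

/-- Sorted degrees. -/
theorem K7.sorted (K : K7 G x S v a b c) (ha : 4 ≤ dg G S a) (hab : dg G S a ≤ dg G S b)
    (hbc : dg G S b ≤ dg G S c) : h G x S ≤ 2 * x ^ 4 := by
  by_cases h6 : 6 ≤ dg G S c
  · exact K.d6 ha (by omega) hab h6
  have h1 : dg G S a = 4 ∨ dg G S a = 5 := by omega
  have h2 : dg G S b = 4 ∨ dg G S b = 5 := by omega
  have h3 : dg G S c = 4 ∨ dg G S c = 5 := by omega
  rcases h1 with h1 | h1 <;> rcases h2 with h2 | h2 <;> rcases h3 with h3 | h3 <;>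
    first
      | exact K.d444 h1 h2 h3
      | exact K.d445 h1 h2 h3
      | exact K.d455 h1 h2 h3
      | exact K.d555 h1 h2 h3
      | omega

/-- All neighbours of degree at least four. -/
theorem K7.all (K : K7 G x S v a b c) (ha : 4 ≤ dg G S a) (hb : 4 ≤ dg G S b)
    (hc : 4 ≤ dg G S c) : h G x S ≤ 2 * x ^ 4 := by
  rcases le_total (dg G S a) (dg G S b) with h1 | h1
  · rcases le_total (dg G S b) (dg G S c) with h2 | h2
    · exact K.sorted ha h1 h2
    · rcases le_total (dg G S a) (dg G S c) with h3 | h3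
      · exact K.s23.sorted ha h3 h2
      · exact K.s23.s12.sorted hc h3 h1
  · rcases le_total (dg G S a) (dg G S c) with h2 | h2
    · exact K.s12.sorted hb h1 h2
    · rcases le_total (dg G S b) (dg G S c) with h3 | h3
      · exact K.s12.s23.sorted hb h3 h2
      · exact K.s23.s12.s23.sorted hc h3 h1

end

end

end H61DIS
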