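import Mathlib

/-!
# 2-dominating independent sets: counting framework

For a graph `G`, a finite set `S` of vertices, `dis G S` is the set of 2-dominating independent
sets of the induced subgraph `G[S]`; `h G x S = |dis G S| x^|S|` is the normalised number.
-/

open Finset Classical

namespace H61DIS

noncomputable section

variable {V : Type*} (G : SimpleGraph V)

/-- Neighbours of `v` inside `S`. -/
def nb (S : Finset V) (v : V) : Finset V := S.filter (fun u => G.Adj v u)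

/-- Degree of `v` in `S`. -/
def dg (S : Finset V) (v : V) : ℕ := (nb G S v).card

/-- 2-dominating independent sets of `G[S]`. -/
def dis (S : Finset V) : Finset (Finset V) :=
  S.powerset.filter (fun D => (∀ u ∈ D, ∀ v ∈ D, ¬ G.Adj u v) ∧
    ∀ v ∈ S, v ∉ D → 2 ≤ (nb G D v).card)

/-- What remains of `S` after choosing `T` and rejecting `R`. -/
def rem (S T R : Finset V) : Finset V :=
  S.filter (fun y => y ∉ T ∧ y ∉ R ∧ ∀ t ∈ T, ¬ G.Adj t y)

/-- Number of 2-dominating independent sets of `G[S]` containing `T` and avoiding `R`. -/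
def cnt (S T R : Finset V) : ℕ :=
  ((dis G S).filter (fun D => T ⊆ D ∧ Disjoint D R)).card

/-- Normalised number of 2-dominating independent sets. -/
def h (x : ℝ) (S : Finset V) : ℝ := ((dis G S).card : ℝ) * x ^ S.card

/-- Normalised version of `cnt`. -/
def B (x : ℝ) (S T R : Finset V) : ℝ := (cnt G S T R : ℝ) * x ^ S.card

variable {G}

theorem mem_nb {S : Finset V} {v u : V} : u ∈ nb G S v ↔ u ∈ S ∧ G.Adj v u := by
  simp [nb]

theorem mem_rem {S T R : Finset V} {y : V} :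
    y ∈ rem G S T R ↔ y ∈ S ∧ y ∉ T ∧ y ∉ R ∧ ∀ t ∈ T, ¬ G.Adj t y := by
  simp [rem]

theorem rem_subset (S T R : Finset V) : rem G S T R ⊆ S := Finset.filter_subset _ _

theorem mem_dis {S D : Finset V} :
    D ∈ dis G S ↔ D ⊆ S ∧ (∀ u ∈ D, ∀ v ∈ D, ¬ G.Adj u v) ∧
      ∀ v ∈ S, v ∉ D → 2 ≤ (nb G D v).card := by
  simp [dis]

theorem nb_mono {S S' : Finset V} (hS : S ⊆ S') (v : V) : nb G S v ⊆ nb G S' v := by
  intro u hu
  rw [mem_nb] at hu ⊢
  exact ⟨hS hu.1, hu.2⟩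

/-- Two nonadjacent neighbours in `D` of a vertex outside `D`. -/
theorem two_of {S D : Finset V} (hD : D ∈ dis G S) {v : V} (hv : v ∈ S) (hvD : v ∉ D) :
    ∃ p q, p ∈ nb G S v ∧ q ∈ nb G S v ∧ p ≠ q ∧ p ∈ D ∧ q ∈ D ∧ ¬ G.Adj p q := by
  rw [mem_dis] at hD
  obtain ⟨hDS, hind, hdom⟩ := hD
  have h2 := hdom v hv hvD
  obtain ⟨p, hp, q, hq, hpq⟩ := Finset.one_lt_card.mp (by omega : 1 < (nb G D v).card)
  have hp' := mem_nb.mp hp
  have hq' := mem_nb.mp hq
  exact ⟨p, q, nb_mono hDS v hp, nb_mono hDS v hq, hpq, hp'.1, hq'.1, hind p hp'.1 q hq'.1⟩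

theorem cnt_le (S T R : Finset V) : cnt G S T R ≤ (dis G (rem G S T R)).card := by
  unfold cnt
  apply Finset.card_le_card_of_injOn (fun D => D \ T)
  · intro D hD
    simp only [Finset.coe_filter, Set.mem_ofPred_eq] at hD
    obtain ⟨hDS, hTD, hDR⟩ := hD
    rw [mem_dis] at hDS
    obtain ⟨hsub, hind, hdom⟩ := hDS
    show D \ T ∈ (dis G (rem G S T R) : Set (Finset V))
    rw [Finset.mem_coe, mem_dis]
    refine ⟨?_, ?_, ?_⟩
    · intro y hy
      rw [Finset.mem_sdiff] at hy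
      rw [mem_rem]
      refine ⟨hsub hy.1, hy.2, ?_, fun t ht => hind t (hTD ht) y hy.1⟩
      intro hyR
      exact (Finset.disjoint_left.mp hDR) hy.1 hyR
    · intro u hu v hv
      exact hind u (Finset.mem_sdiff.mp hu).1 v (Finset.mem_sdiff.mp hv).1
    · intro v hv hvD
      rw [mem_rem] at hv
      obtain ⟨hvS, hvT, hvR, hvA⟩ := hv
      have hvD' : v ∉ D := fun hh => hvD (Finset.mem_sdiff.mpr ⟨hh, hvT⟩)
      refine (hdom v hvS hvD').trans (Finset.card_le_card ?_)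
      intro u hu
      rw [mem_nb] at hu ⊢
      refine ⟨Finset.mem_sdiff.mpr ⟨hu.1, fun huT => hvA u huT hu.2.symm⟩, hu.2⟩
  · intro D hD D' hD' heq
    simp only [Finset.coe_filter, Set.mem_ofPred_eq] at hD hD'
    have e1 : D = (D \ T) ∪ T := (Finset.sdiff_union_of_subset hD.2.1).symm
    have e2 : D' = (D' \ T) ∪ T := (Finset.sdiff_union_of_subset hD'.2.1).symm
    have heq' : D \ T = D' \ T := heq
    rw [e1, e2, heq']

theorem h_nonneg {x : ℝ} (hx : 0 ≤ x) (S : Finset V) : 0 ≤ h G x S := by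
  unfold h; positivity

theorem B_nonneg {x : ℝ} (hx : 0 ≤ x) (S T R : Finset V) : 0 ≤ B G x S T R := by
  unfold B; positivity

theorem B_le {x : ℝ} (hx0 : 0 ≤ x) (hx1 : x ≤ 1) {S T R : Finset V} {κ : ℝ}
    (hκ : h G x (rem G S T R) ≤ κ) {k : ℕ} (hk : k + (rem G S T R).card ≤ S.card) :
    B G x S T R ≤ κ * x ^ k := by
  have h1 : (cnt G S T R : ℝ) ≤ ((dis G (rem G S T R)).card : ℝ) := by
    exact_mod_cast cnt_le S T R
  have h2 : x ^ S.card ≤ x ^ (k + (rem G S T R).card) := pow_le_pow_of_le_one hx0 hx1 hk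
  have h3 : (0 : ℝ) ≤ x ^ S.card := by positivity
  have h4 : (0 : ℝ) ≤ ((dis G (rem G S T R)).card : ℝ) := by positivity
  calc B G x S T R = (cnt G S T R : ℝ) * x ^ S.card := rfl
    _ ≤ ((dis G (rem G S T R)).card : ℝ) * x ^ S.card := by gcongr
    _ ≤ ((dis G (rem G S T R)).card : ℝ) * x ^ (k + (rem G S T R).card) := by gcongr
    _ = h G x (rem G S T R) * x ^ k := by unfold h; rw [pow_add]; ring
    _ ≤ κ * x ^ k := by gcongr

/-- Counting removed vertices. -/
theorem card_blocked {S T R U : Finset V} (hU : U ⊆ S) (hb : ∀ u ∈ U, u ∉ rem G S T R) :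
    U.card + (rem G S T R).card ≤ S.card := by
  have hd : Disjoint U (rem G S T R) := Finset.disjoint_left.mpr hb
  rw [← Finset.card_union_of_disjoint hd]
  exact Finset.card_le_card (Finset.union_subset hU (rem_subset S T R))

theorem rem_ssubset {S T R : Finset V} {t : V} (htS : t ∈ S) (htT : t ∈ T) :
    rem G S T R ⊂ S := by
  rw [Finset.ssubset_iff_of_subset (rem_subset S T R)]
  exact ⟨t, htS, fun hh => (mem_rem.mp hh).2.1 htT⟩

/-- Degrees after a removal. -/
theorem dg_rem {S T R Q : Finset V} {w : V} (hQ : Q ⊆ nb G S w)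
    (hb : ∀ q ∈ Q, q ∉ rem G S T R) :
    dg G (rem G S T R) w + Q.card ≤ dg G S w := by
  unfold dg
  have hd : Disjoint (nb G (rem G S T R) w) Q := by
    rw [Finset.disjoint_left]
    intro u hu hq
    exact hb u hq (mem_nb.mp hu).1
  rw [← Finset.card_union_of_disjoint hd]
  exact Finset.card_le_card (Finset.union_subset (nb_mono (rem_subset S T R) w) hQ)

/-- One branch. -/
theorem cover1 {x : ℝ} (hx0 : 0 ≤ x) {S T R : Finset V}
    (H : ∀ D ∈ dis G S, T ⊆ D ∧ Disjoint D R) : h G x S ≤ B G x S T R := by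
  have h1 : (dis G S).card ≤ cnt G S T R := by
    unfold cnt
    apply Finset.card_le_card
    intro D hD
    rw [Finset.mem_filter]
    exact ⟨hD, H D hD⟩
  have h1' : ((dis G S).card : ℝ) ≤ (cnt G S T R : ℝ) := by exact_mod_cast h1
  unfold h B
  gcongr

/-- Two branches. -/
theorem cover2 {x : ℝ} (hx0 : 0 ≤ x) {S T R T' R' : Finset V}
    (H : ∀ D ∈ dis G S, (T ⊆ D ∧ Disjoint D R) ∨ (T' ⊆ D ∧ Disjoint D R')) :
    h G x S ≤ B G x S T R + B G x S T' R' := by
  have h1 : (dis G S).card ≤ cnt G S T R + cnt G S T' R' := by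
    unfold cnt
    refine le_trans (Finset.card_le_card ?_) (Finset.card_union_le _ _)
    intro D hD
    rw [Finset.mem_union, Finset.mem_filter, Finset.mem_filter]
    rcases H D hD with hh | hh
    · exact Or.inl ⟨hD, hh⟩
    · exact Or.inr ⟨hD, hh⟩
  have h1' : ((dis G S).card : ℝ) ≤ (cnt G S T R : ℝ) + (cnt G S T' R' : ℝ) := by
    exact_mod_cast h1
  unfold h B
  rw [← add_mul]
  gcongr

/-- Three branches. -/
theorem cover3 {x : ℝ} (hx0 : 0 ≤ x) {S T R T' R' T'' R'' : Finset V}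
    (H : ∀ D ∈ dis G S, (T ⊆ D ∧ Disjoint D R) ∨ (T' ⊆ D ∧ Disjoint D R') ∨
      (T'' ⊆ D ∧ Disjoint D R'')) :
    h G x S ≤ B G x S T R + B G x S T' R' + B G x S T'' R'' := by
  have h1 : (dis G S).card ≤ cnt G S T R + cnt G S T' R' + cnt G S T'' R'' := by
    unfold cnt
    refine le_trans (Finset.card_le_card ?_) ((Finset.card_union_le _ _).trans
      (Nat.add_le_add_right (Finset.card_union_le _ _) _))
    intro D hD
    rw [Finset.mem_union, Finset.mem_union, Finset.mem_filter, Finset.mem_filter,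
      Finset.mem_filter]
    rcases H D hD with hh | hh | hh
    · exact Or.inl (Or.inl ⟨hD, hh⟩)
    · exact Or.inl (Or.inr ⟨hD, hh⟩)
    · exact Or.inr ⟨hD, hh⟩
  have h1' : ((dis G S).card : ℝ) ≤ (cnt G S T R : ℝ) + (cnt G S T' R' : ℝ) +
      (cnt G S T'' R'' : ℝ) := by
    exact_mod_cast h1
  unfold h B
  rw [← add_mul, ← add_mul]
  gcongr

/-- The half-sum inequality. -/
theorem half_gen {x : ℝ} (hx0 : 0 ≤ x) {S N : Finset V} {v : V}
    (H : ∀ D ∈ dis G S, v ∉ D → 2 ≤ (N ∩ D).card) :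
    h G x S ≤ B G x S {v} ∅ + (1 / 2) * ∑ u ∈ N, B G x S {u} ∅ := by
  have e1 : ∀ u : V, cnt G S {u} ∅ = ∑ D ∈ dis G S, if u ∈ D then 1 else 0 := by
    intro u
    unfold cnt
    rw [Finset.card_filter]
    simp
  have e2 : ∑ u ∈ N, cnt G S {u} ∅ = ∑ D ∈ dis G S, (N ∩ D).card := by
    simp_rw [e1]
    rw [Finset.sum_comm]
    apply Finset.sum_congr rfl
    intro D _
    rw [← Finset.card_filter, Finset.filter_mem_eq_inter]
  have e3 : 2 * (dis G S).card ≤ 2 * cnt G S {v} ∅ + ∑ u ∈ N, cnt G S {u} ∅ := by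
    rw [e2, e1 v, Finset.mul_sum, ← Finset.sum_add_distrib]
    rw [Finset.card_eq_sum_ones, Finset.mul_sum]
    apply Finset.sum_le_sum
    intro D hD
    by_cases hv : v ∈ D
    · simp [hv]
    · have := H D hD hv
      simp [hv]
      exact this
  have e4 : 2 * ((dis G S).card : ℝ) ≤ 2 * (cnt G S {v} ∅ : ℝ) +
      ∑ u ∈ N, (cnt G S {u} ∅ : ℝ) := by
    exact_mod_cast e3
  unfold h B
  rw [← Finset.sum_mul]
  have hxp : (0 : ℝ) ≤ x ^ S.card := by positivity
  nlinarith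

theorem half {x : ℝ} (hx0 : 0 ≤ x) {S : Finset V} {v : V} (hv : v ∈ S) :
    h G x S ≤ B G x S {v} ∅ + (1 / 2) * ∑ u ∈ nb G S v, B G x S {u} ∅ := by
  apply half_gen hx0
  intro D hD hvD
  have hD' := mem_dis.mp hD
  refine (hD'.2.2 v hv hvD).trans (Finset.card_le_card ?_)
  intro u hu
  rw [mem_nb] at hu
  rw [Finset.mem_inter, mem_nb]
  exact ⟨⟨hD'.1 hu.1, hu.2⟩, hu.1⟩

theorem not_mem_rem_of_adj {S T R : Finset V} {t y : V} (ht : t ∈ T) (hy : G.Adj t y) :
    y ∉ rem G S T R := fun hh => (mem_rem.mp hh).2.2.2 t ht hy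

theorem not_mem_rem_of_mem {S T R : Finset V} {y : V} (hy : y ∈ T) :
    y ∉ rem G S T R := fun hh => (mem_rem.mp hh).2.1 hy

theorem not_mem_rem_of_mem' {S T R : Finset V} {y : V} (hy : y ∈ R) :
    y ∉ rem G S T R := fun hh => (mem_rem.mp hh).2.2.1 hy

/-- The closed neighbourhood of a chosen vertex is removed. -/
theorem card_closed {S : Finset V} {u : V} (hu : u ∈ S) :
    dg G S u + 1 + (rem G S {u} ∅).card ≤ S.card := by
  have h1 : (insert u (nb G S u)).card = dg G S u + 1 := by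
    rw [Finset.card_insert_of_notMem]
    · rfl
    · intro hh; exact (G.irrefl (mem_nb.mp hh).2)
  rw [← h1]
  apply card_blocked
  · intro y hy
    rcases Finset.mem_insert.mp hy with rfl | hy
    · exact hu
    · exact (mem_nb.mp hy).1
  · intro y hy
    rcases Finset.mem_insert.mp hy with rfl | hy
    · exact not_mem_rem_of_mem (by simp)
    · exact not_mem_rem_of_adj (t := u) (by simp) (mem_nb.mp hy).2

/-- Bound for a single chosen vertex. -/
theorem B_single {x : ℝ} (hx0 : 0 ≤ x) (hx1 : x ≤ 1) {S : Finset V} {u : V} (hu : u ∈ S)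
    {κ : ℝ} (hκ0 : 0 ≤ κ) (hκ : h G x (rem G S {u} ∅) ≤ κ) {k : ℕ} (hk : k ≤ dg G S u + 1) :
    B G x S {u} ∅ ≤ κ * x ^ k := by
  apply B_le hx0 hx1 hκ
  have := card_closed (G := G) hu
  omega

/-- A covering set of branches. -/
theorem cover_sum {x : ℝ} (hx0 : 0 ≤ x) {S C : Finset V} {v : V}
    (H : ∀ D ∈ dis G S, v ∉ D → ∃ w ∈ C, w ∈ D) :
    h G x S ≤ B G x S {v} ∅ + ∑ w ∈ C, B G x S {w} ∅ := by
  have h1 : (dis G S).card ≤ cnt G S {v} ∅ + ∑ w ∈ C, cnt G S {w} ∅ := by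
    have hsub : dis G S ⊆ (dis G S).filter (fun D => {v} ⊆ D ∧ Disjoint D ∅) ∪
        C.biUnion (fun w => (dis G S).filter (fun D => {w} ⊆ D ∧ Disjoint D ∅)) := by
      intro D hD
      rw [Finset.mem_union, Finset.mem_filter, Finset.mem_biUnion]
      by_cases hvD : v ∈ D
      · left; exact ⟨hD, by simpa using hvD, by simp⟩
      · right
        obtain ⟨w, hw, hwD⟩ := H D hD hvD
        exact ⟨w, hw, Finset.mem_filter.mpr ⟨hD, by simpa using hwD, by simp⟩⟩
    refine (Finset.card_le_card hsub).trans ((Finset.card_union_le _ _).trans ?_)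
    exact Nat.add_le_add_left Finset.card_biUnion_le _
  have h1' : ((dis G S).card : ℝ) ≤ (cnt G S {v} ∅ : ℝ) + ∑ w ∈ C, (cnt G S {w} ∅ : ℝ) := by
    exact_mod_cast h1
  unfold h B
  rw [← Finset.sum_mul, ← add_mul]
  gcongr

theorem h_empty {x : ℝ} : h G x ∅ ≤ 1 := by
  unfold h
  have : (dis G (∅ : Finset V)).card ≤ 1 := by
    refine (Finset.card_le_card (Finset.filter_subset _ _)).trans ?_
    simp
  have h2 : ((dis G (∅ : Finset V)).card : ℝ) ≤ 1 := by exact_mod_cast this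
  simpa using h2

/-- The averaged bound at a vertex of minimum degree. -/
theorem big {x : ℝ} (hx0 : 0 ≤ x) (hx1 : x ≤ 1) {S : Finset V}
    (IH1 : ∀ S', S' ⊂ S → h G x S' ≤ 1) {v : V} (hv : v ∈ S)
    (hmin : ∀ w ∈ S, dg G S v ≤ dg G S w) :
    h G x S ≤ (1 + (dg G S v : ℝ) / 2) * x ^ (dg G S v + 1) := by
  have h1 := half (G := G) hx0 hv
  have h2 : ∀ u ∈ nb G S v, B G x S {u} ∅ ≤ x ^ (dg G S v + 1) := by
    intro u hu
    have huS := (mem_nb.mp hu).1
    have := B_single (G := G) hx0 hx1 huS (by norm_num) (IH1 _ (rem_ssubset huS (by simp)))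
      (by have := hmin u huS; omega : dg G S v + 1 ≤ dg G S u + 1)
    linarith
  have h3 : B G x S {v} ∅ ≤ x ^ (dg G S v + 1) := by
    have := B_single (G := G) hx0 hx1 hv (by norm_num) (IH1 _ (rem_ssubset hv (by simp)))
      (le_refl (dg G S v + 1))
    linarith
  have h4 : ∑ u ∈ nb G S v, B G x S {u} ∅ ≤ (dg G S v : ℝ) * x ^ (dg G S v + 1) := by
    refine (Finset.sum_le_sum h2).trans ?_
    rw [Finset.sum_const, nsmul_eq_mul]
    rfl
  linarith

/-- Numerical bound for degrees at least six. -/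
theorem big_num {x : ℝ} (hx0 : 0 ≤ x) (hxu : x ≤ 41 / 50) (h7 : 4 * x ^ 7 ≤ 1) (d : ℕ)
    (hd : 6 ≤ d) : (1 + (d : ℝ) / 2) * x ^ (d + 1) ≤ 1 := by
  induction d, hd using Nat.le_induction with
  | base => norm_num; linarith
  | succ d hd ih =>
    have hd' : (6 : ℝ) ≤ d := by exact_mod_cast hd
    have hp : 0 ≤ x ^ (d + 1) := by positivity
    have key : (1 + ((d + 1 : ℕ) : ℝ) / 2) * x ≤ 1 + (d : ℝ) / 2 := by
      push_cast
      nlinarith
    calc (1 + ((d + 1 : ℕ) : ℝ) / 2) * x ^ (d + 1 + 1)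
        = ((1 + ((d + 1 : ℕ) : ℝ) / 2) * x) * x ^ (d + 1) := by ring
      _ ≤ (1 + (d : ℝ) / 2) * x ^ (d + 1) := mul_le_mul_of_nonneg_right key hp
      _ ≤ 1 := ih

end

end H61DIS
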