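import Pool.Agent.H61DIS.Defs
import Pool.Agent.H61DIS.Basic

/-!
# The number `mi2` and the normalised counts
-/

open Finset Classical

namespace H61DIS

noncomputable section

variable {V : Type*} [Fintype V] {G : SimpleGraph V}

theorem mi2_eq : mi2 G = (dis G (Finset.univ : Finset V)).card := by
  have hset : {D : Set V | IsTwoDIS G D} =
      (fun F : Finset V => (F : Set V)) '' (dis G (Finset.univ : Finset V) : Set (Finset V)) := by
    ext D
    constructor
    · intro hD
      refine ⟨D.toFinset, ?_, by simp⟩
      rw [Finset.mem_coe, mem_dis]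
      refine ⟨Finset.subset_univ _, ?_, ?_⟩
      · intro u hu v hv
        exact hD.1 u (by simpa using hu) v (by simpa using hv)
      · intro v _ hv
        have h2 := hD.2 v (by simpa using hv)
        have e : G.neighborSet v ∩ D = ((nb G D.toFinset v : Finset V) : Set V) := by
          ext u
          simp [nb, and_comm]
        rw [e, Set.ncard_coe_finset] at h2
        exact h2
    · rintro ⟨F, hF, rfl⟩
      rw [Finset.mem_coe, mem_dis] at hF
      refine ⟨fun u hu v hv => hF.2.1 u (by simpa using hu) v (by simpa using hv), ?_⟩
      intro v hv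
      have h2 := hF.2.2 v (Finset.mem_univ _) (by simpa using hv)
      have e : G.neighborSet v ∩ (F : Set V) = ((nb G F v : Finset V) : Set V) := by
        ext u
        simp [nb, and_comm]
      rw [e, Set.ncard_coe_finset]
      exact h2
  unfold mi2
  rw [hset, Set.ncard_image_of_injective _ Finset.coe_injective, Set.ncard_coe_finset]

/-- From `h ≤ 1` to the bound. -/
theorem mi2_le_of_h {x : ℝ} (hx : 0 < x) (hh : h G x Finset.univ ≤ 1) :
    (mi2 G : ℝ) ≤ (1 / x) ^ (Fintype.card V) := by
  rw [mi2_eq]
  unfold h at hh
  rw [Finset.card_univ] at hh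
  rw [one_div, inv_pow, ← one_div, le_div_iff₀ (by positivity)]
  exact hh

end

end H61DIS
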