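import Pool.Agent.H61DIS.Pair
import Pool.Agent.H61DIS.Bridge
import Pool.Agent.D88.Four

/-!
# The induction over induced subgraphs
-/

open Finset Classical

namespace H61DIS

noncomputable section

variable {V : Type*} {G : SimpleGraph V} {x : ℝ}

/-- The induction, from the two local statements (a vertex of degree at most three; minimum degree
five). -/
theorem main_of (hx0 : 0 < x) (hx : x ^ 9 = 1 / 6)
    (two : ∀ S : Finset V, Hyp G x S → (∃ v ∈ S, dg G S v ≤ 3) → h G x S ≤ 2 * x ^ 4)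
    (five : ∀ S : Finset V, Hyp G x S → (∀ w ∈ S, 5 ≤ dg G S w) → (∃ v ∈ S, dg G S v = 5) →
      h G x S ≤ 1) (S : Finset V) :
    h G x S ≤ 1 ∧ ((∃ v ∈ S, dg G S v ≤ 3) → h G x S ≤ 2 * x ^ 4) := by
  induction S using Finset.strongInduction with
  | H S IH =>
    have H : Hyp G x S := ⟨hx0, hx, fun S' hS' => (IH S' hS').1, fun S' hS' => (IH S' hS').2⟩
    refine ⟨?_, fun hv => two S H hv⟩
    by_cases hv : ∃ v ∈ S, dg G S v ≤ 3
    · have h1 := two S H hv
      have h2 : x ^ 4 ≤ 1 / 2 :=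
        (pow_le_pow_left₀ hx0.le (D88.num_lt hx0 hx).le 4).trans (by norm_num)
      linarith
    push Not at hv
    by_cases hS : S = ∅
    · rw [hS]; exact h_empty
    obtain ⟨v, hvS, hmin⟩ := Finset.exists_min_image S (fun w => dg G S w)
      (Finset.nonempty_iff_ne_empty.mpr hS)
    have h4 := hv v hvS
    by_cases e4 : dg G S v = 4
    · exact D88.four hx0 hx H.IH1 H.IH2 (fun w hw => by have := hmin w hw; omega) ⟨v, hvS, e4⟩
    by_cases e5 : dg G S v = 5
    · exact five S H (fun w hw => by have := hmin w hw; omega) ⟨v, hvS, e5⟩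
    have h1 := big hx0.le H.hx1 H.IH1 hvS hmin
    have h7 : 4 * x ^ 7 ≤ 1 := by
      have := pow_le_pow_left₀ hx0.le (D88.num_lt hx0 hx).le 7
      have h8 : (81949 / 100000 : ℝ) ^ 7 ≤ 1 / 4 := by norm_num
      linarith
    have h2 := big_num hx0.le (by have := D88.num_lt hx0 hx; linarith) h7 (dg G S v) (by omega)
    linarith

end

/-- From the induction to the bound for `mi2`. -/
theorem upper_of {V : Type} [Fintype V] (G : SimpleGraph V)
    (hmain : ∀ x : ℝ, 0 < x → x ^ 9 = 1 / 6 → h G x Finset.univ ≤ 1) :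
    (mi2 G : ℝ) ≤ (6 : ℝ) ^ ((Fintype.card V : ℝ) / 9) := by
  set y : ℝ := (6 : ℝ) ^ ((1 : ℝ) / 9) with hy
  have hy0 : 0 < y := by positivity
  have hy9 : y ^ 9 = 6 := by
    rw [hy, ← Real.rpow_natCast, ← Real.rpow_mul (by norm_num)]
    norm_num
  set x : ℝ := 1 / y with hx
  have hx0 : 0 < x := by positivity
  have hx9 : x ^ 9 = 1 / 6 := by
    rw [hx, div_pow, hy9]; norm_num
  have h2 := mi2_le_of_h hx0 (hmain x hx0 hx9)
  have h3 : (1 / x) ^ (Fintype.card V) = (6 : ℝ) ^ ((Fintype.card V : ℝ) / 9) := by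
    have e : 1 / x = y := by rw [hx]; field_simp
    rw [e, hy, ← Real.rpow_natCast, ← Real.rpow_mul (by norm_num)]
    congr 1
    ring
  rw [h3] at h2
  exact h2

end H61DIS
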