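import Pool.Agent.H61DIS.Bridge

/-!
# The maximum over all graphs with `n` vertices, and its asymptotics
-/

open Filter Asymptotics Topology

namespace H61DIS

theorem image_isTwoDIS {V W : Type*} {G : SimpleGraph V} {H : SimpleGraph W} (f : G ≃g H)
    (D : Set V) (hD : IsTwoDIS G D) : IsTwoDIS H (f '' D) := by
  constructor
  · rintro _ ⟨u, hu, rfl⟩ _ ⟨w, hw, rfl⟩ hadj
    exact hD.1 u hu w hw (f.map_adj_iff.mp hadj)
  · intro y hy
    have hy' : f.symm y ∉ D := fun hh => hy ⟨f.symm y, hh, by simp⟩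
    have h2 := hD.2 _ hy'
    have e : H.neighborSet y ∩ f '' D = f '' (G.neighborSet (f.symm y) ∩ D) := by
      ext z
      constructor
      · rintro ⟨h3, u, hu, rfl⟩
        refine ⟨u, ⟨?_, hu⟩, rfl⟩
        rw [SimpleGraph.mem_neighborSet] at h3 ⊢
        rw [← f.map_adj_iff]
        simpa using h3
      · rintro ⟨u, ⟨h3, hu⟩, rfl⟩
        refine ⟨?_, u, hu, rfl⟩
        rw [SimpleGraph.mem_neighborSet] at h3 ⊢
        rw [← f.map_adj_iff] at h3
        simpa using h3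
    rw [e, Set.ncard_image_of_injective _ f.injective]
    exact h2

/-- The numbers of 2-dominating independent sets are invariant under isomorphism. -/
theorem mi2_iso {V W : Type*} {G : SimpleGraph V} {H : SimpleGraph W} (f : G ≃g H) :
    mi2 G = mi2 H := by
  unfold mi2
  have e : {D : Set W | IsTwoDIS H D} = (fun D : Set V => f '' D) '' {D : Set V | IsTwoDIS G D} := by
    ext D
    constructor
    · intro hD
      refine ⟨f.symm '' D, image_isTwoDIS f.symm D hD, ?_⟩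
      ext z
      simp
    · rintro ⟨D', hD', rfl⟩
      exact image_isTwoDIS f D' hD'
  rw [e, Set.ncard_image_of_injective]
  exact Set.image_injective.mpr f.injective

/-- The maximum of `mi2` over all graphs with `n` vertices. -/
noncomputable def mi2Max (n : ℕ) : ℕ := sSup {m | ∃ G : SimpleGraph (Fin n), m = mi2 G}

theorem finite_vals (n : ℕ) : {m | ∃ G : SimpleGraph (Fin n), m = mi2 G}.Finite := by
  have : {m | ∃ G : SimpleGraph (Fin n), m = mi2 G} =
      Set.range (fun G : SimpleGraph (Fin n) => mi2 G) := by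
    ext m; constructor
    · rintro ⟨G, rfl⟩; exact ⟨G, rfl⟩
    · rintro ⟨G, rfl⟩; exact ⟨G, rfl⟩
  rw [this]
  exact Set.finite_range _

theorem le_mi2Max {n : ℕ} (G : SimpleGraph (Fin n)) : mi2 G ≤ mi2Max n :=
  le_csSup (finite_vals n).bddAbove ⟨G, rfl⟩

theorem exists_mi2Max (n : ℕ) : ∃ G : SimpleGraph (Fin n), mi2Max n = mi2 G := by
  have := Nat.sSup_mem (s := {m | ∃ G : SimpleGraph (Fin n), m = mi2 G}) ⟨_, ⊥, rfl⟩
    (finite_vals n).bddAbove
  exact this

theorem le_mi2Max' {V : Type} [Fintype V] (G : SimpleGraph V) : mi2 G ≤ mi2Max (Fintype.card V) := by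
  let e := Fintype.equivFin V
  have h1 : mi2 G = mi2 (G.map e.toEmbedding) := mi2_iso (SimpleGraph.Iso.map e G)
  rw [h1]
  exact le_mi2Max _

/-- Both bounds give the order of magnitude. -/
theorem theta_of (hup : ∀ n, (mi2Max n : ℝ) ≤ (6 : ℝ) ^ ((n : ℝ) / 9))
    (hlo : ∀ n, 6 ^ (n / 9) ≤ mi2Max n) :
    (fun n : ℕ => (mi2Max n : ℝ)) =Θ[atTop] (fun n : ℕ => (6 : ℝ) ^ ((n : ℝ) / 9)) := by
  constructor
  · apply IsBigO.of_bound 1
    filter_upwards with n
    rw [Real.norm_of_nonneg (by positivity), Real.norm_of_nonneg (by positivity), one_mul]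
    exact hup n
  · apply IsBigO.of_bound 6
    filter_upwards with n
    rw [Real.norm_of_nonneg (by positivity), Real.norm_of_nonneg (by positivity)]
    have h1 : (6 : ℝ) ^ ((n : ℝ) / 9) ≤ (6 : ℝ) ^ (((n / 9 : ℕ) : ℝ) + 1) := by
      apply Real.rpow_le_rpow_of_exponent_le (by norm_num)
      have h2 : n < 9 * (n / 9) + 9 := by omega
      have h3 : (n : ℝ) < 9 * ((n / 9 : ℕ) : ℝ) + 9 := by exact_mod_cast h2
      linarith
    have h4 : (6 : ℝ) ^ (((n / 9 : ℕ) : ℝ) + 1) = 6 * (6 : ℝ) ^ (n / 9) := by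
      rw [Real.rpow_add_one (by norm_num), Real.rpow_natCast, mul_comm]
    have h5 : ((6 : ℝ) ^ (n / 9)) ≤ (mi2Max n : ℝ) := by exact_mod_cast hlo n
    linarith

/-- Both bounds give the growth rate. -/
theorem limit_of (hup : ∀ n, (mi2Max n : ℝ) ≤ (6 : ℝ) ^ ((n : ℝ) / 9))
    (hlo : ∀ n, 6 ^ (n / 9) ≤ mi2Max n) :
    Tendsto (fun n : ℕ => (mi2Max n : ℝ) ^ ((1 : ℝ) / n)) atTop (𝓝 ((6 : ℝ) ^ ((1 : ℝ) / 9))) := by
  have hlow : Tendsto (fun n : ℕ => (6 : ℝ) ^ ((1 : ℝ) / 9 - 1 / n)) atTop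
      (𝓝 ((6 : ℝ) ^ ((1 : ℝ) / 9))) := by
    have h1 : Tendsto (fun n : ℕ => (1 : ℝ) / 9 - 1 / n) atTop (𝓝 ((1 : ℝ) / 9 - 0)) :=
      tendsto_const_nhds.sub tendsto_one_div_atTop_nhds_zero_nat
    rw [sub_zero] at h1
    exact (Real.continuousAt_const_rpow (by norm_num)).tendsto.comp h1
  refine tendsto_of_tendsto_of_tendsto_of_le_of_le' hlow tendsto_const_nhds ?_ ?_
  · filter_upwards [eventually_gt_atTop 0] with n hn
    have hn' : (0 : ℝ) < n := by exact_mod_cast hn
    have h5 : ((6 : ℝ) ^ (n / 9)) ≤ (mi2Max n : ℝ) := by exact_mod_cast hlo n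
    have h6 : (6 : ℝ) ^ ((n : ℝ) / 9 - 1) ≤ (mi2Max n : ℝ) := by
      refine le_trans ?_ h5
      rw [← Real.rpow_natCast]
      apply Real.rpow_le_rpow_of_exponent_le (by norm_num)
      have h2 : n < 9 * (n / 9) + 9 := by omega
      have h3 : (n : ℝ) < 9 * ((n / 9 : ℕ) : ℝ) + 9 := by exact_mod_cast h2
      linarith
    have h7 := Real.rpow_le_rpow (by positivity) h6 (by positivity : (0 : ℝ) ≤ 1 / n)
    rw [← Real.rpow_mul (by norm_num)] at h7
    have e : ((n : ℝ) / 9 - 1) * (1 / n) = 1 / 9 - 1 / n := by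
      field_simp
    rwa [e] at h7
  · filter_upwards [eventually_gt_atTop 0] with n hn
    have hn' : (0 : ℝ) < n := by exact_mod_cast hn
    have h7 := Real.rpow_le_rpow (by positivity) (hup n) (by positivity : (0 : ℝ) ≤ 1 / n)
    rw [← Real.rpow_mul (by norm_num)] at h7
    have e : ((n : ℝ) / 9) * (1 / n) = 1 / 9 := by
      field_simp
    rwa [e] at h7

end H61DIS
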