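import Pool.Agent.H61DIS.Four

/-!
# Claw-free graphs
-/

open Finset Classical

namespace H61DIS

noncomputable section

variable {V : Type*} {G : SimpleGraph V}

/-- No vertex has three pairwise nonadjacent neighbours. -/
def ClawFree (G : SimpleGraph V) : Prop :=
  ∀ v a b c, G.Adj v a → G.Adj v b → G.Adj v c → a ≠ b → a ≠ c → b ≠ c →
    G.Adj a b ∨ G.Adj a c ∨ G.Adj b c

variable {S : Finset V} {x : ℝ}

/-- Degree at most three. -/
theorem claw_low3 (hG : ClawFree G) (hxl : 4 / 5 ≤ x) (hxu : x ≤ 41 / 50)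
    (IH1 : ∀ S', S' ⊂ S → h G x S' ≤ 1)
    (IH2 : ∀ S', S' ⊂ S → (∃ v ∈ S', dg G S' v ≤ 2) → h G x S' ≤ 2 * x ^ 4)
    (hv : ∃ v ∈ S, dg G S v ≤ 3) : h G x S ≤ 2 * x ^ 4 := by
  have hx0 : 0 ≤ x := by linarith
  have hx1 : x ≤ 1 := by linarith
  by_cases hlow : ∃ w ∈ S, dg G S w ≤ 2
  · exact low hxl hxu IH1 IH2 hlow
  push Not at hlow
  obtain ⟨v, hvS, hdv⟩ := hv
  have hdv3 : (nb G S v).card = 3 := by
    have := hlow v hvS
    unfold dg at this hdv
    omega
  -- one vertex of the neighbourhood meets all nonadjacent pairs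
  have key : ∀ a b c : V, a ∈ nb G S v → b ∈ nb G S v → c ∈ nb G S v →
      (∀ w ∈ nb G S v, w = a ∨ w = b ∨ w = c) → G.Adj a b → h G x S ≤ 2 * x ^ 4 := by
    intro a b c ha hb hc hall hab
    have hcS := (mem_nb.mp hc).1
    have h1 : h G x S ≤ B G x S {v} ∅ + B G x S {c} ∅ := by
      apply cover2 hx0
      intro D hD
      by_cases hvD : v ∈ D
      · left; exact ⟨by simpa using hvD, by simp⟩
      · right
        obtain ⟨p, q, hp, hq, hpq, hpD, hqD, hna⟩ := two_of hD hvS hvD
        refine ⟨?_, by simp⟩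
        have hcD : c ∈ D := by
          rcases hall p hp with rfl | rfl | rfl <;> rcases hall q hq with rfl | rfl | rfl
          · exact absurd rfl hpq
          · exact absurd hab hna
          · exact hqD
          · exact absurd hab.symm hna
          · exact absurd rfl hpq
          · exact hqD
          · exact hpD
          · exact hpD
          · exact hpD
        simpa using hcD
    have h2 : B G x S {v} ∅ ≤ 1 * x ^ 4 :=
      B_single hx0 hx1 hvS (by norm_num) (IH1 _ (rem_ssubset hvS (by simp)))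
        (by unfold dg; omega)
    have h3 : B G x S {c} ∅ ≤ 1 * x ^ 4 :=
      B_single hx0 hx1 hcS (by norm_num) (IH1 _ (rem_ssubset hcS (by simp)))
        (by have := hlow c hcS; omega)
    linarith
  obtain ⟨a, b, c, hab, hac, hbc, hN⟩ := Finset.card_eq_three.mp hdv3
  have ha : a ∈ nb G S v := by rw [hN]; simp
  have hb : b ∈ nb G S v := by rw [hN]; simp
  have hc : c ∈ nb G S v := by rw [hN]; simp
  have hall : ∀ w ∈ nb G S v, w = a ∨ w = b ∨ w = c := by
    intro w hw; rw [hN] at hw; simpa using hw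
  rcases hG v a b c (mem_nb.mp ha).2 (mem_nb.mp hb).2 (mem_nb.mp hc).2 hab hac hbc with
    h1 | h1 | h1
  · exact key a b c ha hb hc hall h1
  · exact key a c b ha hc hb (fun w hw => by rcases hall w hw with h | h | h <;> tauto) h1
  · exact key b c a hb hc ha (fun w hw => by rcases hall w hw with h | h | h <;> tauto) h1

/-- Two disjoint edges. -/
structure TwoEdges (G : SimpleGraph V) (S : Finset V) (v a b c d : V) : Prop where
  E : N4 G S v a b c d
  ab : G.Adj a b
  cd : G.Adj c d
  ac : ¬ G.Adj a c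
  ad : ¬ G.Adj a d
  bc : ¬ G.Adj b c
  bd : ¬ G.Adj b d

theorem TwoEdges.flip {v a b c d : V} (T : TwoEdges G S v a b c d) :
    TwoEdges G S v c d a b :=
  ⟨T.E.s23.s12.s34.s23, T.cd, T.ab, fun hh => T.ac hh.symm, fun hh => T.bc hh.symm,
    fun hh => T.ad hh.symm, fun hh => T.bd hh.symm⟩

theorem TwoEdges.swap {v a b c d : V} (T : TwoEdges G S v a b c d) :
    TwoEdges G S v b a c d :=
  ⟨T.E.s12, T.ab.symm, T.cd, T.bc, T.bd, T.ac, T.ad⟩

/-- The neighbourhood of a vertex of degree four. -/
theorem claw_four (hG : ClawFree G) (hxl : 4 / 5 ≤ x) (hxu : x ≤ 41 / 50)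
    (h67 : 2 * x ^ 5 + x ^ 7 ≤ 1) (h56 : x ^ 5 + 2 * x ^ 6 ≤ 1)
    (IH1 : ∀ S', S' ⊂ S → h G x S' ≤ 1) (h4 : ∀ w ∈ S, 4 ≤ dg G S w) {v : V} (hv : v ∈ S)
    (hdv : dg G S v = 4) :
    h G x S ≤ 1 ∨ ∃ a b c d, TwoEdges G S v a b c d := by
  have hx0 : 0 ≤ x := by linarith
  have hx1 : x ≤ 1 := by linarith
  obtain ⟨a, b, c, d, E⟩ := N4.exists hv hdv
  -- three mutually adjacent neighbours
  have K3 : ∀ a b c d, N4 G S v a b c d → G.Adj b c → G.Adj b d → G.Adj c d → h G x S ≤ 1 := by
    intro a b c d E hbc hbd hcd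
    have h1 := E.clique3 hx0 hbc hbd hcd
    have h2 : B G x S {v} ∅ ≤ 1 * x ^ 5 :=
      B_single hx0 hx1 E.hv (by norm_num) (IH1 _ (rem_ssubset E.hv (by simp)))
        (by rw [E.dg_eq])
    have h3 : B G x S {a} ∅ ≤ 1 * x ^ 5 :=
      B_single hx0 hx1 E.aS (by norm_num) (IH1 _ (rem_ssubset E.aS (by simp)))
        (by have := h4 a E.aS; omega)
    have : (0 : ℝ) ≤ x ^ 7 := by positivity
    linarith
  have PP : ∀ a b c d, N4 G S v a b c d → G.Adj a b → G.Adj b c → G.Adj c d →
      ¬ G.Adj b d → ¬ G.Adj a d → h G x S ≤ 1 := by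
    intro a b c d E hab hbc hcd hbd had
    exact (E.path hx0 hx1 IH1 h4 hab hbc hcd hbd had).trans h67
  have CC : ∀ a b c d, N4 G S v a b c d → G.Adj a b → G.Adj b c → G.Adj c d →
      G.Adj d a → h G x S ≤ 1 := by
    intro a b c d E hab hbc hcd hda
    exact (E.cycle hx0 hx1 IH1 h4 hab hbc hcd hda).trans h56
  -- from one adjacency
  -- `a ~ b`
  have claw : ∀ p q r, p ∈ nb G S v → q ∈ nb G S v → r ∈ nb G S v → p ≠ q → p ≠ r → q ≠ r →
      G.Adj p q ∨ G.Adj p r ∨ G.Adj q r := by
    intro p q r hp hq hr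
    exact hG v p q r (mem_nb.mp hp).2 (mem_nb.mp hq).2 (mem_nb.mp hr).2
  -- case of exactly one neighbour `b` of `a` inside
  have one : ∀ a b c d, N4 G S v a b c d → G.Adj a b → ¬ G.Adj a c → ¬ G.Adj a d →
      h G x S ≤ 1 ∨ ∃ a b c d, TwoEdges G S v a b c d := by
    intro a b c d E hab hac had
    have hcd : G.Adj c d := by
      rcases claw a c d E.ha E.hc E.hd E.ac E.ad E.cd with h1 | h1 | h1
      · exact absurd h1 hac
      · exact absurd h1 had
      · exact h1
    by_cases hbc : G.Adj b c
    · by_cases hbd : G.Adj b d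
      · exact Or.inl (K3 a b c d E hbc hbd hcd)
      · exact Or.inl (PP a b c d E hab hbc hcd hbd had)
    · by_cases hbd : G.Adj b d
      · exact Or.inl (PP a b d c E.s34 hab hbd hcd.symm hbc hac)
      · exact Or.inr ⟨a, b, c, d, E, hab, hcd, hac, had, hbc, hbd⟩
  -- case of exactly two neighbours `b, c` of `a` inside
  have two : ∀ a b c d, N4 G S v a b c d → G.Adj a b → G.Adj a c → ¬ G.Adj a d →
      h G x S ≤ 1 := by
    intro a b c d E hab hac had
    by_cases hbc : G.Adj b c
    · -- triangle `a, b, c`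
      exact K3 d a b c E.s34.s23.s12 hab hac hbc
    · by_cases hbd : G.Adj b d
      · by_cases hcd : G.Adj c d
        · exact CC a b d c E.s34 hab hbd hcd.symm hac.symm
        · -- path `c a b d`
          exact PP c a b d E.s23.s12 hac.symm hab hbd had hcd
      · have hcd : G.Adj c d := by
          rcases claw b c d E.hb E.hc E.hd E.bc E.bd E.cd with h1 | h1 | h1
          · exact absurd h1 hbc
          · exact absurd h1 hbd
          · exact h1
        -- path `b a c d`
        exact PP b a c d E.s12.s23.s12.s12.s23.s12.s12 hab.symm hac hcd had hbd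
  by_cases hab : G.Adj a b
  · by_cases hac : G.Adj a c
    · by_cases had : G.Adj a d
      · -- `a` adjacent to all
        rcases claw b c d E.hb E.hc E.hd E.bc E.bd E.cd with h1 | h1 | h1
        · exact Or.inl (K3 d a b c E.s34.s23.s12 hab hac h1)
        · exact Or.inl (K3 c a b d E.s23.s12 hab had h1)
        · exact Or.inl (K3 b a c d E.s12 hac had h1)
      · exact Or.inl (two a b c d E hab hac had)
    · by_cases had : G.Adj a d
      · exact Or.inl (two a b d c E.s34 hab had hac)
      · exact one a b c d E hab hac had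
  · by_cases hac : G.Adj a c
    · by_cases had : G.Adj a d
      · exact Or.inl (two a c d b E.s23.s34 hac had hab)
      · exact one a c b d E.s23 hac hab had
    · by_cases had : G.Adj a d
      · exact one a d b c E.s34.s23 had hab hac
      · -- `b, c, d` mutually adjacent
        have hbc : G.Adj b c := by
          rcases claw a b c E.ha E.hb E.hc E.ab E.ac E.bc with h1 | h1 | h1
          · exact absurd h1 hab
          · exact absurd h1 hac
          · exact h1
        have hbd : G.Adj b d := by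
          rcases claw a b d E.ha E.hb E.hd E.ab E.ad E.bd with h1 | h1 | h1
          · exact absurd h1 hab
          · exact absurd h1 had
          · exact h1
        have hcd : G.Adj c d := by
          rcases claw a c d E.ha E.hc E.hd E.ac E.ad E.cd with h1 | h1 | h1
          · exact absurd h1 hac
          · exact absurd h1 had
          · exact h1
        exact Or.inl (K3 a b c d E hbc hbd hcd)

end

end H61DIS
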