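import Pool.Agent.H61DIS.Claw

/-!
# Claw-free graphs: minimum degree four and five, and the induction
-/

open Finset Classical

namespace H61DIS

noncomputable section

variable {V : Type*} {G : SimpleGraph V} {S : Finset V} {x : ℝ}

/-- A remaining vertex loses a removed neighbour. -/
theorem dg_rem_one {u w v : V} (hvS : v ∈ S) (hwv : G.Adj w v) (huv : G.Adj u v) :
    dg G (rem G S {u} ∅) w + 1 ≤ dg G S w := by
  have := dg_rem (G := G) (S := S) (T := {u}) (R := ∅) (Q := {v}) (w := w)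
    (by
      intro y hy
      rw [Finset.mem_singleton] at hy
      subst hy
      exact mem_nb.mpr ⟨hvS, hwv⟩)
    (by
      intro y hy
      rw [Finset.mem_singleton] at hy
      subst hy
      exact not_mem_rem_of_adj (t := u) (by simp) huv)
  simpa using this

theorem dg_rem_two {u w v v' : V} (hvv : v ≠ v') (hvS : v ∈ S) (hwv : G.Adj w v)
    (huv : G.Adj u v) (hvS' : v' ∈ S) (hwv' : G.Adj w v') (huv' : G.Adj u v') :
    dg G (rem G S {u} ∅) w + 2 ≤ dg G S w := by
  have := dg_rem (G := G) (S := S) (T := {u}) (R := ∅) (Q := {v, v'}) (w := w)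
    (by
      intro y hy
      rw [Finset.mem_insert, Finset.mem_singleton] at hy
      rcases hy with rfl | rfl
      · exact mem_nb.mpr ⟨hvS, hwv⟩
      · exact mem_nb.mpr ⟨hvS', hwv'⟩)
    (by
      intro y hy
      rw [Finset.mem_insert, Finset.mem_singleton] at hy
      rcases hy with rfl | rfl
      · exact not_mem_rem_of_adj (t := u) (by simp) huv
      · exact not_mem_rem_of_adj (t := u) (by simp) huv')
  rwa [Finset.card_pair hvv] at this

theorem mem_rem_single {u w : V} (hwS : w ∈ S) (hwu : w ≠ u) (hna : ¬ G.Adj u w) :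
    w ∈ rem G S {u} ∅ := by
  rw [mem_rem]
  exact ⟨hwS, by simpa using hwu, by simp, by simpa using hna⟩

/-- Minimum degree four. -/
theorem claw_min4 (hG : ClawFree G) (hxl : 4 / 5 ≤ x) (hxu : x ≤ 41 / 50)
    (h67 : 2 * x ^ 5 + x ^ 7 ≤ 1) (h56 : x ^ 5 + 2 * x ^ 6 ≤ 1) (h9 : 6 * x ^ 9 ≤ 1)
    (IH1 : ∀ S', S' ⊂ S → h G x S' ≤ 1)
    (IH3 : ∀ S', S' ⊂ S → (∃ v ∈ S', dg G S' v ≤ 3) → h G x S' ≤ 2 * x ^ 4)
    (h4 : ∀ w ∈ S, 4 ≤ dg G S w) {v : V} (hv : v ∈ S)
    (hdv : dg G S v = 4) : h G x S ≤ 1 := by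
  have hx0 : 0 ≤ x := by linarith
  have hx1 : x ≤ 1 := by linarith
  rcases claw_four hG hxl hxu h67 h56 IH1 h4 hv hdv with hh | ⟨a, b, c, d, T⟩
  · exact hh
  -- basic bounds
  have B5 : ∀ w ∈ S, B G x S {w} ∅ ≤ x ^ 5 := by
    intro w hw
    have := B_single (G := G) hx0 hx1 hw (by norm_num) (IH1 _ (rem_ssubset hw (by simp)))
      (by have := h4 w hw; omega : 5 ≤ dg G S w + 1)
    linarith
  have B6 : ∀ w ∈ S, 5 ≤ dg G S w → B G x S {w} ∅ ≤ x ^ 6 := by
    intro w hw hd
    have := B_single (G := G) hx0 hx1 hw (by norm_num) (IH1 _ (rem_ssubset hw (by simp)))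
      (by omega : 6 ≤ dg G S w + 1)
    linarith
  have B5' : ∀ w ∈ S, (∃ y ∈ rem G S {w} ∅, dg G (rem G S {w} ∅) y ≤ 3) →
      B G x S {w} ∅ ≤ (2 * x ^ 4) * x ^ 5 := by
    intro w hw hy
    exact B_single (G := G) hx0 hx1 hw (by positivity) (IH3 _ (rem_ssubset hw (by simp)) hy)
      (by have := h4 w hw; omega : 5 ≤ dg G S w + 1)
  -- a two-edge neighbourhood with an edge of degrees at least five
  have good : ∀ v a b c d, TwoEdges G S v a b c d → 5 ≤ dg G S c → 5 ≤ dg G S d →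
      h G x S ≤ 1 := by
    intro v a b c d T hc hd
    have h1 := T.flip.E.sum_clique hx0 T.ab
    have h2 := B5 v T.E.hv
    have h3 := B6 c T.E.cS hc
    have h5 := B6 d T.E.dS hd
    linarith
  -- the main case, `deg a = deg c = 4`
  have main : ∀ a b c d, TwoEdges G S v a b c d → dg G S a = 4 → dg G S c = 4 →
      h G x S ≤ 1 := by
    intro a b c d T ha hc
    have h1 := T.E.sum_clique hx0 T.cd
    have hBa : B G x S {a} ∅ ≤ (2 * x ^ 4) * x ^ 5 := by
      apply B5' a T.E.aS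
      refine ⟨c, mem_rem_single T.E.cS T.E.ac.symm T.ac, ?_⟩
      have := dg_rem_one (G := G) (S := S) (u := a) (w := c) (v := v) hv T.E.vc.symm
        T.E.va.symm
      omega
    have hBb : B G x S {b} ∅ ≤ (2 * x ^ 4) * x ^ 5 := by
      apply B5' b T.E.bS
      refine ⟨c, mem_rem_single T.E.cS T.E.bc.symm T.bc, ?_⟩
      have := dg_rem_one (G := G) (S := S) (u := b) (w := c) (v := v) hv T.E.vc.symm
        T.E.vb.symm
      omega
    by_cases hlow : ∃ y ∈ rem G S {v} ∅, dg G (rem G S {v} ∅) y ≤ 3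
    · have hBv := B5' v hv hlow
      have e1 : (2 * x ^ 4) * x ^ 5 = 2 * x ^ 9 := by ring
      rw [e1] at hBa hBb hBv
      linarith
    · push Not at hlow
      -- all outer neighbours of `a` have degree at least five
      have hout : ∀ y, y ∈ nb G S a → y ≠ v → ¬ G.Adj v y → 5 ≤ dg G S y := by
        intro y hy hyv hna
        have hyS := (mem_nb.mp hy).1
        have hay := (mem_nb.mp hy).2
        have h1 := hlow y (mem_rem_single hyS hyv hna)
        have h2 := dg_rem_one (G := G) (S := S) (u := v) (w := y) (v := a) T.E.aS hay.symm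
          T.E.va
        omega
      rcases claw_four hG hxl hxu h67 h56 IH1 h4 T.E.aS ha with hh | ⟨a1, b1, c1, d1, T1⟩
      · exact hh
      -- locate `v`
      have hva : v ∈ nb G S a := mem_nb.mpr ⟨hv, T.E.va.symm⟩
      rcases T1.E.all v hva with h5 | h5 | h5 | h5
      · subst h5
        exact good _ _ _ _ _ T1 (hout c1 T1.E.hc T1.E.ac.symm T1.ac)
          (hout d1 T1.E.hd T1.E.ad.symm T1.ad)
      · subst h5
        exact good _ _ _ _ _ T1 (hout c1 T1.E.hc T1.E.bc.symm T1.bc)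
          (hout d1 T1.E.hd T1.E.bd.symm T1.bd)
      · subst h5
        exact good _ _ _ _ _ T1.flip (hout a1 T1.E.ha T1.E.ac (fun hh => T1.ac hh.symm))
          (hout b1 T1.E.hb T1.E.bc (fun hh => T1.bc hh.symm))
      · subst h5
        exact good _ _ _ _ _ T1.flip (hout a1 T1.E.ha T1.E.ad (fun hh => T1.ad hh.symm))
          (hout b1 T1.E.hb T1.E.bd (fun hh => T1.bd hh.symm))
  -- reduce to the main case
  have h4' : ∀ w ∈ S, dg G S w = 4 ∨ 5 ≤ dg G S w := by
    intro w hw; have := h4 w hw; omega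
  rcases h4' a T.E.aS with ha | ha
  · rcases h4' c T.E.cS with hc | hc
    · exact main a b c d T ha hc
    · rcases h4' d T.E.dS with hd | hd
      · exact main a b d c T.flip.swap.flip ha hd
      · exact good _ _ _ _ _ T hc hd
  · rcases h4' b T.E.bS with hb | hb
    · rcases h4' c T.E.cS with hc | hc
      · exact main b a c d T.swap hb hc
      · rcases h4' d T.E.dS with hd | hd
        · exact main b a d c T.swap.flip.swap.flip hb hd
        · exact good _ _ _ _ _ T hc hd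
    · exact good _ _ _ _ _ T.flip ha hb

/-- Minimum degree five. -/
theorem claw_min5 (hG : ClawFree G) (hxl : 8194 / 10000 ≤ x) (hxu : x ≤ 8195 / 10000)
    (h9 : x ^ 9 = 1 / 6)
    (IH1 : ∀ S', S' ⊂ S → h G x S' ≤ 1)
    (IH3 : ∀ S', S' ⊂ S → (∃ v ∈ S', dg G S' v ≤ 3) → h G x S' ≤ 2 * x ^ 4)
    (h5 : ∀ w ∈ S, 5 ≤ dg G S w) {v : V} (hv : v ∈ S)
    (hdv : dg G S v = 5) : h G x S ≤ 1 := by
  have hx0 : 0 ≤ x := by linarith
  have hx1 : x ≤ 1 := by linarith
  have x6 : x ^ 6 ≤ 3030 / 10000 := (pow_le_pow_left₀ hx0 hxu 6).trans (by norm_num)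
  have x7 : x ^ 7 ≤ 2483 / 10000 := (pow_le_pow_left₀ hx0 hxu 7).trans (by norm_num)
  have x10 : x ^ 10 ≤ 1366 / 10000 := by
    have : x ^ 10 = x * x ^ 9 := by ring
    rw [this, h9]; linarith
  set N := nb G S v with hN
  have hNc : N.card = 5 := hdv
  have BS : ∀ w ∈ S, B G x S {w} ∅ ≤ x ^ 6 := by
    intro w hw
    have := B_single (G := G) hx0 hx1 hw (by norm_num) (IH1 _ (rem_ssubset hw (by simp)))
      (by have := h5 w hw; omega : 6 ≤ dg G S w + 1)
    linarith
  have B7 : ∀ w ∈ S, 6 ≤ dg G S w → B G x S {w} ∅ ≤ x ^ 7 := by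
    intro w hw hd
    have := B_single (G := G) hx0 hx1 hw (by norm_num) (IH1 _ (rem_ssubset hw (by simp)))
      (by omega : 7 ≤ dg G S w + 1)
    linarith
  have B6' : ∀ w ∈ S, (∃ y ∈ rem G S {w} ∅, dg G (rem G S {w} ∅) y ≤ 3) →
      B G x S {w} ∅ ≤ 2 * x ^ 10 := by
    intro w hw hy
    have := B_single (G := G) hx0 hx1 hw (by positivity) (IH3 _ (rem_ssubset hw (by simp)) hy)
      (by have := h5 w hw; omega : 6 ≤ dg G S w + 1)
    calc B G x S {w} ∅ ≤ (2 * x ^ 4) * x ^ 6 := this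
      _ = 2 * x ^ 10 := by ring
  by_cases htri : ∃ p q r, p ∈ N ∧ q ∈ N ∧ r ∈ N ∧ G.Adj p q ∧ G.Adj p r ∧ G.Adj q r
  · -- a triangle in the neighbourhood
    obtain ⟨p, q, r, hp, hq, hr, hpq, hpr, hqr⟩ := htri
    set C := N \ {p, q, r} with hC
    have hCc : C.card = 2 := by
      have hsub : ({p, q, r} : Finset V) ⊆ N := by
        intro y hy
        simp only [Finset.mem_insert, Finset.mem_singleton] at hy
        rcases hy with rfl | rfl | rfl <;> assumption
      rw [hC, Finset.card_sdiff_of_subset hsub, hNc, c3 hpq.ne hpr.ne hqr.ne]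
    have h1 : h G x S ≤ B G x S {v} ∅ + ∑ w ∈ C, B G x S {w} ∅ := by
      apply cover_sum hx0
      intro D hD hvD
      obtain ⟨a, b, ha, hb, hab, haD, hbD, hna⟩ := two_of hD hv hvD
      by_cases haC : a ∈ C
      · exact ⟨a, haC, haD⟩
      by_cases hbC : b ∈ C
      · exact ⟨b, hbC, hbD⟩
      exfalso
      rw [hC, Finset.mem_sdiff] at haC hbC
      push Not at haC hbC
      have ha' := haC ha
      have hb' := hbC hb
      simp only [Finset.mem_insert, Finset.mem_singleton] at ha' hb'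
      rcases ha' with rfl | rfl | rfl <;> rcases hb' with rfl | rfl | rfl
      · exact hab rfl
      · exact hna hpq
      · exact hna hpr
      · exact hna hpq.symm
      · exact hab rfl
      · exact hna hqr
      · exact hna hpr.symm
      · exact hna hqr.symm
      · exact hab rfl
    have h2 : ∑ w ∈ C, B G x S {w} ∅ ≤ 2 * x ^ 6 := by
      have : ∀ w ∈ C, B G x S {w} ∅ ≤ x ^ 6 := by
        intro w hw
        rw [hC, Finset.mem_sdiff] at hw
        exact BS w (mem_nb.mp hw.1).1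
      refine (Finset.sum_le_sum this).trans ?_
      rw [Finset.sum_const, hCc]; simp
    have h3 := BS v hv
    linarith
  -- the neighbourhood has no triangle and no independent triple
  have htri' : ∀ p q r, p ∈ N → q ∈ N → r ∈ N → G.Adj p q → G.Adj p r → ¬ G.Adj q r := by
    intro p q r hp hq hr hpq hpr hqr
    exact htri ⟨p, q, r, hp, hq, hr, hpq, hpr, hqr⟩
  have hcl : ∀ p q r, p ∈ N → q ∈ N → r ∈ N → p ≠ q → p ≠ r → q ≠ r →
      G.Adj p q ∨ G.Adj p r ∨ G.Adj q r := by
    intro p q r hp hq hr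
    exact hG v p q r (mem_nb.mp hp).2 (mem_nb.mp hq).2 (mem_nb.mp hr).2
  -- inner neighbours and inner non-neighbours
  set P : V → Finset V := fun u => N.filter (fun w => G.Adj u w) with hP
  set Q : V → Finset V := fun u => (N.erase u).filter (fun w => ¬ G.Adj u w) with hQ
  have memP : ∀ u w, w ∈ P u ↔ w ∈ N ∧ G.Adj u w := by intro u w; simp [hP]
  have memQ : ∀ u w, w ∈ Q u ↔ w ≠ u ∧ w ∈ N ∧ ¬ G.Adj u w := by
    intro u w
    simp only [hQ, Finset.mem_filter, Finset.mem_erase]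
    tauto
  have hPle : ∀ u ∈ N, (P u).card ≤ 2 := by
    intro u hu
    by_contra hh
    push Not at hh
    obtain ⟨p, q, r, hp, hq, hr, hpq, hpr, hqr⟩ := Finset.two_lt_card_iff.mp hh
    rw [memP] at hp hq hr
    rcases hcl p q r hp.1 hq.1 hr.1 hpq hpr hqr with h1 | h1 | h1
    · exact htri' u p q hu hp.1 hq.1 hp.2 hq.2 h1
    · exact htri' u p r hu hp.1 hr.1 hp.2 hr.2 h1
    · exact htri' u q r hu hq.1 hr.1 hq.2 hr.2 h1
  have hQle : ∀ u ∈ N, (Q u).card ≤ 2 := by
    intro u hu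
    by_contra hh
    push Not at hh
    obtain ⟨p, q, r, hp, hq, hr, hpq, hpr, hqr⟩ := Finset.two_lt_card_iff.mp hh
    rw [memQ] at hp hq hr
    have h1 : G.Adj p q := by
      rcases hcl u p q hu hp.2.1 hq.2.1 hp.1.symm hq.1.symm hpq with h1 | h1 | h1
      · exact absurd h1 hp.2.2
      · exact absurd h1 hq.2.2
      · exact h1
    have h2 : G.Adj p r := by
      rcases hcl u p r hu hp.2.1 hr.2.1 hp.1.symm hr.1.symm hpr with h1 | h1 | h1
      · exact absurd h1 hp.2.2
      · exact absurd h1 hr.2.2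
      · exact h1
    have h3 : G.Adj q r := by
      rcases hcl u q r hu hq.2.1 hr.2.1 hq.1.symm hr.1.symm hqr with h1 | h1 | h1
      · exact absurd h1 hq.2.2
      · exact absurd h1 hr.2.2
      · exact h1
    exact htri' p q r hp.2.1 hq.2.1 hr.2.1 h1 h2 h3
  have hPQ : ∀ u ∈ N, (P u).card + (Q u).card = 4 := by
    intro u hu
    have e1 : (N.erase u).card = 4 := by rw [Finset.card_erase_of_mem hu]; omega
    have e2 : P u = (N.erase u).filter (fun w => G.Adj u w) := by
      ext w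
      rw [memP, Finset.mem_filter, Finset.mem_erase]
      constructor
      · rintro ⟨h1, h2⟩; exact ⟨⟨h2.ne', h1⟩, h2⟩
      · rintro ⟨⟨_, h1⟩, h2⟩; exact ⟨h1, h2⟩
    rw [e2, ← e1]
    exact Finset.card_filter_add_card_filter_not _
  have hPc : ∀ u ∈ N, (P u).card = 2 := by
    intro u hu; have := hPle u hu; have := hQle u hu; have := hPQ u hu; omega
  have hQc : ∀ u ∈ N, (Q u).card = 2 := by
    intro u hu; have := hPle u hu; have := hQle u hu; have := hPQ u hu; omega
  -- an inner non-neighbour loses two neighbours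
  have hlose : ∀ u ∈ N, ∀ s ∈ Q u, dg G (rem G S {u} ∅) s + 2 ≤ dg G S s := by
    intro u hu s hs
    have hs' := (memQ u s).mp hs
    have huS := (mem_nb.mp hu).1
    have hsS := (mem_nb.mp hs'.2.1).1
    -- a common inner neighbour
    obtain ⟨w, hw1, hw2⟩ : ∃ w ∈ P u, G.Adj s w := by
      by_contra hno
      push Not at hno
      -- then `P s ⊆ Q u \ {s}`
      have hsub : P s ⊆ (Q u).erase s := by
        intro w hw
        have hw' := (memP s w).mp hw
        rw [Finset.mem_erase, memQ]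
        refine ⟨hw'.2.ne', ?_, hw'.1, ?_⟩
        · rintro rfl; exact hs'.2.2 hw'.2.symm
        · intro huw
          exact hno w ((memP u w).mpr ⟨hw'.1, huw⟩) hw'.2
      have := Finset.card_le_card hsub
      rw [Finset.card_erase_of_mem hs, hQc u hu, hPc s hs'.2.1] at this
      omega
    have hw' := (memP u w).mp hw1
    have hvw : v ≠ w := (mem_nb.mp hw'.1).2.ne
    exact dg_rem_two (G := G) (S := S) (u := u) (w := s) (v := v) (v' := w) hvw hv
      (mem_nb.mp hs'.2.1).2.symm (mem_nb.mp hu).2.symm (mem_nb.mp hw'.1).1 hw2 hw'.2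
  have hgain : ∀ u ∈ N, (∃ s ∈ Q u, dg G S s = 5) → B G x S {u} ∅ ≤ 2 * x ^ 10 := by
    intro u hu ⟨s, hs, hds⟩
    have hs' := (memQ u s).mp hs
    apply B6' u (mem_nb.mp hu).1
    refine ⟨s, mem_rem_single (mem_nb.mp hs'.2.1).1 hs'.1 hs'.2.2, ?_⟩
    have := hlose u hu s hs
    omega
  have hhalf := H61DIS.half (G := G) hx0 hv
  have hBv := BS v hv
  have x710 : x ^ 7 ≤ 2 * x ^ 10 := by
    have e : 1 ≤ 2 * x ^ 3 := by
      have : (8194 / 10000 : ℝ) ^ 3 ≤ x ^ 3 := pow_le_pow_left₀ (by norm_num) hxl 3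
      norm_num at this
      linarith
    have hp : 0 ≤ x ^ 7 := by positivity
    calc x ^ 7 = x ^ 7 * 1 := by ring
      _ ≤ x ^ 7 * (2 * x ^ 3) := mul_le_mul_of_nonneg_left e hp
      _ = 2 * x ^ 10 := by ring
  by_cases hI : ∃ u ∈ N, dg G S u = 5 ∧ ∀ s ∈ Q u, dg G S s ≠ 5
  · obtain ⟨u, hu, hdu, huQ⟩ := hI
    -- the five inner vertices
    obtain ⟨s, t, hst, hQu⟩ := Finset.card_eq_two.mp (hQc u hu)
    obtain ⟨p, q, hpq, hPu⟩ := Finset.card_eq_two.mp (hPc u hu)
    have hs : s ∈ Q u := by rw [hQu]; simp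
    have ht : t ∈ Q u := by rw [hQu]; simp
    have hp : p ∈ P u := by rw [hPu]; simp
    have hq : q ∈ P u := by rw [hPu]; simp
    have hs' := (memQ u s).mp hs
    have ht' := (memQ u t).mp ht
    have hp' := (memP u p).mp hp
    have hq' := (memP u q).mp hq
    have hNeq : N = {u, s, t, p, q} := by
      symm
      apply Finset.eq_of_subset_of_card_le
      · intro y hy
        simp only [Finset.mem_insert, Finset.mem_singleton] at hy
        rcases hy with rfl | rfl | rfl | rfl | rfl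
        · exact hu
        · exact hs'.2.1
        · exact ht'.2.1
        · exact hp'.1
        · exact hq'.1
      · rw [hNc, c5 hs'.1.symm ht'.1.symm hp'.2.ne hq'.2.ne hst ?_ ?_ ?_ ?_ hpq]
        · rintro rfl; exact hs'.2.2 hp'.2
        · rintro rfl; exact hs'.2.2 hq'.2
        · rintro rfl; exact ht'.2.2 hp'.2
        · rintro rfl; exact ht'.2.2 hq'.2
    have hsum : ∑ w ∈ N, B G x S {w} ∅ = B G x S {u} ∅ + B G x S {s} ∅ + B G x S {t} ∅ +
        B G x S {p} ∅ + B G x S {q} ∅ := by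
      have n1 : s ≠ p := by rintro rfl; exact hs'.2.2 hp'.2
      have n2 : s ≠ q := by rintro rfl; exact hs'.2.2 hq'.2
      have n3 : t ≠ p := by rintro rfl; exact ht'.2.2 hp'.2
      have n4 : t ≠ q := by rintro rfl; exact ht'.2.2 hq'.2
      rw [hNeq, Finset.sum_insert (by simp [hs'.1.symm, ht'.1.symm, hp'.2.ne, hq'.2.ne]),
        Finset.sum_insert (by simp [hst, n1, n2]), Finset.sum_insert (by simp [n3, n4]),
        Finset.sum_pair hpq]
      ring
    rw [← hN, hsum] at hhalf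
    have hBs : B G x S {s} ∅ ≤ x ^ 7 :=
      B7 s (mem_nb.mp hs'.2.1).1 (by
        have := h5 s (mem_nb.mp hs'.2.1).1
        have := huQ s hs
        omega)
    have hBt : B G x S {t} ∅ ≤ x ^ 7 :=
      B7 t (mem_nb.mp ht'.2.1).1 (by
        have := h5 t (mem_nb.mp ht'.2.1).1
        have := huQ t ht
        omega)
    have hBu := BS u (mem_nb.mp hu).1
    have hBp := BS p (mem_nb.mp hp'.1).1
    have hBq := BS q (mem_nb.mp hq'.1).1
    have hnpq : ¬ G.Adj p q := htri' u p q hu hp'.1 hq'.1 hp'.2 hq'.2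
    by_cases hdp : dg G S p = 5
    · by_cases hdq : dg G S q = 5
      · have g1 := hgain p hp'.1 ⟨q, (memQ p q).mpr ⟨hpq.symm, hq'.1, hnpq⟩, hdq⟩
        have g2 := hgain q hq'.1 ⟨p, (memQ q p).mpr ⟨hpq, hp'.1, fun hh => hnpq hh.symm⟩, hdp⟩
        linarith
      · have g2 := B7 q (mem_nb.mp hq'.1).1 (by
          have := h5 q (mem_nb.mp hq'.1).1; omega)
        linarith
    · have g1 := B7 p (mem_nb.mp hp'.1).1 (by
        have := h5 p (mem_nb.mp hp'.1).1; omega)
      linarith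
  · push Not at hI
    have hall : ∀ w ∈ N, B G x S {w} ∅ ≤ 2 * x ^ 10 := by
      intro w hw
      by_cases hdw : dg G S w = 5
      · obtain ⟨s, hs, hds⟩ := hI w hw hdw
        exact hgain w hw ⟨s, hs, hds⟩
      · have := B7 w (mem_nb.mp hw).1 (by have := h5 w (mem_nb.mp hw).1; omega)
        linarith
    have h2 : ∑ w ∈ N, B G x S {w} ∅ ≤ 5 * (2 * x ^ 10) := by
      refine (Finset.sum_le_sum hall).trans ?_
      rw [Finset.sum_const, hNc]; simp
    rw [← hN] at hhalf
    linarith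

/-- The bound for claw-free graphs. -/
theorem claw_main (hG : ClawFree G) (hxl : 8194 / 10000 ≤ x) (hxu : x ≤ 8195 / 10000)
    (h9 : x ^ 9 = 1 / 6) (S : Finset V) :
    h G x S ≤ 1 ∧ ((∃ v ∈ S, dg G S v ≤ 3) → h G x S ≤ 2 * x ^ 4) := by
  have hx0 : 0 ≤ x := by linarith
  have hx1 : x ≤ 1 := by linarith
  have x4 : x ^ 4 ≤ 4511 / 10000 := (pow_le_pow_left₀ hx0 hxu 4).trans (by norm_num)
  have x5 : x ^ 5 ≤ 3697 / 10000 := (pow_le_pow_left₀ hx0 hxu 5).trans (by norm_num)
  have x6 : x ^ 6 ≤ 3030 / 10000 := (pow_le_pow_left₀ hx0 hxu 6).trans (by norm_num)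
  have x7 : x ^ 7 ≤ 2483 / 10000 := (pow_le_pow_left₀ hx0 hxu 7).trans (by norm_num)
  induction S using Finset.strongInduction with
  | H S ih =>
    have IH1 : ∀ S', S' ⊂ S → h G x S' ≤ 1 := fun S' hS' => (ih S' hS').1
    have IH3 : ∀ S', S' ⊂ S → (∃ v ∈ S', dg G S' v ≤ 3) → h G x S' ≤ 2 * x ^ 4 :=
      fun S' hS' => (ih S' hS').2
    have IH2 : ∀ S', S' ⊂ S → (∃ v ∈ S', dg G S' v ≤ 2) → h G x S' ≤ 2 * x ^ 4 := by
      intro S' hS' ⟨v, hv, hd⟩
      exact IH3 S' hS' ⟨v, hv, by omega⟩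
    have hlow : (∃ v ∈ S, dg G S v ≤ 3) → h G x S ≤ 2 * x ^ 4 :=
      fun hh => claw_low3 hG (by linarith) (by linarith) IH1 IH2 hh
    refine ⟨?_, hlow⟩
    by_cases h3 : ∃ v ∈ S, dg G S v ≤ 3
    · have := hlow h3; linarith
    push Not at h3
    rcases S.eq_empty_or_nonempty with rfl | hne
    · exact h_empty
    obtain ⟨v, hv, hmin⟩ := Finset.exists_min_image S (fun w => dg G S w) hne
    have hd4 := h3 v hv
    by_cases h4 : dg G S v = 4
    · exact claw_min4 hG (by linarith) (by linarith) (by linarith) (by linarith)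
        (by rw [h9]; norm_num) IH1 IH3 (fun w hw => h3 w hw) hv h4
    by_cases h5 : dg G S v = 5
    · exact claw_min5 hG hxl hxu h9 IH1 IH3
        (fun w hw => by have := hmin w hw; omega) hv h5
    · refine (big hx0 hx1 IH1 hv hmin).trans ?_
      exact big_num hx0 (by linarith) (by linarith) _ (by omega)

end

end H61DIS
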