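import Mathlib

/-!
# Definitions: 2-dominating independent sets
-/

namespace H61DIS

/-- `D` is a 2-dominating independent set of `G`: it is independent and every vertex outside `D`
has at least two neighbours in `D`. -/
def IsTwoDIS {V : Type*} (G : SimpleGraph V) (D : Set V) : Prop :=
  (∀ u ∈ D, ∀ v ∈ D, ¬ G.Adj u v) ∧ ∀ v, v ∉ D → 2 ≤ (G.neighborSet v ∩ D).ncard

/-- The number of 2-dominating independent sets of `G`. -/
noncomputable def mi2 {V : Type*} (G : SimpleGraph V) : ℕ := {D : Set V | IsTwoDIS G D}.ncard

end H61DIS
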