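import Pool.Agent.H61DIS.Low

/-!
# Neighbourhoods of four vertices
-/

open Finset Classical

namespace H61DIS

noncomputable section

variable {V : Type*} {G : SimpleGraph V}

/-- `a, b, c, d` are the four neighbours of `v` in `S`. -/
structure N4 (G : SimpleGraph V) (S : Finset V) (v a b c d : V) : Prop where
  hv : v ∈ S
  ha : a ∈ nb G S v
  hb : b ∈ nb G S v
  hc : c ∈ nb G S v
  hd : d ∈ nb G S v
  ab : a ≠ b
  ac : a ≠ c
  ad : a ≠ d
  bc : b ≠ c
  bd : b ≠ d
  cd : c ≠ d
  all : ∀ w ∈ nb G S v, w = a ∨ w = b ∨ w = c ∨ w = d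

theorem N4.s12 {S : Finset V} {v a b c d : V} (E : N4 G S v a b c d) : N4 G S v b a c d :=
  ⟨E.hv, E.hb, E.ha, E.hc, E.hd, E.ab.symm, E.bc, E.bd, E.ac, E.ad, E.cd,
    fun w hw => by rcases E.all w hw with h | h | h | h <;> tauto⟩

theorem N4.s23 {S : Finset V} {v a b c d : V} (E : N4 G S v a b c d) : N4 G S v a c b d :=
  ⟨E.hv, E.ha, E.hc, E.hb, E.hd, E.ac, E.ab, E.ad, E.bc.symm, E.cd, E.bd,
    fun w hw => by rcases E.all w hw with h | h | h | h <;> tauto⟩

theorem N4.s34 {S : Finset V} {v a b c d : V} (E : N4 G S v a b c d) : N4 G S v a b d c :=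
  ⟨E.hv, E.ha, E.hb, E.hd, E.hc, E.ab, E.ad, E.ac, E.bd, E.bc, E.cd.symm,
    fun w hw => by rcases E.all w hw with h | h | h | h <;> tauto⟩

theorem N4.exists {S : Finset V} {v : V} (hv : v ∈ S) (hd : dg G S v = 4) :
    ∃ a b c d, N4 G S v a b c d := by
  unfold dg at hd
  obtain ⟨a, ha⟩ : (nb G S v).Nonempty := Finset.card_pos.mp (by omega)
  have h3 : ((nb G S v).erase a).card = 3 := by rw [Finset.card_erase_of_mem ha]; omega
  obtain ⟨b, c, d, hbc, hbd, hcd, he⟩ := Finset.card_eq_three.mp h3
  have hb : b ∈ (nb G S v).erase a := by rw [he]; simp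
  have hc : c ∈ (nb G S v).erase a := by rw [he]; simp
  have hd' : d ∈ (nb G S v).erase a := by rw [he]; simp
  rw [Finset.mem_erase] at hb hc hd'
  refine ⟨a, b, c, d, hv, ha, hb.2, hc.2, hd'.2, hb.1.symm, hc.1.symm, hd'.1.symm, hbc, hbd,
    hcd, ?_⟩
  intro w hw
  by_cases hwa : w = a
  · exact Or.inl hwa
  · right
    have : w ∈ (nb G S v).erase a := Finset.mem_erase.mpr ⟨hwa, hw⟩
    rw [he] at this
    simpa using this

variable {S : Finset V} {v a b c d : V} {x : ℝ}

theorem N4.aS (E : N4 G S v a b c d) : a ∈ S := (mem_nb.mp E.ha).1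
theorem N4.bS (E : N4 G S v a b c d) : b ∈ S := (mem_nb.mp E.hb).1
theorem N4.cS (E : N4 G S v a b c d) : c ∈ S := (mem_nb.mp E.hc).1
theorem N4.dS (E : N4 G S v a b c d) : d ∈ S := (mem_nb.mp E.hd).1
theorem N4.va (E : N4 G S v a b c d) : G.Adj v a := (mem_nb.mp E.ha).2
theorem N4.vb (E : N4 G S v a b c d) : G.Adj v b := (mem_nb.mp E.hb).2
theorem N4.vc (E : N4 G S v a b c d) : G.Adj v c := (mem_nb.mp E.hc).2
theorem N4.vd (E : N4 G S v a b c d) : G.Adj v d := (mem_nb.mp E.hd).2

theorem N4.nb_eq (E : N4 G S v a b c d) : nb G S v = {a, b, c, d} := by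
  ext w
  simp only [Finset.mem_insert, Finset.mem_singleton]
  constructor
  · exact E.all w
  · rintro (rfl | rfl | rfl | rfl)
    · exact E.ha
    · exact E.hb
    · exact E.hc
    · exact E.hd

theorem N4.dg_eq (E : N4 G S v a b c d) : dg G S v = 4 := by
  unfold dg
  rw [E.nb_eq, c4 E.ab E.ac E.ad E.bc E.bd E.cd]

theorem N4.sum (E : N4 G S v a b c d) (f : V → ℝ) :
    ∑ u ∈ nb G S v, f u = f a + f b + f c + f d := by
  rw [E.nb_eq, Finset.sum_insert (by simp [E.ab, E.ac, E.ad]),
    Finset.sum_insert (by simp [E.bc, E.bd]), Finset.sum_pair E.cd]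
  ring

theorem N4.half (E : N4 G S v a b c d) (hx0 : 0 ≤ x) :
    h G x S ≤ B G x S {v} ∅ + (1 / 2) * (B G x S {a} ∅ + B G x S {b} ∅ + B G x S {c} ∅ +
      B G x S {d} ∅) := by
  have := H61DIS.half (G := G) hx0 E.hv
  rwa [E.sum] at this

/-- Case analysis of the pair given by `two_of`. -/
theorem N4.pair (E : N4 G S v a b c d) {D : Finset V} (hD : D ∈ dis G S) (hvD : v ∉ D) :
    (a ∈ D ∧ b ∈ D ∧ ¬ G.Adj a b) ∨ (a ∈ D ∧ c ∈ D ∧ ¬ G.Adj a c) ∨
    (a ∈ D ∧ d ∈ D ∧ ¬ G.Adj a d) ∨ (b ∈ D ∧ c ∈ D ∧ ¬ G.Adj b c) ∨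
    (b ∈ D ∧ d ∈ D ∧ ¬ G.Adj b d) ∨ (c ∈ D ∧ d ∈ D ∧ ¬ G.Adj c d) := by
  obtain ⟨p, q, hp, hq, hpq, hpD, hqD, hna⟩ := two_of hD E.hv hvD
  have hna' : ¬ G.Adj q p := fun hh => hna hh.symm
  rcases E.all p hp with rfl | rfl | rfl | rfl <;> rcases E.all q hq with rfl | rfl | rfl | rfl <;>
    first | exact absurd rfl hpq | tauto

/-- A pair of adjacent neighbours: one of the other two is chosen. -/
theorem N4.sum_clique (E : N4 G S v a b c d) (hx0 : 0 ≤ x) (hcd : G.Adj c d) :
    h G x S ≤ B G x S {v} ∅ + B G x S {a} ∅ + B G x S {b} ∅ := by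
  apply cover3 hx0
  intro D hD
  by_cases hvD : v ∈ D
  · left; exact ⟨by simpa using hvD, by simp⟩
  · right
    rcases E.pair hD hvD with h1 | h1 | h1 | h1 | h1 | h1
    · left; exact ⟨by simpa using h1.1, by simp⟩
    · left; exact ⟨by simpa using h1.1, by simp⟩
    · left; exact ⟨by simpa using h1.1, by simp⟩
    · right; exact ⟨by simpa using h1.1, by simp⟩
    · right; exact ⟨by simpa using h1.1, by simp⟩
    · exact absurd hcd h1.2.2

/-- Three mutually adjacent neighbours. -/
theorem N4.clique3 (E : N4 G S v a b c d) (hx0 : 0 ≤ x) (hbc : G.Adj b c) (hbd : G.Adj b d)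
    (hcd : G.Adj c d) : h G x S ≤ B G x S {v} ∅ + B G x S {a} ∅ := by
  apply cover2 hx0
  intro D hD
  by_cases hvD : v ∈ D
  · left; exact ⟨by simpa using hvD, by simp⟩
  · right
    rcases E.pair hD hvD with h1 | h1 | h1 | h1 | h1 | h1
    · exact ⟨by simpa using h1.1, by simp⟩
    · exact ⟨by simpa using h1.1, by simp⟩
    · exact ⟨by simpa using h1.1, by simp⟩
    · exact absurd hbc h1.2.2
    · exact absurd hbd h1.2.2
    · exact absurd hcd h1.2.2

/-- The removed set of a pair of nonadjacent neighbours. -/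
theorem N4.blk (E : N4 G S v a b c d) {p q : V}
    (hp : p = a ∨ p = b ∨ p = c ∨ p = d)
    (hall : ∀ w, w = a ∨ w = b ∨ w = c ∨ w = d → w = p ∨ w = q ∨ G.Adj p w ∨ G.Adj q w)
    {W : Finset V} (hW : W ⊆ S)
    (hW2 : ∀ w ∈ W, w ≠ v ∧ w ≠ a ∧ w ≠ b ∧ w ≠ c ∧ w ≠ d ∧ (G.Adj p w ∨ G.Adj q w)) :
    5 + W.card + (rem G S {p, q} ∅).card ≤ S.card := by
  have hdis : Disjoint ({v, a, b, c, d} : Finset V) W := by
    rw [Finset.disjoint_left]
    intro y hy hyW
    obtain ⟨h1, h2, h3, h4, h5, -⟩ := hW2 y hyW
    simp only [Finset.mem_insert, Finset.mem_singleton] at hy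
    rcases hy with rfl | rfl | rfl | rfl | rfl
    · exact h1 rfl
    · exact h2 rfl
    · exact h3 rfl
    · exact h4 rfl
    · exact h5 rfl
  have hc : (({v, a, b, c, d} : Finset V) ∪ W).card = 5 + W.card := by
    rw [Finset.card_union_of_disjoint hdis,
      c5 E.va.ne E.vb.ne E.vc.ne E.vd.ne E.ab E.ac E.ad E.bc E.bd E.cd]
  rw [← hc]
  apply card_blocked
  · apply Finset.union_subset
    · intro y hy
      simp only [Finset.mem_insert, Finset.mem_singleton] at hy
      rcases hy with rfl | rfl | rfl | rfl | rfl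
      · exact E.hv
      · exact E.aS
      · exact E.bS
      · exact E.cS
      · exact E.dS
    · exact hW
  · intro y hy
    rw [Finset.mem_union] at hy
    rcases hy with hy | hy
    · simp only [Finset.mem_insert, Finset.mem_singleton] at hy
      rcases hy with rfl | hy
      · apply not_mem_rem_of_adj (t := p) (by simp)
        rcases hp with rfl | rfl | rfl | rfl
        · exact E.va.symm
        · exact E.vb.symm
        · exact E.vc.symm
        · exact E.vd.symm
      · rcases hall y hy with rfl | rfl | h1 | h1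
        · exact not_mem_rem_of_mem (by simp)
        · exact not_mem_rem_of_mem (by simp)
        · exact not_mem_rem_of_adj (t := p) (by simp) h1
        · exact not_mem_rem_of_adj (t := q) (by simp) h1
    · rcases (hW2 y hy).2.2.2.2.2 with h1 | h1
      · exact not_mem_rem_of_adj (t := p) (by simp) h1
      · exact not_mem_rem_of_adj (t := q) (by simp) h1

/-- `N(v)` is the 4-cycle `a b c d`. -/
theorem N4.cycle (E : N4 G S v a b c d) (hx0 : 0 ≤ x) (hx1 : x ≤ 1)
    (IH1 : ∀ S', S' ⊂ S → h G x S' ≤ 1) (h4 : ∀ w ∈ S, 4 ≤ dg G S w)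
    (hab : G.Adj a b) (hbc : G.Adj b c) (hcd : G.Adj c d) (hda : G.Adj d a) :
    h G x S ≤ x ^ 5 + 2 * x ^ 6 := by
  by_cases hac : G.Adj a c
  · -- then only `b, d` may be nonadjacent
    have h1 : h G x S ≤ B G x S {v} ∅ + B G x S {b} ∅ := by
      apply E.s12.clique3 hx0 hac hda.symm hcd
    have h2 : B G x S {v} ∅ ≤ 1 * x ^ 5 :=
      B_single hx0 hx1 E.hv (by norm_num) (IH1 _ (rem_ssubset E.hv (by simp)))
        (by rw [E.dg_eq])
    have h3 : B G x S {b} ∅ ≤ 1 * x ^ 5 :=
      B_single hx0 hx1 E.bS (by norm_num) (IH1 _ (rem_ssubset E.bS (by simp)))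
        (by have := h4 b E.bS; omega)
    have h5 : B G x S {b} ∅ ≤ 1 * x ^ 5 := h3
    -- `x ^ 5 ≤ 2 x ^ 6` is false in general, so argue again with three branches
    have h6 : h G x S ≤ B G x S {v} ∅ + B G x S {b, d} ∅ := by
      apply cover2 hx0
      intro D hD
      by_cases hvD : v ∈ D
      · left; exact ⟨by simpa using hvD, by simp⟩
      · right
        rcases E.pair hD hvD with h1 | h1 | h1 | h1 | h1 | h1
        · exact absurd hab h1.2.2
        · exact absurd hac h1.2.2
        · exact absurd hda.symm h1.2.2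
        · exact absurd hbc h1.2.2
        · refine ⟨?_, by simp⟩
          intro w hw
          simp only [Finset.mem_insert, Finset.mem_singleton] at hw
          rcases hw with rfl | rfl
          · exact h1.1
          · exact h1.2.1
        · exact absurd hcd h1.2.2
    have h7 : B G x S {b, d} ∅ ≤ 1 * x ^ 5 := by
      apply B_le hx0 hx1 (IH1 _ (rem_ssubset E.bS (by simp)))
      have := E.blk (p := b) (q := d) (by tauto) (by
        rintro w (rfl | rfl | rfl | rfl)
        · exact Or.inr (Or.inr (Or.inl hab.symm))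
        · exact Or.inl rfl
        · exact Or.inr (Or.inr (Or.inl hbc))
        · exact Or.inr (Or.inl rfl)) (W := ∅) (by simp) (by simp)
      simpa using this
    by_cases hbd : G.Adj b d
    · have h8 : h G x S ≤ B G x S {v} ∅ := by
        apply cover1 hx0
        intro D hD
        refine ⟨?_, by simp⟩
        by_contra hvD
        have hvD' : v ∉ D := by simpa using hvD
        rcases E.pair hD hvD' with h1 | h1 | h1 | h1 | h1 | h1
        · exact h1.2.2 hab
        · exact h1.2.2 hac
        · exact h1.2.2 hda.symm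
        · exact h1.2.2 hbc
        · exact h1.2.2 hbd
        · exact h1.2.2 hcd
      have : (0 : ℝ) ≤ x ^ 6 := by positivity
      linarith
    · -- `b` has a neighbour outside
      have hWc : 1 ≤ ((((nb G S b).erase v).erase a).erase c).card := by
        have hb4 := h4 b E.bS
        unfold dg at hb4
        have e1 := Finset.pred_card_le_card_erase (s := nb G S b) (a := v)
        have e2 := Finset.pred_card_le_card_erase (s := (nb G S b).erase v) (a := a)
        have e3 := Finset.pred_card_le_card_erase (s := ((nb G S b).erase v).erase a) (a := c)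
        omega
      have h9 : B G x S {b, d} ∅ ≤ 1 * x ^ 6 := by
        apply B_le hx0 hx1 (IH1 _ (rem_ssubset E.bS (by simp)))
        have := E.blk (p := b) (q := d) (by tauto) (by
          rintro w (rfl | rfl | rfl | rfl)
          · exact Or.inr (Or.inr (Or.inl hab.symm))
          · exact Or.inl rfl
          · exact Or.inr (Or.inr (Or.inl hbc))
          · exact Or.inr (Or.inl rfl)) (W := (((nb G S b).erase v).erase a).erase c) (by
            intro w hw
            simp only [Finset.mem_erase, mem_nb] at hw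
            exact hw.2.2.2.1) (by
            intro w hw
            simp only [Finset.mem_erase, mem_nb] at hw
            obtain ⟨k1, k2, k3, k4, k5⟩ := hw
            refine ⟨k3, k2, k5.ne', k1, ?_, Or.inl k5⟩
            rintro rfl
            exact hbd k5)
        omega
      have : (0 : ℝ) ≤ x ^ 6 := by positivity
      linarith
  -- `a, c` nonadjacent
  have hWa : 1 ≤ ((((nb G S a).erase v).erase b).erase d).card := by
    have ha4 := h4 a E.aS
    unfold dg at ha4
    have e1 := Finset.pred_card_le_card_erase (s := nb G S a) (a := v)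
    have e2 := Finset.pred_card_le_card_erase (s := (nb G S a).erase v) (a := b)
    have e3 := Finset.pred_card_le_card_erase (s := ((nb G S a).erase v).erase b) (a := d)
    omega
  have h2 : B G x S {v} ∅ ≤ 1 * x ^ 5 :=
    B_single hx0 hx1 E.hv (by norm_num) (IH1 _ (rem_ssubset E.hv (by simp)))
      (by rw [E.dg_eq])
  have h3 : B G x S {a, c} ∅ ≤ 1 * x ^ 6 := by
    apply B_le hx0 hx1 (IH1 _ (rem_ssubset E.aS (by simp)))
    have := E.blk (p := a) (q := c) (by tauto) (by
      rintro w (rfl | rfl | rfl | rfl)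
      · exact Or.inl rfl
      · exact Or.inr (Or.inr (Or.inl hab))
      · exact Or.inr (Or.inl rfl)
      · exact Or.inr (Or.inr (Or.inl hda.symm)))
      (W := (((nb G S a).erase v).erase b).erase d) (by
        intro w hw
        simp only [Finset.mem_erase, mem_nb] at hw
        exact hw.2.2.2.1) (by
        intro w hw
        simp only [Finset.mem_erase, mem_nb] at hw
        obtain ⟨k1, k2, k3, k4, k5⟩ := hw
        refine ⟨k3, k5.ne', k2, ?_, k1, Or.inl k5⟩
        rintro rfl
        exact hac k5)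
    omega
  by_cases hbd : G.Adj b d
  · have h1 : h G x S ≤ B G x S {v} ∅ + B G x S {a, c} ∅ := by
      apply cover2 hx0
      intro D hD
      by_cases hvD : v ∈ D
      · left; exact ⟨by simpa using hvD, by simp⟩
      · right
        rcases E.pair hD hvD with h1 | h1 | h1 | h1 | h1 | h1
        · exact absurd hab h1.2.2
        · refine ⟨?_, by simp⟩
          intro w hw
          simp only [Finset.mem_insert, Finset.mem_singleton] at hw
          rcases hw with rfl | rfl
          · exact h1.1
          · exact h1.2.1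
        · exact absurd hda.symm h1.2.2
        · exact absurd hbc h1.2.2
        · exact absurd hbd h1.2.2
        · exact absurd hcd h1.2.2
    have : (0 : ℝ) ≤ x ^ 6 := by positivity
    linarith
  have hWb : 1 ≤ ((((nb G S b).erase v).erase a).erase c).card := by
    have hb4 := h4 b E.bS
    unfold dg at hb4
    have e1 := Finset.pred_card_le_card_erase (s := nb G S b) (a := v)
    have e2 := Finset.pred_card_le_card_erase (s := (nb G S b).erase v) (a := a)
    have e3 := Finset.pred_card_le_card_erase (s := ((nb G S b).erase v).erase a) (a := c)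
    omega
  have h4' : B G x S {b, d} ∅ ≤ 1 * x ^ 6 := by
    apply B_le hx0 hx1 (IH1 _ (rem_ssubset E.bS (by simp)))
    have := E.blk (p := b) (q := d) (by tauto) (by
      rintro w (rfl | rfl | rfl | rfl)
      · exact Or.inr (Or.inr (Or.inl hab.symm))
      · exact Or.inl rfl
      · exact Or.inr (Or.inr (Or.inl hbc))
      · exact Or.inr (Or.inl rfl)) (W := (((nb G S b).erase v).erase a).erase c) (by
        intro w hw
        simp only [Finset.mem_erase, mem_nb] at hw
        exact hw.2.2.2.1) (by
        intro w hw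
        simp only [Finset.mem_erase, mem_nb] at hw
        obtain ⟨k1, k2, k3, k4, k5⟩ := hw
        refine ⟨k3, k2, k5.ne', k1, ?_, Or.inl k5⟩
        rintro rfl
        exact hbd k5)
    omega
  have h1 : h G x S ≤ B G x S {v} ∅ + B G x S {a, c} ∅ + B G x S {b, d} ∅ := by
    apply cover3 hx0
    intro D hD
    by_cases hvD : v ∈ D
    · left; exact ⟨by simpa using hvD, by simp⟩
    · right
      rcases E.pair hD hvD with h1 | h1 | h1 | h1 | h1 | h1
      · exact absurd hab h1.2.2
      · left
        refine ⟨?_, by simp⟩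
        intro w hw
        simp only [Finset.mem_insert, Finset.mem_singleton] at hw
        rcases hw with rfl | rfl
        · exact h1.1
        · exact h1.2.1
      · exact absurd hda.symm h1.2.2
      · exact absurd hbc h1.2.2
      · right
        refine ⟨?_, by simp⟩
        intro w hw
        simp only [Finset.mem_insert, Finset.mem_singleton] at hw
        rcases hw with rfl | rfl
        · exact h1.1
        · exact h1.2.1
      · exact absurd hcd h1.2.2
  linarith

/-- `N(v)` is the path `a b c d`. -/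
theorem N4.path (E : N4 G S v a b c d) (hx0 : 0 ≤ x) (hx1 : x ≤ 1)
    (IH1 : ∀ S', S' ⊂ S → h G x S' ≤ 1) (h4 : ∀ w ∈ S, 4 ≤ dg G S w)
    (hab : G.Adj a b) (hbc : G.Adj b c) (hcd : G.Adj c d)
    (hbd : ¬ G.Adj b d) (had : ¬ G.Adj a d) :
    h G x S ≤ 2 * x ^ 5 + x ^ 7 := by
  have h2 : B G x S {v} ∅ ≤ 1 * x ^ 5 :=
    B_single hx0 hx1 E.hv (by norm_num) (IH1 _ (rem_ssubset E.hv (by simp)))
      (by rw [E.dg_eq])
  have h3 : B G x S {a} ∅ ≤ 1 * x ^ 5 :=
    B_single hx0 hx1 E.aS (by norm_num) (IH1 _ (rem_ssubset E.aS (by simp)))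
      (by have := h4 a E.aS; omega)
  have hWc : 2 ≤ (((nb G S d).erase v).erase c).card := by
    have hd4 := h4 d E.dS
    unfold dg at hd4
    have e1 := Finset.pred_card_le_card_erase (s := nb G S d) (a := v)
    have e2 := Finset.pred_card_le_card_erase (s := (nb G S d).erase v) (a := c)
    omega
  have h5 : B G x S {b, d} ∅ ≤ 1 * x ^ 7 := by
    apply B_le hx0 hx1 (IH1 _ (rem_ssubset E.bS (by simp)))
    have := E.blk (p := b) (q := d) (by tauto) (by
      rintro w (rfl | rfl | rfl | rfl)
      · exact Or.inr (Or.inr (Or.inl hab.symm))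
      · exact Or.inl rfl
      · exact Or.inr (Or.inr (Or.inl hbc))
      · exact Or.inr (Or.inl rfl)) (W := ((nb G S d).erase v).erase c) (by
        intro w hw
        simp only [Finset.mem_erase, mem_nb] at hw
        exact hw.2.2.1) (by
        intro w hw
        simp only [Finset.mem_erase, mem_nb] at hw
        obtain ⟨k1, k2, k3, k4⟩ := hw
        refine ⟨k2, ?_, ?_, k1, k4.ne', Or.inr k4⟩
        · rintro rfl
          exact had k4.symm
        · rintro rfl
          exact hbd k4.symm)
    omega
  have h1 : h G x S ≤ B G x S {v} ∅ + B G x S {a} ∅ + B G x S {b, d} ∅ := by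
    apply cover3 hx0
    intro D hD
    by_cases hvD : v ∈ D
    · left; exact ⟨by simpa using hvD, by simp⟩
    · right
      rcases E.pair hD hvD with h1 | h1 | h1 | h1 | h1 | h1
      · exact absurd hab h1.2.2
      · left; exact ⟨by simpa using h1.1, by simp⟩
      · left; exact ⟨by simpa using h1.1, by simp⟩
      · exact absurd hbc h1.2.2
      · right
        refine ⟨?_, by simp⟩
        intro w hw
        simp only [Finset.mem_insert, Finset.mem_singleton] at hw
        rcases hw with rfl | rfl
        · exact h1.1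
        · exact h1.2.1
      · exact absurd hcd h1.2.2
  linarith

end

end H61DIS
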