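import Pool.Agent.H61DIS.Claw2

/-!
# All graphs: a vertex of degree three
-/

open Finset Classical

namespace H61DIS

noncomputable section

variable {V : Type*} {G : SimpleGraph V} {S : Finset V} {x : ℝ}

/-- `a, b, c` are the three neighbours of `v` in `S`. -/
structure N3 (G : SimpleGraph V) (S : Finset V) (v a b c : V) : Prop where
  hv : v ∈ S
  ha : a ∈ nb G S v
  hb : b ∈ nb G S v
  hc : c ∈ nb G S v
  ab : a ≠ b
  ac : a ≠ c
  bc : b ≠ c
  all : ∀ w ∈ nb G S v, w = a ∨ w = b ∨ w = c

theorem N3.s12 {v a b c : V} (E : N3 G S v a b c) : N3 G S v b a c :=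
  ⟨E.hv, E.hb, E.ha, E.hc, E.ab.symm, E.bc, E.ac,
    fun w hw => by rcases E.all w hw with h | h | h <;> tauto⟩

theorem N3.s23 {v a b c : V} (E : N3 G S v a b c) : N3 G S v a c b :=
  ⟨E.hv, E.ha, E.hc, E.hb, E.ac, E.ab, E.bc.symm,
    fun w hw => by rcases E.all w hw with h | h | h <;> tauto⟩

theorem N3.exists {v : V} (hv : v ∈ S) (hd : dg G S v = 3) :
    ∃ a b c, N3 G S v a b c := by
  obtain ⟨a, b, c, hab, hac, hbc, hN⟩ := Finset.card_eq_three.mp hd
  exact ⟨a, b, c, hv, by rw [hN]; simp, by rw [hN]; simp, by rw [hN]; simp, hab, hac, hbc,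
    fun w hw => by rw [hN] at hw; simpa using hw⟩

section
variable {v a b c : V}
theorem N3.aS (E : N3 G S v a b c) : a ∈ S := (mem_nb.mp E.ha).1
theorem N3.bS (E : N3 G S v a b c) : b ∈ S := (mem_nb.mp E.hb).1
theorem N3.cS (E : N3 G S v a b c) : c ∈ S := (mem_nb.mp E.hc).1
theorem N3.va (E : N3 G S v a b c) : G.Adj v a := (mem_nb.mp E.ha).2
theorem N3.vb (E : N3 G S v a b c) : G.Adj v b := (mem_nb.mp E.hb).2
theorem N3.vc (E : N3 G S v a b c) : G.Adj v c := (mem_nb.mp E.hc).2

theorem N3.nb_eq (E : N3 G S v a b c) : nb G S v = {a, b, c} := by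
  ext w
  simp only [Finset.mem_insert, Finset.mem_singleton]
  constructor
  · exact E.all w
  · rintro (rfl | rfl | rfl)
    · exact E.ha
    · exact E.hb
    · exact E.hc

theorem N3.dg_eq (E : N3 G S v a b c) : dg G S v = 3 := by
  unfold dg
  rw [E.nb_eq, c3 E.ab E.ac E.bc]

theorem N3.half (E : N3 G S v a b c) (hx0 : 0 ≤ x) :
    h G x S ≤ B G x S {v} ∅ + (1 / 2) * (B G x S {a} ∅ + B G x S {b} ∅ + B G x S {c} ∅) := by
  have := H61DIS.half (G := G) hx0 E.hv
  rwa [E.nb_eq, Finset.sum_insert (by simp [E.ab, E.ac]), Finset.sum_pair E.bc, ← add_assoc]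
    at this

theorem N3.pair (E : N3 G S v a b c) {D : Finset V} (hD : D ∈ dis G S) (hvD : v ∉ D) :
    (a ∈ D ∧ b ∈ D ∧ ¬ G.Adj a b) ∨ (a ∈ D ∧ c ∈ D ∧ ¬ G.Adj a c) ∨
    (b ∈ D ∧ c ∈ D ∧ ¬ G.Adj b c) := by
  obtain ⟨p, q, hp, hq, hpq, hpD, hqD, hna⟩ := two_of hD E.hv hvD
  have hna' : ¬ G.Adj q p := fun hh => hna hh.symm
  rcases E.all p hp with rfl | rfl | rfl <;> rcases E.all q hq with rfl | rfl | rfl <;>
    first | exact absurd rfl hpq | tauto

/-- An adjacent pair of neighbours. -/
theorem N3.adj (E : N3 G S v a b c) (hx0 : 0 ≤ x) (hx1 : x ≤ 1)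
    (IH1 : ∀ S', S' ⊂ S → h G x S' ≤ 1) (h3 : ∀ w ∈ S, 3 ≤ dg G S w) (hab : G.Adj a b) :
    h G x S ≤ 2 * x ^ 4 := by
  have h1 : h G x S ≤ B G x S {v} ∅ + B G x S {c} ∅ := by
    apply cover2 hx0
    intro D hD
    by_cases hvD : v ∈ D
    · left; exact ⟨by simpa using hvD, by simp⟩
    · right
      rcases E.pair hD hvD with h1 | h1 | h1
      · exact absurd hab h1.2.2
      · exact ⟨by simpa using h1.2.1, by simp⟩
      · exact ⟨by simpa using h1.2.1, by simp⟩
  have h2 : B G x S {v} ∅ ≤ 1 * x ^ 4 :=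
    B_single hx0 hx1 E.hv (by norm_num) (IH1 _ (rem_ssubset E.hv (by simp)))
      (by rw [E.dg_eq])
  have h4 : B G x S {c} ∅ ≤ 1 * x ^ 4 :=
    B_single hx0 hx1 E.cS (by norm_num) (IH1 _ (rem_ssubset E.cS (by simp)))
      (by have := h3 c E.cS; omega)
  linarith

/-- The split `v | b | (a, c, not b)`, with at least `k` further removed vertices. -/
theorem N3.split (E : N3 G S v a b c) (hx0 : 0 ≤ x) (hx1 : x ≤ 1)
    (IH1 : ∀ S', S' ⊂ S → h G x S' ≤ 1)
    (hab : ¬ G.Adj a b) (hac : ¬ G.Adj a c) (hbc : ¬ G.Adj b c) {W : Finset V} (hW : W ⊆ S)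
    (hW2 : ∀ w ∈ W, w ≠ v ∧ (G.Adj a w ∨ G.Adj c w)) {k : ℕ} (hk : k ≤ W.card + 4) :
    h G x S ≤ B G x S {v} ∅ + B G x S {b} ∅ + x ^ k := by
  have h1 : h G x S ≤ B G x S {v} ∅ + B G x S {b} ∅ + B G x S {a, c} {b} := by
    apply cover3 hx0
    intro D hD
    by_cases hvD : v ∈ D
    · left; exact ⟨by simpa using hvD, by simp⟩
    · right
      by_cases hbD : b ∈ D
      · left; exact ⟨by simpa using hbD, by simp⟩
      · right
        rcases E.pair hD hvD with h1 | h1 | h1
        · exact absurd h1.2.1 hbD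
        · refine ⟨?_, by simpa using hbD⟩
          intro w hw
          simp only [Finset.mem_insert, Finset.mem_singleton] at hw
          rcases hw with rfl | rfl
          · exact h1.1
          · exact h1.2.1
        · exact absurd h1.1 hbD
  have h2 : B G x S {a, c} {b} ≤ 1 * x ^ k := by
    apply B_le hx0 hx1 (IH1 _ (rem_ssubset E.aS (by simp)))
    have hdis : Disjoint ({v, a, b, c} : Finset V) W := by
      rw [Finset.disjoint_left]
      intro y hy hyW
      obtain ⟨k1, k2⟩ := hW2 y hyW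
      simp only [Finset.mem_insert, Finset.mem_singleton] at hy
      rcases hy with rfl | rfl | rfl | rfl
      · exact k1 rfl
      · rcases k2 with hh | hh
        · exact G.irrefl hh
        · exact hac hh.symm
      · rcases k2 with hh | hh
        · exact hab hh
        · exact hbc hh.symm
      · rcases k2 with hh | hh
        · exact hac hh
        · exact G.irrefl hh
    have hc : (({v, a, b, c} : Finset V) ∪ W).card = 4 + W.card := by
      rw [Finset.card_union_of_disjoint hdis, c4 E.va.ne E.vb.ne E.vc.ne E.ab E.ac E.bc]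
    have := card_blocked (G := G) (S := S) (T := {a, c}) (R := {b})
      (U := ({v, a, b, c} : Finset V) ∪ W) (by
        apply Finset.union_subset _ hW
        intro y hy
        simp only [Finset.mem_insert, Finset.mem_singleton] at hy
        rcases hy with rfl | rfl | rfl | rfl
        · exact E.hv
        · exact E.aS
        · exact E.bS
        · exact E.cS) (by
        intro y hy
        rw [Finset.mem_union] at hy
        rcases hy with hy | hy
        · simp only [Finset.mem_insert, Finset.mem_singleton] at hy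
          rcases hy with rfl | rfl | rfl | rfl
          · exact not_mem_rem_of_adj (t := a) (by simp) E.va.symm
          · exact not_mem_rem_of_mem (by simp)
          · exact not_mem_rem_of_mem' (by simp)
          · exact not_mem_rem_of_mem (by simp)
        · rcases (hW2 y hy).2 with hh | hh
          · exact not_mem_rem_of_adj (t := a) (by simp) hh
          · exact not_mem_rem_of_adj (t := c) (by simp) hh)
    omega
  linarith

end

/-- Minimum degree three. -/
theorem gen_min3 (hxl : 8115 / 10000 ≤ x) (hxu : x ≤ 8116 / 10000) {K : ℝ}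
    (hK : 9420 / 10000 ≤ K)
    (IH1 : ∀ S', S' ⊂ S → h G x S' ≤ 1)
    (IH2 : ∀ S', S' ⊂ S → (∃ v ∈ S', dg G S' v ≤ 2) → h G x S' ≤ 2 * x ^ 4)
    (IH0 : ∀ S', S' ⊂ S → (∃ v ∈ S', dg G S' v ≤ 1) → h G x S' ≤ x)
    (h3 : ∀ w ∈ S, 3 ≤ dg G S w) {v : V} (hv : v ∈ S) (hdv : dg G S v = 3) :
    h G x S ≤ K := by
  have hx0 : 0 ≤ x := by linarith
  have hx1 : x ≤ 1 := by linarith
  have x4 : x ^ 4 ≤ 4339 / 10000 := (pow_le_pow_left₀ hx0 hxu 4).trans (by norm_num)
  have x5 : x ^ 5 ≤ 3522 / 10000 := (pow_le_pow_left₀ hx0 hxu 5).trans (by norm_num)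
  have x6 : x ^ 6 ≤ 2858 / 10000 := (pow_le_pow_left₀ hx0 hxu 6).trans (by norm_num)
  have x8 : x ^ 8 ≤ 18826 / 100000 := by
    refine (pow_le_pow_left₀ hx0 hxu 8).trans ?_
    norm_num
  have x9 : x ^ 9 ≤ 1528 / 10000 := (pow_le_pow_left₀ hx0 hxu 9).trans (by norm_num)
  -- basic bounds
  have Bk : ∀ w ∈ S, ∀ k, k ≤ dg G S w + 1 → B G x S {w} ∅ ≤ x ^ k := by
    intro w hw k hk
    have := B_single (G := G) hx0 hx1 hw (by norm_num) (IH1 _ (rem_ssubset hw (by simp))) hk
    linarith
  have Bk2 : ∀ w ∈ S, ∀ k, k ≤ dg G S w + 1 → (∃ y ∈ rem G S {w} ∅,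
      dg G (rem G S {w} ∅) y ≤ 2) → B G x S {w} ∅ ≤ 2 * x ^ (k + 4) := by
    intro w hw k hk hy
    have := B_single (G := G) hx0 hx1 hw (by positivity) (IH2 _ (rem_ssubset hw (by simp)) hy) hk
    calc B G x S {w} ∅ ≤ (2 * x ^ 4) * x ^ k := this
      _ = 2 * x ^ (k + 4) := by ring
  have Bk1 : ∀ w ∈ S, ∀ k, k ≤ dg G S w + 1 → (∃ y ∈ rem G S {w} ∅,
      dg G (rem G S {w} ∅) y ≤ 1) → B G x S {w} ∅ ≤ x ^ (k + 1) := by
    intro w hw k hk hy
    have := B_single (G := G) hx0 hx1 hw hx0 (IH0 _ (rem_ssubset hw (by simp)) hy) hk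
    calc B G x S {w} ∅ ≤ x * x ^ k := this
      _ = x ^ (k + 1) := by ring
  obtain ⟨a, b, c, E⟩ := N3.exists hv hdv
  -- adjacent neighbours
  have hadj : ∀ a b c, N3 G S v a b c → G.Adj a b → h G x S ≤ K := by
    intro a b c E hab
    have := E.adj hx0 hx1 IH1 h3 hab
    linarith
  by_cases hab : G.Adj a b
  · exact hadj a b c E hab
  by_cases hac : G.Adj a c
  · exact hadj a c b E.s23 hac
  by_cases hbc : G.Adj b c
  · exact hadj b c a E.s12.s23 hbc
  -- gains at a nonadjacent neighbour of degree three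
  have gain : ∀ p q, p ∈ nb G S v → q ∈ nb G S v → q ≠ p → ¬ G.Adj p q → dg G S q = 3 →
      ∀ k, k ≤ dg G S p + 1 → B G x S {p} ∅ ≤ 2 * x ^ (k + 4) := by
    intro p q hp hq hqp hna hdq k hk
    have hpS := (mem_nb.mp hp).1
    have hqS := (mem_nb.mp hq).1
    apply Bk2 p hpS k hk
    refine ⟨q, mem_rem_single hqS hqp hna, ?_⟩
    have := dg_rem_one (G := G) (S := S) (u := p) (w := q) (v := v) hv
      (mem_nb.mp hq).2.symm (mem_nb.mp hp).2.symm
    omega
  have hBv := Bk v hv 4 (by omega)
  -- two neighbours of degree three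
  have two3 : ∀ a b c, N3 G S v a b c → ¬ G.Adj a b → ¬ G.Adj a c → ¬ G.Adj b c →
      dg G S a = 3 → dg G S b = 3 → h G x S ≤ K := by
    intro a b c E hab hac hbc hda hdb
    have hBa : B G x S {a} ∅ ≤ 2 * x ^ 8 := gain a b E.ha E.hb E.ab.symm hab hdb 4 (by omega)
    have hBb : B G x S {b} ∅ ≤ 2 * x ^ 8 :=
      gain b a E.hb E.ha E.ab (fun hh => hab hh.symm) hda 4 (by omega)
    have hBc : B G x S {c} ∅ ≤ 2 * x ^ 8 :=
      gain c a E.hc E.ha E.ac (fun hh => hac hh.symm) hda 4 (by have := h3 c E.cS; omega)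
    by_cases hlow : ∃ y ∈ rem G S {v} ∅, dg G (rem G S {v} ∅) y ≤ 2
    · have hBv' : B G x S {v} ∅ ≤ 2 * x ^ 8 := Bk2 v hv 4 (by omega) hlow
      have := E.half hx0
      linarith
    · push Not at hlow
      -- expand at `a`
      obtain ⟨a1, b1, c1, E1⟩ := N3.exists E.aS hda
      have hva : v ∈ nb G S a := mem_nb.mpr ⟨hv, E.va.symm⟩
      have outer : ∀ z ∈ nb G S a, z ≠ v → B G x S {z} ∅ ≤ 2 * x ^ 9 := by
        intro z hz hzv
        have hzS := (mem_nb.mp hz).1
        have haz := (mem_nb.mp hz).2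
        have hvz : ¬ G.Adj v z := by
          intro hh
          rcases E.all z (mem_nb.mpr ⟨hzS, hh⟩) with rfl | rfl | rfl
          · exact G.irrefl haz
          · exact hab haz
          · exact hac haz
        have h1 := hlow z (mem_rem_single hzS hzv hvz)
        have h2 := dg_rem_one (G := G) (S := S) (u := v) (w := z) (v := a) E.aS haz.symm E.va
        apply Bk2 z hzS 5 (by omega)
        refine ⟨v, mem_rem_single hv hzv.symm (fun hh => hvz hh.symm), ?_⟩
        have := dg_rem_one (G := G) (S := S) (u := z) (w := v) (v := a) E.aS E.va haz.symm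
        omega
      have hh := E1.half hx0
      rcases E1.all v hva with h5 | h5 | h5
      · subst h5
        have o1 := outer b1 E1.hb E1.ab.symm
        have o2 := outer c1 E1.hc E1.ac.symm
        linarith
      · subst h5
        have o1 := outer a1 E1.ha E1.ab
        have o2 := outer c1 E1.hc E1.bc.symm
        linarith
      · subst h5
        have o1 := outer a1 E1.ha E1.ac
        have o2 := outer b1 E1.hb E1.bc
        linarith
  -- exactly one neighbour of degree three
  have one3 : ∀ a b c, N3 G S v a b c → ¬ G.Adj a b → ¬ G.Adj a c → ¬ G.Adj b c →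
      dg G S a = 3 → 4 ≤ dg G S b → 4 ≤ dg G S c → h G x S ≤ K := by
    intro a b c E hab hac hbc hda hdb hdc
    -- a neighbour of `a` not adjacent to `c`
    have sp : ∀ b c, N3 G S v a b c → ¬ G.Adj a b → ¬ G.Adj a c → ¬ G.Adj b c →
        4 ≤ dg G S b → 4 ≤ dg G S c → (∃ z ∈ nb G S a, z ≠ v ∧ ¬ G.Adj c z) →
        h G x S ≤ K := by
      intro b c E hab hac hbc hdb hdc ⟨z, hz, hzv, hcz⟩
      have hz' := mem_nb.mp hz
      have hW : (insert z ((nb G S c).erase v)).card = (nb G S c).card := by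
        rw [Finset.card_insert_of_notMem, Finset.card_erase_of_mem
          (mem_nb.mpr ⟨hv, E.vc.symm⟩)]
        · have : 0 < (nb G S c).card := Finset.card_pos.mpr ⟨v, mem_nb.mpr ⟨hv, E.vc.symm⟩⟩
          omega
        · intro hh
          rw [Finset.mem_erase, mem_nb] at hh
          exact hcz hh.2.2
      have h1 := E.split hx0 hx1 IH1 hab hac hbc (W := insert z ((nb G S c).erase v)) (by
          intro w hw
          rcases Finset.mem_insert.mp hw with rfl | hw
          · exact hz'.1
          · exact (mem_nb.mp (Finset.mem_of_mem_erase hw)).1) (by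
          intro w hw
          rcases Finset.mem_insert.mp hw with rfl | hw
          · exact ⟨hzv, Or.inl hz'.2⟩
          · rw [Finset.mem_erase, mem_nb] at hw
            exact ⟨hw.1, Or.inr hw.2.2⟩) (k := 8) (by
          rw [hW]; unfold dg at hdc; omega)
      have h2 : B G x S {b} ∅ ≤ 2 * x ^ 9 :=
        gain b a E.hb E.ha E.ab (fun hh => hab hh.symm) hda 5 (by omega)
      linarith
    by_cases h1 : ∃ z ∈ nb G S a, z ≠ v ∧ ¬ G.Adj c z
    · exact sp b c E hab hac hbc hdb hdc h1
    by_cases h2 : ∃ z ∈ nb G S a, z ≠ v ∧ ¬ G.Adj b z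
    · exact sp c b E.s23 hac hab (fun hh => hbc hh.symm) hdc hdb h2
    push Not at h1 h2
    -- `a` becomes isolated
    have iso : ∀ p, p ∈ nb G S v → p ≠ a → ¬ G.Adj p a → 4 ≤ dg G S p →
        (∀ z ∈ nb G S a, z ≠ v → G.Adj p z) → B G x S {p} ∅ ≤ x ^ 6 := by
      intro p hp hpa hna hdp hall
      have hp' := mem_nb.mp hp
      apply Bk1 p hp'.1 5 (by omega)
      refine ⟨a, mem_rem_single E.aS hpa.symm hna, ?_⟩
      have : nb G (rem G S {p} ∅) a = ∅ := by
        rw [Finset.eq_empty_iff_forall_notMem]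
        intro z hz
        rw [mem_nb] at hz
        by_cases hzv : z = v
        · subst hzv
          exact (mem_rem.mp hz.1).2.2.2 p (by simp) hp'.2.symm
        · exact (mem_rem.mp hz.1).2.2.2 p (by simp)
            (hall z (mem_nb.mpr ⟨rem_subset _ _ _ hz.1, hz.2⟩) hzv)
      unfold dg
      rw [this]; simp
    have g1 := iso b E.hb E.ab.symm (fun hh => hab hh.symm) hdb h2
    have g2 := iso c E.hc E.ac.symm (fun hh => hac hh.symm) hdc h1
    have g3 := Bk a E.aS 4 (by omega)
    have := E.half hx0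
    linarith
  -- no neighbour of degree three
  have zero3 : 4 ≤ dg G S a → 4 ≤ dg G S b → 4 ≤ dg G S c → h G x S ≤ K := by
    intro hda hdb hdc
    have g1 := Bk a E.aS 5 (by omega)
    by_cases hm : 5 ≤ ((nb G S b ∪ nb G S c).erase v).card
    · have h1 := E.s12.split hx0 hx1 IH1 (fun hh => hab hh.symm) hbc hac
        (W := (nb G S b ∪ nb G S c).erase v) (by
          intro w hw
          rw [Finset.mem_erase, Finset.mem_union, mem_nb, mem_nb] at hw
          rcases hw.2 with hh | hh <;> exact hh.1) (by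
          intro w hw
          rw [Finset.mem_erase, Finset.mem_union, mem_nb, mem_nb] at hw
          exact ⟨hw.1, hw.2.imp (fun hh => hh.2) (fun hh => hh.2)⟩) (k := 9) (by omega)
      linarith
    · -- large overlap
      have hov : 3 ≤ (nb G S b ∩ nb G S c).card := by
        have e1 := Finset.card_union_add_card_inter (nb G S b) (nb G S c)
        have hvm : v ∈ nb G S b ∪ nb G S c :=
          Finset.mem_union_left _ (mem_nb.mpr ⟨hv, E.vb.symm⟩)
        rw [Finset.card_erase_of_mem hvm] at hm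
        unfold dg at hdb hdc
        omega
      by_cases hd5 : dg G S b = 4 ∧ dg G S c = 4
      · have lose : ∀ p q, p ∈ nb G S v → q ∈ nb G S v → q ≠ p → ¬ G.Adj p q →
            3 ≤ (nb G S p ∩ nb G S q).card → 4 ≤ dg G S p → dg G S q = 4 →
            B G x S {p} ∅ ≤ x ^ 6 := by
          intro p q hp hq hqp hna hint hdp hdq
          have hp' := mem_nb.mp hp
          have hq' := mem_nb.mp hq
          apply Bk1 p hp'.1 5 (by omega)
          refine ⟨q, mem_rem_single hq'.1 hqp hna, ?_⟩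
          have := dg_rem (G := G) (S := S) (T := {p}) (R := ∅) (Q := nb G S p ∩ nb G S q)
            (w := q) Finset.inter_subset_right (by
              intro y hy
              exact not_mem_rem_of_adj (t := p) (by simp)
                (mem_nb.mp (Finset.mem_inter.mp hy).1).2)
          omega
        have g2 := lose b c E.hb E.hc E.bc.symm hbc hov hdb hd5.2
        have g3 := lose c b E.hc E.hb E.bc (fun hh => hbc hh.symm)
          (by rwa [Finset.inter_comm]) hdc hd5.1
        have := E.half hx0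
        linarith
      · have g2 := Bk b E.bS 5 (by omega)
        have g3 := Bk c E.cS 5 (by omega)
        have hh := E.half hx0
        have hor : 5 ≤ dg G S b ∨ 5 ≤ dg G S c := by omega
        rcases hor with h5 | h5
        · have g4 := Bk b E.bS 6 (by omega)
          linarith
        · have g4 := Bk c E.cS 6 (by omega)
          linarith
  -- assemble
  have h3a := h3 a E.aS
  have h3b := h3 b E.bS
  have h3c := h3 c E.cS
  have ca : dg G S a = 3 ∨ 4 ≤ dg G S a := by omega
  have cb : dg G S b = 3 ∨ 4 ≤ dg G S b := by omega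
  have cc : dg G S c = 3 ∨ 4 ≤ dg G S c := by omega
  have hba : ¬ G.Adj b a := fun hh => hab hh.symm
  have hca : ¬ G.Adj c a := fun hh => hac hh.symm
  have hcb : ¬ G.Adj c b := fun hh => hbc hh.symm
  rcases ca with ca | ca
  · rcases cb with cb | cb
    · exact two3 a b c E hab hac hbc ca cb
    · rcases cc with cc | cc
      · exact two3 a c b E.s23 hac hab hcb ca cc
      · exact one3 a b c E hab hac hbc ca cb cc
  · rcases cb with cb | cb
    · rcases cc with cc | cc
      · exact two3 b c a E.s12.s23 hbc hba hca cb cc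
      · exact one3 b a c E.s12 hba hbc hac cb ca cc
    · rcases cc with cc | cc
      · exact one3 c a b E.s23.s12 hca hcb hab cc ca cb
      · exact zero3 ca cb cc

end

end H61DIS
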