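import Pool.Agent.H61DIS.Gen3

/-!
# All graphs: minimum degree four, and the induction
-/

open Finset Classical

namespace H61DIS

noncomputable section

variable {V : Type*} {G : SimpleGraph V} {S : Finset V} {x : ℝ}

/-- Minimum degree four. -/
theorem gen_min4 (hxl : 8115 / 10000 ≤ x) (hxu : x ≤ 8116 / 10000) {K : ℝ} (hK0 : 0 ≤ K)
    (hK : K * x ^ 5 = 1 / 3)
    (IH1 : ∀ S', S' ⊂ S → h G x S' ≤ 1)
    (IH3 : ∀ S', S' ⊂ S → (∃ v ∈ S', dg G S' v ≤ 3) → h G x S' ≤ K)
    (h4 : ∀ w ∈ S, 4 ≤ dg G S w) {v : V} (hv : v ∈ S) (hdv : dg G S v = 4) :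
    h G x S ≤ 1 := by
  have hx0 : 0 ≤ x := by linarith
  have hx1 : x ≤ 1 := by linarith
  have x5 : x ^ 5 ≤ 3522 / 10000 := (pow_le_pow_left₀ hx0 hxu 5).trans (by norm_num)
  have x6 : x ^ 6 ≤ 2858 / 10000 := (pow_le_pow_left₀ hx0 hxu 6).trans (by norm_num)
  have x56 : x ^ 6 ≤ x ^ 5 := pow_le_pow_of_le_one hx0 hx1 (by norm_num)
  have B5 : ∀ w ∈ S, B G x S {w} ∅ ≤ x ^ 5 := by
    intro w hw
    have := B_single (G := G) hx0 hx1 hw (by norm_num) (IH1 _ (rem_ssubset hw (by simp)))
      (by have := h4 w hw; omega : 5 ≤ dg G S w + 1)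
    linarith
  have B6 : ∀ w ∈ S, 5 ≤ dg G S w → B G x S {w} ∅ ≤ x ^ 6 := by
    intro w hw hd
    have := B_single (G := G) hx0 hx1 hw (by norm_num) (IH1 _ (rem_ssubset hw (by simp)))
      (by omega : 6 ≤ dg G S w + 1)
    linarith
  have BK : ∀ w ∈ S, (∃ y ∈ rem G S {w} ∅, dg G (rem G S {w} ∅) y ≤ 3) →
      B G x S {w} ∅ ≤ 1 / 3 := by
    intro w hw hy
    have := B_single (G := G) hx0 hx1 hw hK0 (IH3 _ (rem_ssubset hw (by simp)) hy)
      (by have := h4 w hw; omega : 5 ≤ dg G S w + 1)
    rwa [hK] at this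
  -- two neighbours of degree at least five
  have k2 : ∀ w ∈ S, dg G S w = 4 → 2 ≤ ((nb G S w).filter (fun y => 5 ≤ dg G S y)).card →
      h G x S ≤ 1 := by
    intro w hw hdw hF
    have h1 := H61DIS.half (G := G) hx0 hw
    have h2 : ∑ u ∈ nb G S w, B G x S {u} ∅ ≤ 2 * x ^ 6 + 2 * x ^ 5 := by
      have e1 : ∀ u ∈ nb G S w, B G x S {u} ∅ ≤
          x ^ 5 - (if 5 ≤ dg G S u then (x ^ 5 - x ^ 6) else 0) := by
        intro u hu
        by_cases h5 : 5 ≤ dg G S u
        · rw [if_pos h5]
          have := B6 u (mem_nb.mp hu).1 h5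
          linarith
        · rw [if_neg h5]
          have := B5 u (mem_nb.mp hu).1
          linarith
      refine (Finset.sum_le_sum e1).trans ?_
      rw [Finset.sum_sub_distrib, Finset.sum_const, ← Finset.sum_filter, Finset.sum_const,
        nsmul_eq_mul, nsmul_eq_mul]
      have e2 : ((nb G S w).card : ℝ) = 4 := by
        unfold dg at hdw; rw [hdw]; norm_num
      rw [e2]
      have e3 : (2 : ℝ) ≤ ((nb G S w).filter (fun y => 5 ≤ dg G S y)).card := by
        exact_mod_cast hF
      nlinarith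
    have h3 := B5 w hw
    linarith
  obtain ⟨a, b, c, d, E⟩ := N4.exists hv hdv
  -- gain at a nonadjacent neighbour of degree four
  have gain : ∀ p q, p ∈ nb G S v → q ∈ nb G S v → q ≠ p → ¬ G.Adj p q → dg G S q = 4 →
      B G x S {p} ∅ ≤ 1 / 3 := by
    intro p q hp hq hqp hna hdq
    apply BK p (mem_nb.mp hp).1
    refine ⟨q, mem_rem_single (mem_nb.mp hq).1 hqp hna, ?_⟩
    have := dg_rem_one (G := G) (S := S) (u := p) (w := q) (v := v) hv
      (mem_nb.mp hq).2.symm (mem_nb.mp hp).2.symm
    omega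
  -- exactly three neighbours of degree four
  have k3 : ∀ a b c d, N4 G S v a b c d → dg G S a = 4 → dg G S b = 4 → dg G S c = 4 →
      5 ≤ dg G S d → h G x S ≤ 1 := by
    intro a b c d E da db dc dd
    have gd := B6 d E.dS dd
    have gv := B5 v hv
    -- `c` adjacent to `a` and `b`
    have two : ∀ a b c, N4 G S v a b c d → dg G S b = 4 → ¬ G.Adj a b → G.Adj b c →
        h G x S ≤ 1 := by
      intro a b c E db hab hbc
      have h2 : h G x S ≤ B G x S {v} ∅ + B G x S {a} ∅ + B G x S {d} ∅ :=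
        (E.s34.s23).sum_clique hx0 hbc
      have g1 := gain a b E.ha E.hb E.ab.symm hab db
      linarith
    by_cases hab : G.Adj a b
    · by_cases hac : G.Adj a c
      · by_cases hbc : G.Adj b c
        · have h1 : h G x S ≤ B G x S {v} ∅ + B G x S {d} ∅ :=
            (E.s34.s23.s12).clique3 hx0 hab hac hbc
          linarith
        · exact two b c a E.s12.s23 dc hbc hac.symm
      · by_cases hbc : G.Adj b c
        · exact two a c b E.s23 dc hac hbc.symm
        · -- only `a ~ b`
          have g1 := gain a c E.ha E.hc E.ac.symm hac dc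
          have g2 := gain b c E.hb E.hc E.bc.symm hbc dc
          have g3 := gain c a E.hc E.ha E.ac (fun hh => hac hh.symm) da
          have := E.half hx0
          linarith
    · by_cases hac : G.Adj a c
      · by_cases hbc : G.Adj b c
        · exact two a b c E db hab hbc
        · have g1 := gain a b E.ha E.hb E.ab.symm hab db
          have g2 := gain b a E.hb E.ha E.ab (fun hh => hab hh.symm) da
          have g3 := gain c b E.hc E.hb E.bc (fun hh => hbc hh.symm) db
          have := E.half hx0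
          linarith
      · have g1 := gain a b E.ha E.hb E.ab.symm hab db
        have g2 := gain b a E.hb E.ha E.ab (fun hh => hab hh.symm) da
        have g3 := gain c a E.hc E.ha E.ac (fun hh => hac hh.symm) da
        have := E.half hx0
        linarith
  -- all four neighbours of degree four
  have k4 : dg G S a = 4 → dg G S b = 4 → dg G S c = 4 → dg G S d = 4 → h G x S ≤ 1 := by
    intro da db dc dd
    have gv := B5 v hv
    -- a neighbour adjacent to all others
    have dom : ∀ a b c d, N4 G S v a b c d → G.Adj a b → G.Adj a c → G.Adj a d →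
        h G x S ≤ 1 := by
      intro a b c d E hab hac had
      have h1 : h G x S ≤ B G x S {v} ∅ + (1 / 2) * ∑ u ∈ ({b, c, d} : Finset V),
          B G x S {u} ∅ := by
        apply half_gen hx0
        intro D hD hvD
        have hpq : ∀ p q, p ∈ D → q ∈ D → p ≠ q → p ∈ ({b, c, d} : Finset V) →
            q ∈ ({b, c, d} : Finset V) → 2 ≤ (({b, c, d} : Finset V) ∩ D).card := by
          intro p q hp hq hne hp' hq'
          have : 1 < (({b, c, d} : Finset V) ∩ D).card :=
            Finset.one_lt_card.mpr ⟨p, Finset.mem_inter.mpr ⟨hp', hp⟩, q,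
              Finset.mem_inter.mpr ⟨hq', hq⟩, hne⟩
          omega
        rcases E.pair hD hvD with h1 | h1 | h1 | h1 | h1 | h1
        · exact absurd hab h1.2.2
        · exact absurd hac h1.2.2
        · exact absurd had h1.2.2
        · exact hpq b c h1.1 h1.2.1 E.bc (by simp) (by simp)
        · exact hpq b d h1.1 h1.2.1 E.bd (by simp) (by simp)
        · exact hpq c d h1.1 h1.2.1 E.cd (by simp) (by simp)
      rw [Finset.sum_insert (by simp [E.bc, E.bd]), Finset.sum_pair E.cd] at h1
      have g2 := B5 b E.bS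
      have g3 := B5 c E.cS
      have g4 := B5 d E.dS
      linarith
    by_cases fa : G.Adj a b ∧ G.Adj a c ∧ G.Adj a d
    · exact dom a b c d E fa.1 fa.2.1 fa.2.2
    by_cases fb : G.Adj b a ∧ G.Adj b c ∧ G.Adj b d
    · exact dom b a c d E.s12 fb.1 fb.2.1 fb.2.2
    by_cases fc : G.Adj c a ∧ G.Adj c b ∧ G.Adj c d
    · exact dom c a b d E.s23.s12 fc.1 fc.2.1 fc.2.2
    by_cases fd : G.Adj d a ∧ G.Adj d b ∧ G.Adj d c
    · exact dom d a b c E.s34.s23.s12 fd.1 fd.2.1 fd.2.2
    -- gains for all four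
    have ga : B G x S {a} ∅ ≤ 1 / 3 := by
      by_cases k1 : G.Adj a b
      · by_cases k2 : G.Adj a c
        · exact gain a d E.ha E.hd E.ad.symm (fun k3 => fa ⟨k1, k2, k3⟩) dd
        · exact gain a c E.ha E.hc E.ac.symm k2 dc
      · exact gain a b E.ha E.hb E.ab.symm k1 db
    have gb : B G x S {b} ∅ ≤ 1 / 3 := by
      by_cases k1 : G.Adj b a
      · by_cases k2 : G.Adj b c
        · exact gain b d E.hb E.hd E.bd.symm (fun k3 => fb ⟨k1, k2, k3⟩) dd
        · exact gain b c E.hb E.hc E.bc.symm k2 dc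
      · exact gain b a E.hb E.ha E.ab k1 da
    have gc : B G x S {c} ∅ ≤ 1 / 3 := by
      by_cases k1 : G.Adj c a
      · by_cases k2 : G.Adj c b
        · exact gain c d E.hc E.hd E.cd.symm (fun k3 => fc ⟨k1, k2, k3⟩) dd
        · exact gain c b E.hc E.hb E.bc k2 db
      · exact gain c a E.hc E.ha E.ac k1 da
    have gd : B G x S {d} ∅ ≤ 1 / 3 := by
      by_cases k1 : G.Adj d a
      · by_cases k2 : G.Adj d b
        · exact gain d c E.hd E.hc E.cd (fun k3 => fd ⟨k1, k2, k3⟩) dc
        · exact gain d b E.hd E.hb E.bd k2 db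
      · exact gain d a E.hd E.ha E.ad k1 da
    have hhalf := E.half hx0
    by_cases hlow : ∃ y ∈ rem G S {v} ∅, dg G (rem G S {v} ∅) y ≤ 3
    · have gv' := BK v hv hlow
      linarith
    push Not at hlow
    -- outer neighbours have degree at least five
    have hout : ∀ p y, p ∈ nb G S v → y ∈ nb G S p → y ≠ v → ¬ G.Adj v y →
        5 ≤ dg G S y := by
      intro p y hp hy hyv hna
      have hyS := (mem_nb.mp hy).1
      have hpy := (mem_nb.mp hy).2
      have h1 := hlow y (mem_rem_single hyS hyv hna)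
      have h2 := dg_rem_one (G := G) (S := S) (u := v) (w := y) (v := p) (mem_nb.mp hp).1
        hpy.symm (mem_nb.mp hp).2
      omega
    -- a neighbour with at most one inner neighbour
    have inner1 : ∀ a b c d, N4 G S v a b c d → dg G S a = 4 → ¬ G.Adj a c → ¬ G.Adj a d →
        h G x S ≤ 1 := by
      intro a b c d E da hac had
      apply k2 a E.aS da
      have hsub : ((nb G S a).erase v).erase b ⊆
          (nb G S a).filter (fun y => 5 ≤ dg G S y) := by
        intro y hy
        rw [Finset.mem_erase, Finset.mem_erase] at hy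
        obtain ⟨hyb, hyv, hya⟩ := hy
        rw [Finset.mem_filter]
        refine ⟨hya, hout a y E.ha hya hyv ?_⟩
        intro hvy
        rcases E.all y (mem_nb.mpr ⟨(mem_nb.mp hya).1, hvy⟩) with rfl | rfl | rfl | rfl
        · exact G.irrefl (mem_nb.mp hya).2
        · exact hyb rfl
        · exact hac (mem_nb.mp hya).2
        · exact had (mem_nb.mp hya).2
      refine le_trans ?_ (Finset.card_le_card hsub)
      unfold dg at da
      have e1 := Finset.pred_card_le_card_erase (s := nb G S a) (a := v)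
      have e2 := Finset.pred_card_le_card_erase (s := (nb G S a).erase v) (a := b)
      omega
    -- the cyclic case
    have cyc : ∀ a b c d, N4 G S v a b c d → G.Adj a b → G.Adj b c → G.Adj c d → G.Adj d a →
        h G x S ≤ 1 := by
      intro a b c d E hab hbc hcd hda
      have := E.cycle hx0 hx1 IH1 h4 hab hbc hcd hda
      linarith
    -- `a` has exactly two inner neighbours `b, c`
    have two : ∀ a b c d, N4 G S v a b c d → dg G S b = 4 → dg G S c = 4 → dg G S d = 4 →
        G.Adj a b → G.Adj a c → ¬ G.Adj a d →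
        ¬ (G.Adj b a ∧ G.Adj b c ∧ G.Adj b d) → ¬ (G.Adj c a ∧ G.Adj c b ∧ G.Adj c d) →
        h G x S ≤ 1 := by
      intro a b c d E db dc dd hab hac had nb' nc'
      by_cases hbc : G.Adj b c
      · -- then `d` has no inner neighbour besides none
        have hbd : ¬ G.Adj b d := fun k => nb' ⟨hab.symm, hbc, k⟩
        have hcd : ¬ G.Adj c d := fun k => nc' ⟨hac.symm, hbc.symm, k⟩
        exact inner1 d a b c E.s34.s23.s12 dd (fun k => hbd k.symm) (fun k => hcd k.symm)
      · by_cases hbd : G.Adj b d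
        · by_cases hcd : G.Adj c d
          · exact cyc a b d c E.s34 hab hbd hcd.symm hac.symm
          · exact inner1 c a b d E.s23.s12 dc (fun k => hbc k.symm) hcd
        · exact inner1 b a c d E.s12 db hbc hbd
    by_cases hab : G.Adj a b
    · by_cases hac : G.Adj a c
      · have had : ¬ G.Adj a d := fun k => fa ⟨hab, hac, k⟩
        exact two a b c d E db dc dd hab hac had fb fc
      · by_cases had : G.Adj a d
        · exact two a b d c E.s34 db dd dc hab had hac
            (fun k => fb ⟨k.1, k.2.2, k.2.1⟩) (fun k => fd ⟨k.1, k.2.1, k.2.2⟩)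
        · exact inner1 a b c d E da hac had
    · by_cases hac : G.Adj a c
      · by_cases had : G.Adj a d
        · exact two a c d b E.s23.s34 dc dd db hac had hab
            (fun k => fc ⟨k.1, k.2.2, k.2.1⟩) (fun k => fd ⟨k.1, k.2.2, k.2.1⟩)
        · exact inner1 a c b d E.s23 da hab had
      · exact inner1 a d b c E.s34.s23 da hab hac
  -- assemble: count neighbours of degree at least five
  have h4' : ∀ w ∈ S, dg G S w = 4 ∨ 5 ≤ dg G S w := by
    intro w hw; have := h4 w hw; omega
  have two5 : ∀ p q, p ∈ nb G S v → q ∈ nb G S v → p ≠ q → 5 ≤ dg G S p → 5 ≤ dg G S q →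
      h G x S ≤ 1 := by
    intro p q hp hq hpq h5p h5q
    apply k2 v hv hdv
    have : 1 < ((nb G S v).filter (fun y => 5 ≤ dg G S y)).card :=
      Finset.one_lt_card.mpr ⟨p, Finset.mem_filter.mpr ⟨hp, h5p⟩, q,
        Finset.mem_filter.mpr ⟨hq, h5q⟩, hpq⟩
    omega
  rcases h4' a E.aS with ca | ca
  · rcases h4' b E.bS with cb | cb
    · rcases h4' c E.cS with cc | cc
      · rcases h4' d E.dS with cd | cd
        · exact k4 ca cb cc cd
        · exact k3 a b c d E ca cb cc cd
      · rcases h4' d E.dS with cd | cd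
        · exact k3 a b d c E.s34 ca cb cd cc
        · exact two5 c d E.hc E.hd E.cd cc cd
    · rcases h4' c E.cS with cc | cc
      · rcases h4' d E.dS with cd | cd
        · exact k3 a c d b E.s23.s34 ca cc cd cb
        · exact two5 b d E.hb E.hd E.bd cb cd
      · exact two5 b c E.hb E.hc E.bc cb cc
  · rcases h4' b E.bS with cb | cb
    · rcases h4' c E.cS with cc | cc
      · rcases h4' d E.dS with cd | cd
        · exact k3 b c d a E.s12.s23.s34 cb cc cd ca
        · exact two5 a d E.ha E.hd E.ad ca cd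
      · exact two5 a c E.ha E.hc E.ac ca cc
    · exact two5 a b E.ha E.hb E.ab ca cb

/-- The bound for all graphs. -/
theorem gen_main (hxl : 8115 / 10000 ≤ x) (hxu : x ≤ 8116 / 10000)
    (h6 : x ^ 6 = 2 / 7) (S : Finset V) :
    h G x S ≤ 1 ∧ ((∃ v ∈ S, dg G S v ≤ 3) → h G x S ≤ 1 / (3 * x ^ 5)) ∧
      ((∃ v ∈ S, dg G S v ≤ 2) → h G x S ≤ 2 * x ^ 4) := by
  have hx0 : 0 ≤ x := by linarith
  have hxp : 0 < x := by linarith
  have hx1 : x ≤ 1 := by linarith
  have x4 : x ^ 4 ≤ 4339 / 10000 := (pow_le_pow_left₀ hx0 hxu 4).trans (by norm_num)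
  have x5 : x ^ 5 ≤ 3522 / 10000 := (pow_le_pow_left₀ hx0 hxu 5).trans (by norm_num)
  have x5p : 0 < x ^ 5 := by positivity
  have x5l : 3519 / 10000 ≤ x ^ 5 :=
    le_trans (by norm_num) (pow_le_pow_left₀ (by norm_num) hxl 5)
  have hK : 9420 / 10000 ≤ 1 / (3 * x ^ 5) := by
    rw [le_div_iff₀ (by positivity)]; linarith
  have hK1 : 1 / (3 * x ^ 5) ≤ 1 := by
    rw [div_le_one (by positivity)]; linarith
  have hKx : 1 / (3 * x ^ 5) * x ^ 5 = 1 / 3 := by field_simp
  induction S using Finset.strongInduction with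
  | H S ih =>
    have IH1 : ∀ S', S' ⊂ S → h G x S' ≤ 1 := fun S' hS' => (ih S' hS').1
    have IH3 : ∀ S', S' ⊂ S → (∃ v ∈ S', dg G S' v ≤ 3) → h G x S' ≤ 1 / (3 * x ^ 5) :=
      fun S' hS' => (ih S' hS').2.1
    have IH2 : ∀ S', S' ⊂ S → (∃ v ∈ S', dg G S' v ≤ 2) → h G x S' ≤ 2 * x ^ 4 :=
      fun S' hS' => (ih S' hS').2.2
    have IH0 : ∀ S', S' ⊂ S → (∃ v ∈ S', dg G S' v ≤ 1) → h G x S' ≤ x :=
      fun S' hS' hh => low1 hx0 hx1
        (fun S'' hS'' => IH1 S'' (hS''.trans hS')) hh
    have hlow : (∃ v ∈ S, dg G S v ≤ 2) → h G x S ≤ 2 * x ^ 4 :=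
      fun hh => low (by linarith) (by linarith) IH1 IH2 hh
    have hlow3 : (∃ v ∈ S, dg G S v ≤ 3) → h G x S ≤ 1 / (3 * x ^ 5) := by
      intro ⟨v, hv, hd⟩
      by_cases h2 : ∃ v ∈ S, dg G S v ≤ 2
      · have := hlow h2; linarith
      · push Not at h2
        exact gen_min3 hxl hxu hK IH1 IH2 IH0 (fun w hw => h2 w hw) hv
          (by have := h2 v hv; omega)
    refine ⟨?_, hlow3, hlow⟩
    by_cases h3 : ∃ v ∈ S, dg G S v ≤ 3
    · exact (hlow3 h3).trans hK1
    push Not at h3
    rcases S.eq_empty_or_nonempty with rfl | hne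
    · exact h_empty
    obtain ⟨v, hv, hmin⟩ := Finset.exists_min_image S (fun w => dg G S w) hne
    have hd4 := h3 v hv
    by_cases h4 : dg G S v = 4
    · exact gen_min4 hxl hxu (by positivity) hKx IH1 IH3 (fun w hw => h3 w hw) hv h4
    have hbig := big hx0 hx1 IH1 hv hmin
    by_cases h5 : dg G S v = 5
    · rw [h5] at hbig
      norm_num at hbig
      rw [h6] at hbig
      linarith
    · refine hbig.trans ?_
      apply big_num hx0 (by linarith)
      · have : x ^ 7 = x ^ 6 * x := by ring
        rw [this, h6]; linarith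
      · omega

end

end H61DIS
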