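import Pool.Agent.H61DIS.Basic

/-!
# Graphs with a vertex of degree at most two
-/

open Finset Classical

namespace H61DIS

noncomputable section

variable {V : Type*} {G : SimpleGraph V}

theorem c3 {a b c : V} (hab : a ≠ b) (hac : a ≠ c) (hbc : b ≠ c) :
    ({a, b, c} : Finset V).card = 3 := by
  rw [Finset.card_insert_of_notMem (by simp [hab, hac]), Finset.card_pair hbc]

theorem c4 {a b c d : V} (hab : a ≠ b) (hac : a ≠ c) (had : a ≠ d) (hbc : b ≠ c) (hbd : b ≠ d)
    (hcd : c ≠ d) : ({a, b, c, d} : Finset V).card = 4 := by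
  rw [Finset.card_insert_of_notMem (by simp [hab, hac, had]), c3 hbc hbd hcd]

theorem c5 {a b c d e : V} (hab : a ≠ b) (hac : a ≠ c) (had : a ≠ d) (hae : a ≠ e)
    (hbc : b ≠ c) (hbd : b ≠ d) (hbe : b ≠ e) (hcd : c ≠ d) (hce : c ≠ e) (hde : d ≠ e) :
    ({a, b, c, d, e} : Finset V).card = 5 := by
  rw [Finset.card_insert_of_notMem (by simp [hab, hac, had, hae]), c4 hbc hbd hbe hcd hce hde]

/-- A vertex of degree at most one is in every set. -/
theorem low1 {x : ℝ} (hx0 : 0 ≤ x) (hx1 : x ≤ 1) {S : Finset V}
    (IH1 : ∀ S', S' ⊂ S → h G x S' ≤ 1) (hv : ∃ v ∈ S, dg G S v ≤ 1) : h G x S ≤ x := by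
  obtain ⟨v, hvS, hdv⟩ := hv
  have hin : ∀ D ∈ dis G S, v ∈ D := by
    intro D hD
    by_contra hvD
    obtain ⟨p, q, hp, hq, hpq, -⟩ := two_of hD hvS hvD
    have : 1 < (nb G S v).card := Finset.one_lt_card.mpr ⟨p, hp, q, hq, hpq⟩
    unfold dg at hdv
    omega
  have h1 : h G x S ≤ B G x S {v} ∅ := by
    apply cover1 hx0
    intro D hD
    exact ⟨by simpa using hin D hD, by simp⟩
  have h2 : B G x S {v} ∅ ≤ 1 * x ^ 1 :=
    B_single hx0 hx1 hvS (by norm_num) (IH1 _ (rem_ssubset hvS (by simp))) (by omega)
  linarith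

/-- A vertex of degree at most two. -/
theorem low {x : ℝ} (hxl : 4 / 5 ≤ x) (hxu : x ≤ 41 / 50) {S : Finset V}
    (IH1 : ∀ S', S' ⊂ S → h G x S' ≤ 1)
    (IH2 : ∀ S', S' ⊂ S → (∃ v ∈ S', dg G S' v ≤ 2) → h G x S' ≤ 2 * x ^ 4)
    (hv : ∃ v ∈ S, dg G S v ≤ 2) : h G x S ≤ 2 * x ^ 4 := by
  have hx0 : 0 ≤ x := by linarith
  have hx1 : x ≤ 1 := by linarith
  have hxx : x ≤ 2 * x ^ 4 := by nlinarith [pow_nonneg hx0 3, pow_nonneg hx0 2]
  by_cases hlow : ∃ w ∈ S, dg G S w ≤ 1
  · exact (low1 hx0 hx1 IH1 hlow).trans hxx
  push Not at hlow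
  obtain ⟨v, hvS, hdv⟩ := hv
  have hdv2 : (nb G S v).card = 2 := by
    have := hlow v hvS
    unfold dg at this hdv
    omega
  obtain ⟨a, b, hab, hN⟩ := Finset.card_eq_two.mp hdv2
  have haN : a ∈ nb G S v := by rw [hN]; simp
  have hbN : b ∈ nb G S v := by rw [hN]; simp
  obtain ⟨haS, hva⟩ := mem_nb.mp haN
  obtain ⟨hbS, hvb⟩ := mem_nb.mp hbN
  have hva' : v ≠ a := hva.ne
  have hvb' : v ≠ b := hvb.ne
  -- either `v` or both neighbours
  have hdich : ∀ D ∈ dis G S, v ∉ D → a ∈ D ∧ b ∈ D ∧ ¬ G.Adj a b := by
    intro D hD hvD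
    obtain ⟨p, q, hp, hq, hpq, hpD, hqD, hna⟩ := two_of hD hvS hvD
    rw [hN] at hp hq
    simp only [Finset.mem_insert, Finset.mem_singleton] at hp hq
    rcases hp with rfl | rfl <;> rcases hq with rfl | rfl
    · exact absurd rfl hpq
    · exact ⟨hpD, hqD, hna⟩
    · exact ⟨hqD, hpD, fun hh => hna hh.symm⟩
    · exact absurd rfl hpq
  have hBv : B G x S {v} ∅ ≤ 1 * x ^ 3 :=
    B_single hx0 hx1 hvS (by norm_num) (IH1 _ (rem_ssubset hvS (by simp)))
      (by unfold dg; omega)
  by_cases hadj : G.Adj a b
  · -- simplicial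
    have h1 : h G x S ≤ B G x S {v} ∅ := by
      apply cover1 hx0
      intro D hD
      refine ⟨?_, by simp⟩
      by_contra hvD
      have hvD' : v ∉ D := by simpa using hvD
      exact (hdich D hD hvD').2.2 hadj
    nlinarith [pow_nonneg hx0 3, pow_nonneg hx0 2]
  -- nonadjacent neighbours
  set A := (nb G S a).erase v with hA
  set A' := (nb G S b).erase v with hA'
  have hvNa : v ∈ nb G S a := mem_nb.mpr ⟨hvS, hva.symm⟩
  have hvNb : v ∈ nb G S b := mem_nb.mpr ⟨hvS, hvb.symm⟩
  have hAc : 1 ≤ A.card := by
    have := hlow a haS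
    unfold dg at this
    rw [hA, Finset.card_erase_of_mem hvNa]; omega
  have hA'c : 1 ≤ A'.card := by
    have := hlow b hbS
    unfold dg at this
    rw [hA', Finset.card_erase_of_mem hvNb]; omega
  have hcov : h G x S ≤ B G x S {v} ∅ + B G x S {a, b} ∅ := by
    apply cover2 hx0
    intro D hD
    by_cases hvD : v ∈ D
    · left; exact ⟨by simpa using hvD, by simp⟩
    · right
      obtain ⟨h1, h2, -⟩ := hdich D hD hvD
      refine ⟨?_, by simp⟩
      intro y hy
      simp only [Finset.mem_insert, Finset.mem_singleton] at hy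
      rcases hy with rfl | rfl <;> assumption
  have hremab : h G x (rem G S {a, b} ∅) ≤ 1 := IH1 _ (rem_ssubset haS (by simp))
  -- the blocked set of `{a, b}`
  have hblk : ∀ W : Finset V, W ⊆ A ∪ A' → 3 + W.card + (rem G S {a, b} ∅).card ≤ S.card := by
    intro W hW
    have hdis : Disjoint ({v, a, b} : Finset V) W := by
      rw [Finset.disjoint_left]
      intro y hy hyW
      have hy2 := hW hyW
      simp only [Finset.mem_insert, Finset.mem_singleton] at hy
      rw [Finset.mem_union, hA, hA', Finset.mem_erase, Finset.mem_erase, mem_nb, mem_nb] at hy2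
      rcases hy with rfl | rfl | rfl
      · rcases hy2 with hh | hh <;> exact hh.1 rfl
      · rcases hy2 with hh | hh
        · exact G.irrefl hh.2.2
        · exact hadj hh.2.2.symm
      · rcases hy2 with hh | hh
        · exact hadj hh.2.2
        · exact G.irrefl hh.2.2
    have hc : (({v, a, b} : Finset V) ∪ W).card = 3 + W.card := by
      rw [Finset.card_union_of_disjoint hdis, c3 hva' hvb' hab]
    rw [← hc]
    apply card_blocked
    · apply Finset.union_subset
      · intro y hy
        simp only [Finset.mem_insert, Finset.mem_singleton] at hy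
        rcases hy with rfl | rfl | rfl <;> assumption
      · intro y hy
        have := hW hy
        rw [Finset.mem_union, hA, hA', Finset.mem_erase, Finset.mem_erase, mem_nb, mem_nb] at this
        rcases this with hh | hh <;> exact hh.2.1
    · intro y hy
      rw [Finset.mem_union] at hy
      rcases hy with hy | hy
      · simp only [Finset.mem_insert, Finset.mem_singleton] at hy
        rcases hy with rfl | rfl | rfl
        · exact not_mem_rem_of_adj (t := a) (by simp) hva.symm
        · exact not_mem_rem_of_mem (by simp)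
        · exact not_mem_rem_of_mem (by simp)
      · have := hW hy
        rw [Finset.mem_union, hA, hA', Finset.mem_erase, Finset.mem_erase, mem_nb, mem_nb] at this
        rcases this with hh | hh
        · exact not_mem_rem_of_adj (t := a) (by simp) hh.2.2
        · exact not_mem_rem_of_adj (t := b) (by simp) hh.2.2
  by_cases hc3 : 3 ≤ (A ∪ A').card
  · have h2 : B G x S {a, b} ∅ ≤ 1 * x ^ 6 :=
      B_le hx0 hx1 hremab (by have := hblk _ (le_refl (A ∪ A')); omega)
    have e1 : x ^ 2 ≤ 81 / 50 * x - 82 / 125 := by nlinarith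
    have e2 : x ^ 3 ≤ 81 / 50 * x ^ 2 - 82 / 125 * x := by nlinarith
    have e3 : 1 + x ^ 3 ≤ 2 * x := by nlinarith
    have e4 : x ^ 3 * (1 + x ^ 3) ≤ x ^ 3 * (2 * x) :=
      mul_le_mul_of_nonneg_left e3 (pow_nonneg hx0 3)
    have e5 : x ^ 3 * (1 + x ^ 3) = x ^ 3 + x ^ 6 := by ring
    have e6 : x ^ 3 * (2 * x) = 2 * x ^ 4 := by ring
    linarith
  -- a degree two neighbour
  have hone : ∀ (a b : V), a ∈ S → b ∈ S → G.Adj v a → G.Adj v b → a ≠ b → ¬ G.Adj a b →
      (∀ D ∈ dis G S, v ∉ D → a ∈ D ∧ b ∈ D) → ((nb G S a).erase v).card = 1 →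
      h G x S ≤ 2 * x ^ 4 := by
    intro a b haS hbS hva hvb hab hadj hdich hcard
    obtain ⟨y, hy⟩ := Finset.card_eq_one.mp hcard
    have hyN : y ∈ (nb G S a).erase v := by rw [hy]; simp
    rw [Finset.mem_erase, mem_nb] at hyN
    obtain ⟨hyv, hyS, hay⟩ := hyN
    have hya : a ≠ y := hay.ne
    have hyb : b ≠ y := by
      rintro rfl; exact hadj hay
    have hva' : v ≠ a := hva.ne
    have hvb' : v ≠ b := hvb.ne
    have hc4 : ({v, a, b, y} : Finset V).card = 4 := c4 hva' hvb' (Ne.symm hyv) hab hya hyb
    have hsub : ({v, a, b, y} : Finset V) ⊆ S := by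
      intro z hz
      simp only [Finset.mem_insert, Finset.mem_singleton] at hz
      rcases hz with rfl | rfl | rfl | rfl
      · exact (mem_nb.mp (by rw [mem_nb]; exact ⟨hvS, hva.symm⟩ : z ∈ nb G S a)).1
      all_goals assumption
    have h1 : h G x S ≤ B G x S {v, y} ∅ + B G x S {a, b} ∅ := by
      apply cover2 hx0
      intro D hD
      by_cases hvD : v ∈ D
      · left
        refine ⟨?_, by simp⟩
        have hind := (mem_dis.mp hD).2.1
        have haD : a ∉ D := fun hh => hind v hvD a hh hva
        obtain ⟨p, q, hp, hq, hpq, hpD, hqD, -⟩ := two_of hD haS haD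
        have hyD : y ∈ D := by
          have key : ∀ z, z ∈ nb G S a → z = v ∨ z = y := by
            intro z hz
            by_cases hzv : z = v
            · exact Or.inl hzv
            · right
              have : z ∈ (nb G S a).erase v := Finset.mem_erase.mpr ⟨hzv, hz⟩
              rw [hy] at this
              simpa using this
          rcases key p hp with rfl | rfl
          · rcases key q hq with rfl | rfl
            · exact absurd rfl hpq
            · exact hqD
          · exact hpD
        intro z hz
        simp only [Finset.mem_insert, Finset.mem_singleton] at hz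
        rcases hz with rfl | rfl <;> assumption
      · right
        obtain ⟨h1, h2⟩ := hdich D hD hvD
        refine ⟨?_, by simp⟩
        intro z hz
        simp only [Finset.mem_insert, Finset.mem_singleton] at hz
        rcases hz with rfl | rfl <;> assumption
    have h2 : B G x S {v, y} ∅ ≤ 1 * x ^ 4 := by
      apply B_le hx0 hx1 (IH1 _ (rem_ssubset hvS (by simp)))
      rw [← hc4]
      apply card_blocked hsub
      intro z hz
      simp only [Finset.mem_insert, Finset.mem_singleton] at hz
      rcases hz with rfl | rfl | rfl | rfl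
      · exact not_mem_rem_of_mem (by simp)
      · exact not_mem_rem_of_adj (t := v) (by simp) hva
      · exact not_mem_rem_of_adj (t := v) (by simp) hvb
      · exact not_mem_rem_of_mem (by simp)
    have h3 : B G x S {a, b} ∅ ≤ 1 * x ^ 4 := by
      apply B_le hx0 hx1 (IH1 _ (rem_ssubset haS (by simp)))
      rw [← hc4]
      apply card_blocked hsub
      intro z hz
      simp only [Finset.mem_insert, Finset.mem_singleton] at hz
      rcases hz with rfl | rfl | rfl | rfl
      · exact not_mem_rem_of_adj (t := a) (by simp) hva.symm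
      · exact not_mem_rem_of_mem (by simp)
      · exact not_mem_rem_of_mem (by simp)
      · exact not_mem_rem_of_adj (t := a) (by simp) hay
    linarith
  by_cases hA1 : A.card = 1
  · exact hone a b haS hbS hva hvb hab hadj
      (fun D hD hvD => ⟨(hdich D hD hvD).1, (hdich D hD hvD).2.1⟩) hA1
  by_cases hA'1 : A'.card = 1
  · exact hone b a hbS haS hvb hva hab.symm (fun hh => hadj hh.symm)
      (fun D hD hvD => ⟨(hdich D hD hvD).2.1, (hdich D hD hvD).1⟩) hA'1
  -- `A = A' = {y, z}`
  have hsubA : A ⊆ A ∪ A' := Finset.subset_union_left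
  have hsubA' : A' ⊆ A ∪ A' := Finset.subset_union_right
  have hAeq : A = A ∪ A' := Finset.eq_of_subset_of_card_le hsubA (by omega)
  have hAcard : A.card = 2 := by rw [← hAeq] at hc3; omega
  have hA'sub : A' ⊆ A := by rw [hAeq]; exact hsubA'
  have hA'eq : A' = A := Finset.eq_of_subset_of_card_le hA'sub (by omega)
  obtain ⟨y, z, hyz, hyzA⟩ := Finset.card_eq_two.mp hAcard
  have hyA : y ∈ A := by rw [hyzA]; simp
  have hzA : z ∈ A := by rw [hyzA]; simp
  have hyA' : y ∈ A' := by rw [hA'eq]; exact hyA
  have hzA' : z ∈ A' := by rw [hA'eq]; exact hzA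
  rw [hA, Finset.mem_erase, mem_nb] at hyA hzA
  rw [hA', Finset.mem_erase, mem_nb] at hyA' hzA'
  obtain ⟨hyv, hyS, hay⟩ := hyA
  obtain ⟨hzv, hzS, haz⟩ := hzA
  have hby := hyA'.2.2
  have hbz := hzA'.2.2
  have hBab : B G x S {a, b} ∅ ≤ 1 * x ^ 5 :=
    B_le hx0 hx1 hremab (by have := hblk A hsubA; omega)
  have hvy : ¬ G.Adj v y := by
    intro hh
    have : y ∈ nb G S v := mem_nb.mpr ⟨hyS, hh⟩
    rw [hN] at this
    simp only [Finset.mem_insert, Finset.mem_singleton] at this
    rcases this with rfl | rfl
    · exact G.irrefl hay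
    · exact G.irrefl hby
  have hvz : ¬ G.Adj v z := by
    intro hh
    have : z ∈ nb G S v := mem_nb.mpr ⟨hzS, hh⟩
    rw [hN] at this
    simp only [Finset.mem_insert, Finset.mem_singleton] at this
    rcases this with rfl | rfl
    · exact G.irrefl haz
    · exact G.irrefl hbz
  have hyR : y ∈ rem G S {v} ∅ := by
    rw [mem_rem]
    exact ⟨hyS, by simpa using hyv, by simp, by simpa using hvy⟩
  have hzR : z ∈ rem G S {v} ∅ := by
    rw [mem_rem]
    exact ⟨hzS, by simpa using hzv, by simp, by simpa using hvz⟩
  by_cases hlow2 : ∃ w ∈ rem G S {v} ∅, dg G (rem G S {v} ∅) w ≤ 2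
  · have h1 : B G x S {v} ∅ ≤ (2 * x ^ 4) * x ^ 3 :=
      B_single hx0 hx1 hvS (by positivity) (IH2 _ (rem_ssubset hvS (by simp)) hlow2)
        (by unfold dg; omega)
    nlinarith [pow_nonneg hx0 3, pow_nonneg hx0 2, pow_nonneg hx0 4, pow_nonneg hx0 5,
      pow_nonneg hx0 6]
  · push Not at hlow2
    have hdy := hlow2 y hyR
    have hdz := hlow2 z hzR
    -- branch
    have hbr : ∀ w, w ∈ rem G S {v} ∅ → G.Adj a w → 2 < dg G (rem G S {v} ∅) w →
        B G x S {v, w} ∅ ≤ 1 * x ^ 7 := by
      intro w hwR haw hdw
      have hw := mem_rem.mp hwR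
      apply B_le hx0 hx1 (IH1 _ (rem_ssubset hvS (by simp)))
      have hdis1 : Disjoint ({v, a, b} : Finset V) (insert w (nb G (rem G S {v} ∅) w)) := by
        rw [Finset.disjoint_left]
        intro u hu hu2
        have huR : u ∈ rem G S {v} ∅ := by
          rcases Finset.mem_insert.mp hu2 with rfl | hh
          · exact hwR
          · exact (mem_nb.mp hh).1
        have huR' := mem_rem.mp huR
        simp only [Finset.mem_insert, Finset.mem_singleton] at hu
        rcases hu with rfl | rfl | rfl
        · exact huR'.2.1 (by simp)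
        · exact huR'.2.2.2 v (by simp) hva
        · exact huR'.2.2.2 v (by simp) hvb
      have hcc : (({v, a, b} : Finset V) ∪ (insert w (nb G (rem G S {v} ∅) w))).card =
          3 + (dg G (rem G S {v} ∅) w + 1) := by
        rw [Finset.card_union_of_disjoint hdis1, c3 hva' hvb' hab,
          Finset.card_insert_of_notMem (fun hh => G.irrefl (mem_nb.mp hh).2)]
        rfl
      have hbl := card_blocked (G := G) (S := S) (T := {v, w}) (R := ∅)
        (U := ({v, a, b} : Finset V) ∪ (insert w (nb G (rem G S {v} ∅) w))) (by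
          apply Finset.union_subset
          · intro u hu
            simp only [Finset.mem_insert, Finset.mem_singleton] at hu
            rcases hu with rfl | rfl | rfl <;> assumption
          · intro u hu
            rcases Finset.mem_insert.mp hu with rfl | hh
            · exact hw.1
            · exact rem_subset _ _ _ (mem_nb.mp hh).1) (by
          intro u hu
          rw [Finset.mem_union] at hu
          rcases hu with hu | hu
          · simp only [Finset.mem_insert, Finset.mem_singleton] at hu
            rcases hu with rfl | rfl | rfl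
            · exact not_mem_rem_of_mem (by simp)
            · exact not_mem_rem_of_adj (t := v) (by simp) hva
            · exact not_mem_rem_of_adj (t := v) (by simp) hvb
          · rcases Finset.mem_insert.mp hu with rfl | hh
            · exact not_mem_rem_of_mem (by simp)
            · exact not_mem_rem_of_adj (t := w) (by simp) (mem_nb.mp hh).2)
      omega
    have h1 : h G x S ≤ B G x S {v, y} ∅ + B G x S {v, z} ∅ + B G x S {a, b} ∅ := by
      apply cover3 hx0
      intro D hD
      by_cases hvD : v ∈ D
      · have hind := (mem_dis.mp hD).2.1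
        have haD : a ∉ D := fun hh => hind v hvD a hh hva
        obtain ⟨p, q, hp, hq, hpq, hpD, hqD, -⟩ := two_of hD haS haD
        have key : ∀ w, w ∈ nb G S a → w = v ∨ w = y ∨ w = z := by
          intro w hw
          by_cases hwv : w = v
          · exact Or.inl hwv
          · right
            have : w ∈ (nb G S a).erase v := Finset.mem_erase.mpr ⟨hwv, hw⟩
            rw [← hA, hyzA] at this
            simpa using this
        have hor : y ∈ D ∨ z ∈ D := by
          rcases key p hp with rfl | rfl | rfl
          · rcases key q hq with rfl | rfl | rfl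
            · exact absurd rfl hpq
            · exact Or.inl hqD
            · exact Or.inr hqD
          · exact Or.inl hpD
          · exact Or.inr hpD
        rcases hor with hyD | hzD
        · left
          refine ⟨?_, by simp⟩
          intro w hw
          simp only [Finset.mem_insert, Finset.mem_singleton] at hw
          rcases hw with rfl | rfl <;> assumption
        · right; left
          refine ⟨?_, by simp⟩
          intro w hw
          simp only [Finset.mem_insert, Finset.mem_singleton] at hw
          rcases hw with rfl | rfl <;> assumption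
      · right; right
        obtain ⟨h1, h2, -⟩ := hdich D hD hvD
        refine ⟨?_, by simp⟩
        intro w hw
        simp only [Finset.mem_insert, Finset.mem_singleton] at hw
        rcases hw with rfl | rfl <;> assumption
    have h2 := hbr y hyR hay hdy
    have h3 := hbr z hzR haz hdz
    nlinarith [pow_nonneg hx0 3, pow_nonneg hx0 2, pow_nonneg hx0 4, pow_nonneg hx0 5,
      pow_nonneg hx0 6]

end

end H61DIS
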