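import Pool.Agent.H61DIS.Gen3
import Pool.Agent.D88.Num

/-!
# Pairs of nonadjacent vertices and common neighbours
-/

open Finset Classical

namespace H61DIS

noncomputable section

variable {V : Type*} {G : SimpleGraph V} {S : Finset V} {x : ℝ}

/-- Number of common neighbours in `S`. -/
def cn (G : SimpleGraph V) (S : Finset V) (u w : V) : ℕ := (nb G S u ∩ nb G S w).card

theorem cn_comm (u w : V) : cn G S u w = cn G S w u := by
  unfold cn; rw [Finset.inter_comm]

theorem cn_le_left (u w : V) : cn G S u w ≤ dg G S u :=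
  Finset.card_le_card Finset.inter_subset_left

theorem cn_le_right (u w : V) : cn G S u w ≤ dg G S w :=
  Finset.card_le_card Finset.inter_subset_right

/-- Degree of `w` after the choice of `u`. -/
theorem dg_rem_cn {u w : V} {T R : Finset V} (hu : u ∈ T) :
    dg G (rem G S T R) w + cn G S u w ≤ dg G S w := by
  unfold cn
  apply dg_rem Finset.inter_subset_right
  intro q hq
  exact not_mem_rem_of_adj hu (mem_nb.mp (Finset.mem_inter.mp hq).1).2

/-- The union of two closed neighbourhoods. -/
def nn (G : SimpleGraph V) (S : Finset V) (u w : V) : Finset V :=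
  insert u (insert w (nb G S u ∪ nb G S w))

theorem nn_card {u w : V} (huw : u ≠ w) (hna : ¬ G.Adj u w) :
    (nn G S u w).card + cn G S u w = dg G S u + dg G S w + 2 := by
  have h1 : w ∉ nb G S u ∪ nb G S w := by
    intro hh
    rcases Finset.mem_union.mp hh with hh | hh
    · exact hna (mem_nb.mp hh).2
    · exact G.irrefl (mem_nb.mp hh).2
  have h2 : u ∉ insert w (nb G S u ∪ nb G S w) := by
    intro hh
    rcases Finset.mem_insert.mp hh with hh | hh
    · exact huw hh
    · rcases Finset.mem_union.mp hh with hh | hh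
      · exact G.irrefl (mem_nb.mp hh).2
      · exact hna (mem_nb.mp hh).2.symm
  have h3 := Finset.card_union_add_card_inter (nb G S u) (nb G S w)
  unfold nn cn dg
  rw [Finset.card_insert_of_notMem h2, Finset.card_insert_of_notMem h1]
  omega

theorem nn_sub {u w : V} (hu : u ∈ S) (hw : w ∈ S) : nn G S u w ⊆ S := by
  intro y hy
  unfold nn at hy
  rw [Finset.mem_insert, Finset.mem_insert, Finset.mem_union] at hy
  rcases hy with rfl | rfl | hy | hy
  · exact hu
  · exact hw
  · exact (mem_nb.mp hy).1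
  · exact (mem_nb.mp hy).1

theorem nn_removed {u w y : V} {T R : Finset V} (hu : u ∈ T) (hw : w ∈ T)
    (hy : y ∈ nn G S u w) : y ∉ rem G S T R := by
  unfold nn at hy
  rw [Finset.mem_insert, Finset.mem_insert, Finset.mem_union] at hy
  rcases hy with rfl | rfl | hy | hy
  · exact not_mem_rem_of_mem hu
  · exact not_mem_rem_of_mem hw
  · exact not_mem_rem_of_adj hu (mem_nb.mp hy).2
  · exact not_mem_rem_of_adj hw (mem_nb.mp hy).2

/-- The two basic caps. -/
structure Hyp (G : SimpleGraph V) (x : ℝ) (S : Finset V) : Prop where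
  hx0 : 0 < x
  hx : x ^ 9 = 1 / 6
  IH1 : ∀ S', S' ⊂ S → h G x S' ≤ 1
  IH2 : ∀ S', S' ⊂ S → (∃ v ∈ S', dg G S' v ≤ 3) → h G x S' ≤ 2 * x ^ 4

theorem Hyp.hx1 (H : Hyp G x S) : x ≤ 1 := by
  have := D88.num_lt H.hx0 H.hx; linarith

/-- General cap. -/
theorem Hyp.cap (H : Hyp G x S) {T R : Finset V} {t : V} (htS : t ∈ S) (htT : t ∈ T) {k : ℕ}
    (hk : k + (rem G S T R).card ≤ S.card) : B G x S T R ≤ x ^ k := by
  have := B_le H.hx0.le H.hx1 (H.IH1 _ (rem_ssubset htS htT)) hk
  linarith

/-- Cap with a vertex of degree at most three in the rest. -/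
theorem Hyp.capl (H : Hyp G x S) {T R : Finset V} {t : V} (htS : t ∈ S) (htT : t ∈ T) {k : ℕ}
    (hk : k + (rem G S T R).card ≤ S.card)
    (hl : ∃ y ∈ rem G S T R, dg G (rem G S T R) y ≤ 3) : B G x S T R ≤ 2 * x ^ (k + 4) := by
  have := B_le H.hx0.le H.hx1 (H.IH2 _ (rem_ssubset htS htT) hl) hk
  calc B G x S T R ≤ 2 * x ^ 4 * x ^ k := this
    _ = 2 * x ^ (k + 4) := by ring

theorem Hyp.single (H : Hyp G x S) {u : V} (hu : u ∈ S) {k : ℕ} (hk : k ≤ dg G S u + 1) :
    B G x S {u} ∅ ≤ x ^ k := by
  apply H.cap hu (by simp)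
  have := card_closed (G := G) hu
  omega

/-- Single cap with a nonadjacent vertex `w` of small remaining degree. -/
theorem Hyp.singlel (H : Hyp G x S) {u w : V} (hu : u ∈ S) {k : ℕ} (hk : k ≤ dg G S u + 1)
    (hw : w ∈ S) (hwu : w ≠ u) (hna : ¬ G.Adj u w) (hd : dg G S w ≤ 3 + cn G S u w) :
    B G x S {u} ∅ ≤ 2 * x ^ (k + 4) := by
  apply H.capl hu (by simp)
  · have := card_closed (G := G) hu
    omega
  · refine ⟨w, mem_rem_single hw hwu hna, ?_⟩
    have := dg_rem_cn (G := G) (S := S) (u := u) (w := w) (T := {u}) (R := ∅) (by simp)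
    omega

theorem pair_card {u w : V} (hu : u ∈ S) (hw : w ∈ S) (huw : u ≠ w) (hna : ¬ G.Adj u w) :
    dg G S u + dg G S w + 2 + (rem G S {u, w} ∅).card ≤ S.card + cn G S u w := by
  have h1 := nn_card (G := G) (S := S) huw hna
  have h2 := card_blocked (G := G) (S := S) (T := {u, w}) (R := ∅) (nn_sub (G := G) hu hw)
    (fun y hy => nn_removed (by simp) (by simp) hy)
  omega

/-- Pair cap. -/
theorem Hyp.pair (H : Hyp G x S) {u w : V} (hu : u ∈ S) (hw : w ∈ S) (huw : u ≠ w)
    (hna : ¬ G.Adj u w) {k : ℕ} (hk : k + cn G S u w ≤ dg G S u + dg G S w + 2) :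
    B G x S {u, w} ∅ ≤ x ^ k := by
  apply H.cap hu (by simp)
  have := pair_card (G := G) hu hw huw hna
  omega

/-- Pair cap with a small remaining degree. -/
theorem Hyp.pairl (H : Hyp G x S) {u w : V} (hu : u ∈ S) (hw : w ∈ S) (huw : u ≠ w)
    (hna : ¬ G.Adj u w) {k : ℕ} (hk : k + cn G S u w ≤ dg G S u + dg G S w + 2)
    (hl : ∃ y ∈ rem G S {u, w} ∅, dg G (rem G S {u, w} ∅) y ≤ 3) :
    B G x S {u, w} ∅ ≤ 2 * x ^ (k + 4) := by
  apply H.capl hu (by simp) _ hl
  have := pair_card (G := G) hu hw huw hna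
  omega

/-- The neighbours of `u` that may be used when `b, c` are chosen and `v` is not. -/
def Rs (G : SimpleGraph V) (S : Finset V) (v u b c : V) : Finset V :=
  (nb G S u).filter (fun y => y ≠ v ∧ ¬ G.Adj b y ∧ ¬ G.Adj c y)

theorem Rs_sub {v u b c : V} {D : Finset V} (hD : D ∈ dis G S) (hv : v ∉ D) (hb : b ∈ D)
    (hc : c ∈ D) : nb G D u ⊆ Rs G S v u b c := by
  intro y hy
  have hD' := mem_dis.mp hD
  obtain ⟨hyD, huy⟩ := mem_nb.mp hy
  unfold Rs
  rw [Finset.mem_filter, mem_nb]
  refine ⟨⟨hD'.1 hyD, huy⟩, ?_, fun hh => hD'.2.1 b hb y hyD hh, fun hh => hD'.2.1 c hc y hyD hh⟩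
  rintro rfl
  exact hv hyD

theorem Rs_card_left {v u b c : V} : (Rs G S v u b c).card + cn G S u b ≤ dg G S u := by
  unfold cn dg
  have hd : Disjoint (Rs G S v u b c) (nb G S u ∩ nb G S b) := by
    rw [Finset.disjoint_left]
    intro y hy hy2
    unfold Rs at hy
    rw [Finset.mem_filter] at hy
    exact hy.2.2.1 (mem_nb.mp (Finset.mem_inter.mp hy2).2).2
  rw [← Finset.card_union_of_disjoint hd]
  apply Finset.card_le_card
  apply Finset.union_subset (Finset.filter_subset _ _) Finset.inter_subset_left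

theorem Rs_comm {v u b c : V} : Rs G S v u b c = Rs G S v u c b := by
  unfold Rs
  apply Finset.filter_congr
  intro y _
  tauto

theorem Rs_card_right {v u b c : V} : (Rs G S v u b c).card + cn G S u c ≤ dg G S u := by
  rw [Rs_comm]; exact Rs_card_left

section

variable {v a b c : V}

/-- Pivot at `a`: if `a` has at most one usable neighbour then `v` or `a` is chosen. -/
theorem N3.pivot_none (E : N3 G S v a b c) (hx0 : 0 ≤ x) (hr : (Rs G S v a b c).card ≤ 1) :
    h G x S ≤ B G x S {v} ∅ + B G x S {a} ∅ := by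
  apply cover2 hx0
  intro D hD
  by_cases hvD : v ∈ D
  · left; exact ⟨by simpa using hvD, by simp⟩
  · right
    by_cases haD : a ∈ D
    · exact ⟨by simpa using haD, by simp⟩
    · exfalso
      have hbc : b ∈ D ∧ c ∈ D := by
        rcases E.pair hD hvD with h1 | h1 | h1
        · exact absurd h1.1 haD
        · exact absurd h1.1 haD
        · exact ⟨h1.1, h1.2.1⟩
      have h2 := (mem_dis.mp hD).2.2 a E.aS haD
      have h3 := Finset.card_le_card (Rs_sub (G := G) (u := a) hD hvD hbc.1 hbc.2)
      omega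

/-- Pivot at `a` with exactly two usable neighbours. -/
theorem N3.pivot_two (E : N3 G S v a b c) (hx0 : 0 ≤ x) (hr : (Rs G S v a b c).card ≤ 2) :
    h G x S ≤ B G x S {v} ∅ + B G x S {a} ∅ +
      B G x S (insert b (insert c (Rs G S v a b c))) ∅ := by
  apply cover3 hx0
  intro D hD
  by_cases hvD : v ∈ D
  · left; exact ⟨by simpa using hvD, by simp⟩
  · right
    by_cases haD : a ∈ D
    · left; exact ⟨by simpa using haD, by simp⟩
    · right
      have hbc : b ∈ D ∧ c ∈ D := by
        rcases E.pair hD hvD with h1 | h1 | h1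
        · exact absurd h1.1 haD
        · exact absurd h1.1 haD
        · exact ⟨h1.1, h1.2.1⟩
      have h2 := (mem_dis.mp hD).2.2 a E.aS haD
      have h4 := Rs_sub (G := G) (u := a) hD hvD hbc.1 hbc.2
      have h5 : nb G D a = Rs G S v a b c := Finset.eq_of_subset_of_card_le h4 (by omega)
      refine ⟨?_, by simp⟩
      intro y hy
      rw [Finset.mem_insert, Finset.mem_insert] at hy
      rcases hy with rfl | rfl | hy
      · exact hbc.1
      · exact hbc.2
      · rw [← h5] at hy
        exact (mem_nb.mp hy).1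

/-- Pivot at `a` without information. -/
theorem N3.pivot_gen (E : N3 G S v a b c) (hx0 : 0 ≤ x) :
    h G x S ≤ B G x S {v} ∅ + B G x S {a} ∅ + B G x S {b, c} ∅ := by
  apply cover3 hx0
  intro D hD
  by_cases hvD : v ∈ D
  · left; exact ⟨by simpa using hvD, by simp⟩
  · right
    by_cases haD : a ∈ D
    · left; exact ⟨by simpa using haD, by simp⟩
    · right
      have hbc : b ∈ D ∧ c ∈ D := by
        rcases E.pair hD hvD with h1 | h1 | h1
        · exact absurd h1.1 haD
        · exact absurd h1.1 haD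
        · exact ⟨h1.1, h1.2.1⟩
      refine ⟨?_, by simp⟩
      intro y hy
      rw [Finset.mem_insert, Finset.mem_singleton] at hy
      rcases hy with rfl | rfl
      · exact hbc.1
      · exact hbc.2

/-- Cap of the pivot event with exactly two usable neighbours. -/
theorem Hyp.pivot_cap (H : Hyp G x S) (E : N3 G S v a b c) (hab : ¬ G.Adj a b)
    (hac : ¬ G.Adj a c) (hbc : ¬ G.Adj b c) (hr : (Rs G S v a b c).card = 2) {k : ℕ}
    (hk : k + cn G S b c ≤ dg G S b + dg G S c + 5) :
    B G x S (insert b (insert c (Rs G S v a b c))) ∅ ≤ x ^ k := by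
  set T := insert b (insert c (Rs G S v a b c)) with hT
  have hbT : b ∈ T := by rw [hT]; simp
  have hcT : c ∈ T := by rw [hT]; simp
  apply H.cap E.bS hbT
  have h1 := nn_card (G := G) (S := S) E.bc hbc
  have hRS : Rs G S v a b c ⊆ S := by
    intro y hy
    unfold Rs at hy
    exact (mem_nb.mp (Finset.mem_filter.mp hy).1).1
  have haR : a ∉ Rs G S v a b c := by
    intro hh
    unfold Rs at hh
    exact G.irrefl (mem_nb.mp (Finset.mem_filter.mp hh).1).2
  have hdis1 : Disjoint (insert a (Rs G S v a b c)) (nn G S b c) := by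
    rw [Finset.disjoint_left]
    intro y hy hy2
    unfold nn at hy2
    rw [Finset.mem_insert, Finset.mem_insert, Finset.mem_union] at hy2
    rcases Finset.mem_insert.mp hy with rfl | hy
    · rcases hy2 with h2 | h2 | h2 | h2
      · exact E.ab h2
      · exact E.ac h2
      · exact hab (mem_nb.mp h2).2.symm
      · exact hac (mem_nb.mp h2).2.symm
    · unfold Rs at hy
      rw [Finset.mem_filter] at hy
      rcases hy2 with rfl | rfl | h2 | h2
      · exact hab (mem_nb.mp hy.1).2
      · exact hac (mem_nb.mp hy.1).2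
      · exact hy.2.2.1 (mem_nb.mp h2).2
      · exact hy.2.2.2 (mem_nb.mp h2).2
  have hcard : (insert a (Rs G S v a b c) ∪ nn G S b c).card = 3 + (nn G S b c).card := by
    rw [Finset.card_union_of_disjoint hdis1, Finset.card_insert_of_notMem haR, hr]
  have h2 := card_blocked (G := G) (S := S) (T := T) (R := ∅)
    (U := insert a (Rs G S v a b c) ∪ nn G S b c) (by
      apply Finset.union_subset _ (nn_sub E.bS E.cS)
      intro y hy
      rcases Finset.mem_insert.mp hy with rfl | hy
      · exact E.aS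
      · exact hRS hy) (by
      intro y hy
      rcases Finset.mem_union.mp hy with hy | hy
      · rcases Finset.mem_insert.mp hy with rfl | hy
        · obtain ⟨z, hz⟩ := Finset.card_pos.mp (by omega : 0 < (Rs G S v y b c).card)
          apply not_mem_rem_of_adj (t := z)
          · rw [hT]; exact Finset.mem_insert_of_mem (Finset.mem_insert_of_mem hz)
          · unfold Rs at hz
            exact (mem_nb.mp (Finset.mem_filter.mp hz).1).2.symm
        · apply not_mem_rem_of_mem
          rw [hT]; exact Finset.mem_insert_of_mem (Finset.mem_insert_of_mem hy)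
      · exact nn_removed hbT hcT hy)
  omega

end

end

end H61DIS
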