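import Pool.Agent.H61DIS.Asym

/-!
# The lower bound: disjoint copies of the `3 × 3` rook graph
-/

namespace H61DIS

/-- `a` disjoint copies of the `3 × 3` rook graph and `r` isolated vertices. -/
def rooks (a r : ℕ) : SimpleGraph ((Fin a × Fin 3 × Fin 3) ⊕ Fin r) where
  Adj p q := match p, q with
    | Sum.inl p, Sum.inl q =>
      p.1 = q.1 ∧ ((p.2.1 = q.2.1 ∧ p.2.2 ≠ q.2.2) ∨ (p.2.1 ≠ q.2.1 ∧ p.2.2 = q.2.2))
    | _, _ => False
  symm := ⟨by
    rintro (p | p) (q | q) h
    · exact ⟨h.1.symm, h.2.imp (fun k => ⟨k.1.symm, fun e => k.2 e.symm⟩)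
        (fun k => ⟨fun e => k.1 e.symm, k.2.symm⟩)⟩
    · exact h
    · exact h
    · exact h⟩
  loopless := ⟨by
    rintro (p | p) h
    · rcases h.2 with k | k
      · exact k.2 rfl
      · exact k.1 rfl
    · exact h⟩

/-- The 2-dominating independent set given by a permutation in each copy. -/
def perms {a r : ℕ} (σ : Fin a → Equiv.Perm (Fin 3)) : Set ((Fin a × Fin 3 × Fin 3) ⊕ Fin r) :=
  {p | match p with
    | Sum.inl p => σ p.1 p.2.1 = p.2.2
    | Sum.inr _ => True}

theorem perms_isTwoDIS {a r : ℕ} (σ : Fin a → Equiv.Perm (Fin 3)) :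
    IsTwoDIS (rooks a r) (perms σ) := by
  constructor
  · rintro (⟨p1, p2, p3⟩ | p) hp (⟨q1, q2, q3⟩ | q) hq hadj
    · simp only [perms, Set.mem_setOf_eq] at hp hq
      simp only [rooks] at hadj
      obtain ⟨rfl, hadj⟩ := hadj
      rcases hadj with ⟨rfl, h2⟩ | ⟨h1, rfl⟩
      · exact h2 (hp.symm.trans hq)
      · exact h1 ((σ p1).injective (hp.trans hq.symm))
    · exact hadj
    · exact hadj
    · exact hadj
  · rintro (⟨p1, p2, p3⟩ | p) hp
    · have hp' : σ p1 p2 ≠ p3 := hp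
      have e1 : (Sum.inl (p1, p2, σ p1 p2) : (Fin a × Fin 3 × Fin 3) ⊕ Fin r) ∈
          (rooks a r).neighborSet (Sum.inl (p1, p2, p3)) ∩ perms σ := by
        refine ⟨?_, rfl⟩
        exact ⟨rfl, Or.inl ⟨rfl, fun e => hp' e.symm⟩⟩
      have e2 : (Sum.inl (p1, (σ p1).symm p3, p3) : (Fin a × Fin 3 × Fin 3) ⊕ Fin r) ∈
          (rooks a r).neighborSet (Sum.inl (p1, p2, p3)) ∩ perms σ := by
        refine ⟨?_, ?_⟩
        · refine ⟨rfl, Or.inr ⟨?_, rfl⟩⟩
          intro e
          have e' : p2 = (σ p1).symm p3 := e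
          exact hp' (by rw [e']; simp)
        · show σ p1 ((σ p1).symm p3) = p3
          simp
      have hne : (Sum.inl (p1, p2, σ p1 p2) : (Fin a × Fin 3 × Fin 3) ⊕ Fin r) ≠
          Sum.inl (p1, (σ p1).symm p3, p3) := by
        intro e
        simp only [Sum.inl.injEq, Prod.mk.injEq, true_and] at e
        exact hp' e.2
      have hsub : ({Sum.inl (p1, p2, σ p1 p2), Sum.inl (p1, (σ p1).symm p3, p3)} :
          Set ((Fin a × Fin 3 × Fin 3) ⊕ Fin r)) ⊆
          (rooks a r).neighborSet (Sum.inl (p1, p2, p3)) ∩ perms σ := by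
        intro y hy
        rcases hy with rfl | rfl
        · exact e1
        · exact e2
      rw [← Set.ncard_pair hne]
      exact Set.ncard_le_ncard hsub (Set.toFinite _)
    · exact absurd trivial hp

theorem lower (a r : ℕ) : 6 ^ a ≤ mi2 (rooks a r) := by
  have hinj : Function.Injective
      (fun σ : Fin a → Equiv.Perm (Fin 3) => (perms σ : Set ((Fin a × Fin 3 × Fin 3) ⊕ Fin r))) := by
    intro σ τ h
    funext i
    ext j
    have h1 : (Sum.inl (i, j, σ i j) : (Fin a × Fin 3 × Fin 3) ⊕ Fin r) ∈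
        (perms σ : Set ((Fin a × Fin 3 × Fin 3) ⊕ Fin r)) := rfl
    have h2 : (Sum.inl (i, j, σ i j) : (Fin a × Fin 3 × Fin 3) ⊕ Fin r) ∈
        (perms τ : Set ((Fin a × Fin 3 × Fin 3) ⊕ Fin r)) := by
      have h' : (perms σ : Set ((Fin a × Fin 3 × Fin 3) ⊕ Fin r)) = perms τ := h
      rw [← h']; exact h1
    have h3 : τ i j = σ i j := h2
    rw [h3]
  have hsub : Set.range (fun σ : Fin a → Equiv.Perm (Fin 3) =>
      (perms σ : Set ((Fin a × Fin 3 × Fin 3) ⊕ Fin r))) ⊆
      {D | IsTwoDIS (rooks a r) D} := by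
    rintro _ ⟨σ, rfl⟩
    exact perms_isTwoDIS σ
  have hc := Set.ncard_le_ncard hsub (Set.toFinite _)
  rw [← Set.image_univ, Set.ncard_image_of_injective _ hinj, Set.ncard_univ, Nat.card_eq_fintype_card,
    Fintype.card_fun, Fintype.card_perm, Fintype.card_fin, Fintype.card_fin] at hc
  exact hc

theorem lower_max (n : ℕ) : 6 ^ (n / 9) ≤ mi2Max n := by
  have h1 := lower (n / 9) (n % 9)
  have h2 := le_mi2Max' (rooks (n / 9) (n % 9))
  have h3 : Fintype.card ((Fin (n / 9) × Fin 3 × Fin 3) ⊕ Fin (n % 9)) = n := by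
    simp only [Fintype.card_sum, Fintype.card_prod, Fintype.card_fin]
    omega
  rw [h3] at h2
  exact h1.trans h2

end H61DIS
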